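import Pool.Agent.H75.PA.Defs
import Pool.Agent.H98.AF.SDefs

/-!
helper75 (project MP_28250c_PQ): refutations with all sound schematic rules with a bounded number of variables and with two families of
axioms: all substitution instances of the weak pigeonhole principle and of the weak rank principle over `Z/p`.
-/

set_option autoImplicit false

namespace ACpFrege

/-- The number of different variables (for formulas and for sequences of formulas) of a rule. -/
def Rule.vars {p : ℕ} (R : Rule p) : ℕ := R.mvs.dedup.length + R.sqs.dedup.length

/-- The rank principle over `Z/p`: the product of the `m × r` matrix `a` and the `r × m` matrix `b` is not the identity matrix. The entries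
are lists of formulas; the value of an entry is the number of its true formulas modulo `p`. -/
def rkFm {p m r : ℕ} (a : Fin m → Fin r → List (Fm p)) (b : Fin r → Fin m → List (Fm p)) : Fm p :=
  cnL true ((List.finRange m).flatMap fun i => (List.finRange m).map fun i' =>
    .neg (mdL (if i = i' then 1 else 0) ((List.finRange r).flatMap fun j => (a i j).flatMap fun A => (b j i').map fun B =>
      cnL false [A, B])))

/-- `A` is an instance of the rank principle with `m ≥ 1` and `(1 + 1/P) r ≤ m`. -/
def IsRk {p : ℕ} (P : ℕ) (A : Fm p) : Prop :=
  ∃ (m r : ℕ) (a : Fin m → Fin r → List (Fm p)) (b : Fin r → Fin m → List (Fm p)), 1 ≤ m ∧ (P + 1) * r ≤ P * m ∧ A = rkFm a b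

/-- `π` is a refutation of the CNF `F` of depth at most `d` in the system `S` with the axioms `IsPhp P` and `IsRk P`. -/
def RefutesR {p : ℕ} (S : List (Rule p)) (d P : ℕ) (F : CNF) (π : List (Fm p)) : Prop :=
  (∀ A ∈ π, A.depth ≤ d) ∧
    (∀ (i : ℕ) (h : i < π.length), Step S F (π.take i) π[i] ∨ IsPhp P π[i] ∨ IsRk P π[i]) ∧ cnL true [] ∈ π

end ACpFrege
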