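import Pool.Agent.H75.PQ.NumG
import Pool.Agent.H94.PP.Final

/-!
helper75 (project MP_28250c_PQ): the pigeonhole principle is exponentially hard for bounded-depth Frege systems with MOD_p which may use
all sound rules with few variables and all instances of the weak pigeonhole principle and of the weak rank principle.
-/

set_option autoImplicit false

namespace PPh

open ACpFrege

theorem refutesR_mono {p : ℕ} {S : List (Rule p)} {d P : ℕ} {F F' : CNF} {π : List (Fm p)} (h : ∀ C ∈ F, C ∈ F')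
    (hπ : RefutesR S d P F π) : RefutesR S d P F' π := by
  refine ⟨hπ.1, fun i hi => ?_, hπ.2.2⟩
  rcases hπ.2.1 i hi with (⟨C, hC, e⟩ | h') | h'
  · exact Or.inl (Or.inl ⟨C, h C hC, e⟩)
  · exact Or.inl (Or.inr h')
  · exact Or.inr h'

/-- Two negative literals as a clause of width 2. -/
theorem hasGmW_of {p n : ℕ} [Fact p.Prime] {F : CNF} {L A R del : ℕ} (h : HasGm p n F L A R del) : HasGmW 2 p n F L A R del := by
  obtain ⟨E, i1, i2, i3, g, hD, hA, hRk, hdel, hcl⟩ := h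
  refine ⟨E, i1, i2, i3, g, hD, hA, hRk, hdel, fun C hC => ?_⟩
  rcases hcl C hC with ⟨i, i', hCe, h⟩ | h
  · refine Or.inl ⟨[(i, false), (i', false)], le_rfl, by rw [hCe]; rfl, fun m => ?_⟩
    unfold Gm.nprod
    rw [List.map_cons, List.map_cons, List.map_nil, List.prod_cons, List.prod_cons, List.prod_nil, mul_one]
    exact h m
  · exact Or.inr h

/-- From the bound for `F l n` (all `l`, `n` with `(2p+4)^(5l) ≤ n`) to the form with an exponent of `n`, for every CNF `G` contained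
in `F l n`. -/
theorem php_genR {p : ℕ} (hp : p.Prime) (F : ℕ → ℕ → CNF)
    (h0 : ∃ l₀ : ℕ, ∀ l ≥ l₀, ∀ d : ℕ, (l : ℝ) ^ (d + 1) ≤ 2 ^ ((1 : ℝ) / 20 * l) → ∀ n : ℕ, (2 * p + 4) ^ (5 * l) ≤ n →
      ∀ (S : List (Rule p)) (v P : ℕ), (∀ R ∈ S, R.Sound) → (∀ R ∈ S, R.vars ≤ v) → (v : ℝ) ≤ 2 ^ ((1 : ℝ) / 20 * l) →
      (P : ℝ) ≤ 2 ^ ((1 : ℝ) / 20 * l) →
      ∀ π : List (Fm p), RefutesR S d P (F l n) π → (2 : ℝ) ^ ((2 : ℝ) ^ ((1 : ℝ) / 20 * l / (d + 1))) ≤ psize π) :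
    0 < cexp p ∧ ∃ n₀ : ℕ, ∀ n ≥ n₀, ∀ d : ℕ, Real.log n ^ (d + 1) ≤ (n : ℝ) ^ cexp p →
      ∃ l : ℕ, (2 * p + 4) ^ (5 * l) ≤ n ∧ (n : ℝ) ^ cexp p ≤ ((p ^ l : ℕ) : ℝ) ∧ ∀ G : CNF, (∀ C ∈ G, C ∈ F l n) →
        ∀ (S : List (Rule p)) (P : ℕ), (∀ R ∈ S, R.Sound) → (∀ R ∈ S, (R.vars : ℝ) ≤ (n : ℝ) ^ cexp p) →
          (P : ℝ) ≤ (n : ℝ) ^ cexp p →
          ∀ π : List (Fm p), RefutesR S d P G π → (2 : ℝ) ^ ((n : ℝ) ^ (cexp p / (d + 1))) ≤ psize π := by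
  obtain ⟨l0, hl0⟩ := h0
  set B : ℕ := (2 * p + 4) ^ 5 with hB
  have hB1 : 1 < B := Nat.one_lt_pow (by norm_num) (by omega)
  have hB4 : 4 ≤ B := by
    calc 4 ≤ 2 * p + 4 := by omega
      _ ≤ (2 * p + 4) ^ 5 := Nat.le_self_pow (by norm_num) _
  have hBr : (4 : ℝ) ≤ B := by exact_mod_cast hB4
  have hl2 : 0 < Real.log 2 := Real.log_pos (by norm_num)
  have hlB : 1 ≤ Real.log B := by
    rw [Real.le_log_iff_exp_le (by linarith)]
    linarith [Real.exp_one_lt_d9]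
  have hlB0 : 0 < Real.log B := by linarith
  have hlB5 : Real.log B = 5 * Real.log (2 * p + 4) := by
    rw [hB]
    push_cast
    rw [Real.log_pow]
    norm_num
  have hc : cexp p = 1 / 20 * (Real.log 2 / Real.log B) / 2 := by
    have : Real.log (2 * (p : ℝ) + 4) ≠ 0 := by
      intro h
      rw [h] at hlB5
      linarith
    rw [hlB5]
    unfold cexp
    field_simp
    norm_num
  have hcp : 0 < cexp p := by
    rw [hc]
    positivity
  refine ⟨hcp, B ^ (l0 + 1), fun n hn d hd => ?_⟩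
  have hn1 : 1 ≤ n := le_trans (Nat.one_le_pow _ _ (by omega)) hn
  have hnr : (1 : ℝ) ≤ n := by exact_mod_cast hn1
  have hnr0 : (0 : ℝ) < n := by linarith
  set l : ℕ := Nat.log B n with hl
  have h1 : B ^ l ≤ n := Nat.pow_log_le_self B (by omega)
  have h2 : n < B ^ (l + 1) := Nat.lt_pow_succ_log_self hB1 n
  have hl1 : l0 + 1 ≤ l := (Nat.le_log_iff_pow_le hB1 (by omega)).2 hn
  have hlr : (1 : ℝ) ≤ l := by exact_mod_cast (by omega : 1 ≤ l)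
  have hlog1 : (l : ℝ) * Real.log B ≤ Real.log n := by
    rw [← Real.log_pow]
    exact Real.log_le_log (by positivity) (by exact_mod_cast h1)
  have hlog2 : Real.log n ≤ ((l : ℝ) + 1) * Real.log B := by
    have : Real.log n ≤ Real.log ((B : ℝ) ^ (l + 1)) := Real.log_le_log hnr0 (by exact_mod_cast h2.le)
    rw [Real.log_pow] at this
    push_cast at this
    exact this
  have hln : (l : ℝ) ≤ Real.log n := by nlinarith
  have hnc : (n : ℝ) ^ cexp p ≤ (2 : ℝ) ^ ((1 : ℝ) / 20 * l) := by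
    rw [Real.rpow_def_of_pos hnr0, Real.rpow_def_of_pos (by norm_num)]
    refine Real.exp_le_exp.2 ?_
    have e1 : Real.log n * cexp p ≤ ((l : ℝ) + 1) * Real.log B * cexp p := mul_le_mul_of_nonneg_right hlog2 hcp.le
    have e2 : ((l : ℝ) + 1) * Real.log B * cexp p = ((l : ℝ) + 1) / 2 * (1 / 20 * Real.log 2) := by
      rw [hc]
      field_simp
    have e3 : ((l : ℝ) + 1) / 2 * (1 / 20 * Real.log 2) ≤ (l : ℝ) * (1 / 20 * Real.log 2) :=
      mul_le_mul_of_nonneg_right (by linarith) (by positivity)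
    calc Real.log n * cexp p ≤ (l : ℝ) * (1 / 20 * Real.log 2) := by linarith
      _ = Real.log 2 * (1 / 20 * l) := by ring
  have h21 : (2 : ℝ) ^ ((1 : ℝ) / 20 * l) ≤ ((p ^ l : ℕ) : ℝ) := by
    calc (2 : ℝ) ^ ((1 : ℝ) / 20 * l) ≤ (2 : ℝ) ^ ((l : ℝ)) := by
          refine Real.rpow_le_rpow_of_exponent_le (by norm_num) ?_
          nlinarith
      _ = (2 : ℝ) ^ l := Real.rpow_natCast _ _
      _ ≤ (p : ℝ) ^ l := pow_le_pow_left₀ (by norm_num) (by exact_mod_cast hp.two_le) l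
      _ = ((p ^ l : ℕ) : ℝ) := by push_cast; rfl
  have hdl : (l : ℝ) ^ (d + 1) ≤ (2 : ℝ) ^ ((1 : ℝ) / 20 * l) := by
    calc (l : ℝ) ^ (d + 1) ≤ Real.log n ^ (d + 1) := pow_le_pow_left₀ (Nat.cast_nonneg _) hln _
      _ ≤ (n : ℝ) ^ cexp p := hd
      _ ≤ _ := hnc
  have hB5 : (2 * p + 4) ^ (5 * l) ≤ n := by
    rw [pow_mul]
    exact h1
  refine ⟨l, hB5, hnc.trans h21, fun G hGF S P hS hvS hP π hπ => ?_⟩
  refine le_trans ?_ (hl0 l (by omega) d hdl n hB5 S ⌊(n : ℝ) ^ cexp p⌋₊ P hS (fun R hR => Nat.le_floor (hvS R hR))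
    ((Nat.floor_le (by positivity)).trans hnc) (hP.trans hnc) π (refutesR_mono hGF hπ))
  refine Real.rpow_le_rpow_of_exponent_le (by norm_num) ?_
  have hd0 : (0 : ℝ) < (d : ℝ) + 1 := by positivity
  have e1 : (n : ℝ) ^ (cexp p / (d + 1)) = ((n : ℝ) ^ cexp p) ^ (1 / ((d : ℝ) + 1)) := by
    rw [← Real.rpow_mul hnr0.le]
    congr 1
    ring
  have e2 : (2 : ℝ) ^ ((1 : ℝ) / 20 * l / (d + 1)) = ((2 : ℝ) ^ ((1 : ℝ) / 20 * l)) ^ (1 / ((d : ℝ) + 1)) := by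
    rw [← Real.rpow_mul (by norm_num)]
    congr 1
    ring
  rw [e1, e2]
  exact Real.rpow_le_rpow (by positivity) hnc (by positivity)

/-- The onto functional principle, all `l`. -/
theorem of_R {p : ℕ} (hp : p.Prime) : ∃ l₀ : ℕ, ∀ l ≥ l₀, ∀ d : ℕ, (l : ℝ) ^ (d + 1) ≤ 2 ^ ((1 : ℝ) / 20 * l) →
    ∀ n : ℕ, (2 * p + 4) ^ (5 * l) ≤ n →
      ∀ (S : List (Rule p)) (v P : ℕ), (∀ R ∈ S, R.Sound) → (∀ R ∈ S, R.vars ≤ v) → (v : ℝ) ≤ 2 ^ ((1 : ℝ) / 20 * l) →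
      (P : ℝ) ≤ 2 ^ ((1 : ℝ) / 20 * l) →
      ∀ π : List (Fm p), RefutesR S d P (ofphp (n + p ^ l) n) π →
        (2 : ℝ) ^ ((2 : ℝ) ^ ((1 : ℝ) / 20 * l / (d + 1))) ≤ psize π := by
  have : Fact p.Prime := ⟨hp⟩
  refine of_genR hp (H := fun n F L A R del => HasGmW 2 p n F L A R del) (Sd.outGR p 2) (fun l n => ofphp (n + p ^ l) n)
    (fun l n => (n + p ^ l) * n) ?_
  obtain ⟨l₀, h⟩ := outM_all p
  exact ⟨l₀, fun l hl n L hn hL => hasGmW_of (h l hl n L hn hL)⟩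

/-- The final statement for the pigeonhole principle. -/
def StatementPHPr : Prop :=
  ∀ p : ℕ, p.Prime → ∃ n₀ : ℕ, ∀ n ≥ n₀, ∀ d : ℕ,
    Real.log n ^ (d + 1) ≤ (n : ℝ) ^ (Real.log 2 / (200 * Real.log (2 * p + 4))) →
    ∀ (S : List (Rule p)) (P m : ℕ), (∀ R ∈ S, R.Sound) →
      (∀ R ∈ S, (R.vars : ℝ) ≤ (n : ℝ) ^ (Real.log 2 / (200 * Real.log (2 * p + 4)))) →
      (P : ℝ) ≤ (n : ℝ) ^ (Real.log 2 / (200 * Real.log (2 * p + 4))) → n < m →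
      (m : ℝ) ≤ n + (n : ℝ) ^ (Real.log 2 / (200 * Real.log (2 * p + 4))) →
      ∀ π : List (Fm p), RefutesR S d P (php m n) π →
        (2 : ℝ) ^ ((n : ℝ) ^ (Real.log 2 / (200 * Real.log (2 * p + 4)) / (d + 1))) ≤ psize π

/-- The final statement for the onto functional pigeonhole principle. -/
def StatementOFr : Prop :=
  ∀ p : ℕ, p.Prime → ∃ l₀ : ℕ, ∀ l ≥ l₀, ∀ d : ℕ, (l : ℝ) ^ (d + 1) ≤ 2 ^ ((l : ℝ) / 20) →
    ∀ n : ℕ, (2 * p + 4) ^ (5 * l) ≤ n →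
      ∀ (S : List (Rule p)) (P : ℕ), (∀ R ∈ S, R.Sound) → (∀ R ∈ S, (R.vars : ℝ) ≤ 2 ^ ((l : ℝ) / 20)) →
      (P : ℝ) ≤ 2 ^ ((l : ℝ) / 20) →
      ∀ π : List (Fm p), RefutesR S d P (ofphp (n + p ^ l) n) π →
        (2 : ℝ) ^ ((2 : ℝ) ^ ((l : ℝ) / (20 * (d + 1)))) ≤ psize π

theorem statementPHPr : StatementPHPr := by
  intro p hp
  obtain ⟨_, n₀, h⟩ := php_genR hp (fun l n => ofphp (n + p ^ l) n) (of_R hp)
  refine ⟨n₀, fun n hn d hd S P m hS hvS hP hnm hm π hπ => ?_⟩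
  obtain ⟨l, h1, h2, h3⟩ := h n hn d hd
  have hmn : m ≤ n + p ^ l := by
    have : (m : ℝ) ≤ ((n + p ^ l : ℕ) : ℝ) := by
      push_cast
      push_cast at h2
      unfold cexp at h2
      linarith
    exact_mod_cast this
  refine h3 (php m n) (fun C hC => ?_) S P hS hvS hP π hπ
  show C ∈ ofphp (n + p ^ l) n
  unfold ofphp
  exact List.mem_append.2 (Or.inl (php_mono hmn C hC))

theorem statementOFr : StatementOFr := by
  intro p hp
  obtain ⟨l₀, h⟩ := of_R hp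
  refine ⟨l₀, fun l hl d hd n hn S P hS hvS hP π hπ => ?_⟩
  have e1 : (l : ℝ) / 20 = (1 : ℝ) / 20 * l := by ring
  have e2 : (l : ℝ) / (20 * (d + 1)) = (1 : ℝ) / 20 * l / (d + 1) := by
    have : ((d : ℝ) + 1) ≠ 0 := by positivity
    field_simp
  rw [e2]
  rw [e1] at hd hvS hP
  exact h l hl d hd n hn S ⌊(2 : ℝ) ^ ((1 : ℝ) / 20 * l)⌋₊ P hS (fun R hR => Nat.le_floor (hvS R hR))
    (Nat.floor_le (by positivity)) hP π hπ

theorem mainPQ : StatementPHPr ∧ StatementOFr := ⟨statementPHPr, statementOFr⟩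

end PPh
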