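import Pool.Agent.H75.PQ.NumS

/-!
helper75 (project MP_28250c_PQ): the numerical part for the counting principles (adapted from H16/CQ/Num.lean of helper16).
-/

set_option autoImplicit false

namespace ACpFrege

private theorem NC_rpow {a : ℝ} (ha : 0 < a) (B : ℝ) : ∃ n0 : ℕ, ∀ n ≥ n0, B ≤ (n : ℝ) ^ a := by
  have h := ((tendsto_rpow_atTop ha).comp tendsto_natCast_atTop_atTop).eventually_ge_atTop B
  obtain ⟨n0, h0⟩ := Filter.eventually_atTop.mp h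
  exact ⟨n0, fun n hn => h0 n hn⟩

private theorem NC_log (B : ℝ) : ∃ n0 : ℕ, ∀ n ≥ n0, B ≤ Real.log (n : ℝ) := by
  have h := (Real.tendsto_log_atTop.comp tendsto_natCast_atTop_atTop).eventually_ge_atTop B
  obtain ⟨n0, h0⟩ := Filter.eventually_atTop.mp h
  exact ⟨n0, fun n hn => h0 n hn⟩

private theorem NC_M {κ n : ℕ} (hκ : 1 ≤ κ) : Real.sqrt n / κ - 1 ≤ (Nat.sqrt (n / κ) : ℝ) := by
  have h1 : n / κ < (Nat.sqrt (n / κ) + 1) * (Nat.sqrt (n / κ) + 1) := Nat.lt_succ_sqrt _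
  have h2 : n < (Nat.sqrt (n / κ) + 1) * (Nat.sqrt (n / κ) + 1) * κ := (Nat.div_lt_iff_lt_mul hκ).1 h1
  have hκ' : (1 : ℝ) ≤ κ := by exact_mod_cast hκ
  have h3 : (n : ℝ) ≤ (κ * ((Nat.sqrt (n / κ) : ℝ) + 1)) ^ 2 := by
    have h4 : (n : ℝ) < (((Nat.sqrt (n / κ) + 1) * (Nat.sqrt (n / κ) + 1) * κ : ℕ) : ℝ) := by exact_mod_cast h2
    push_cast at h4
    have h5 : (κ : ℝ) ≤ κ ^ 2 := by nlinarith
    have h6 : ((Nat.sqrt (n / κ) : ℝ) + 1) * ((Nat.sqrt (n / κ) : ℝ) + 1) * κ ≤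
        ((Nat.sqrt (n / κ) : ℝ) + 1) * ((Nat.sqrt (n / κ) : ℝ) + 1) * κ ^ 2 :=
      mul_le_mul_of_nonneg_left h5 (by positivity)
    calc (n : ℝ) ≤ ((Nat.sqrt (n / κ) : ℝ) + 1) * ((Nat.sqrt (n / κ) : ℝ) + 1) * κ ^ 2 := h4.le.trans h6
      _ = _ := by ring
  have h4 : Real.sqrt n ≤ κ * ((Nat.sqrt (n / κ) : ℝ) + 1) := by
    rw [← Real.sqrt_sq (show (0 : ℝ) ≤ κ * ((Nat.sqrt (n / κ) : ℝ) + 1) by positivity)]
    exact Real.sqrt_le_sqrt h3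
  have h5 : Real.sqrt n / κ ≤ (Nat.sqrt (n / κ) : ℝ) + 1 := by
    rw [div_le_iff₀ (by linarith)]
    linarith
  linarith

/-- The length. -/
private theorem NC_L {q C L R : ℕ} (hq : 1 ≤ q) (hq' : (1 : ℝ) ≤ q) {w : ℝ} (hw1 : 1 ≤ w)
    (hbig2 : 6 * q * (3 * (C : ℝ) + 2) * w - 1 ≤ R) (hLr : (R : ℝ) ≤ 2 * L + 5) :
    3 * (C : ℝ) * w ≤ ((L / (3 * q) : ℕ) : ℝ) := by
  have h1 : L < (L / (3 * q) + 1) * (3 * q) := by
    have h := Nat.lt_div_mul_add (a := L) (b := 3 * q) (by positivity)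
    rw [Nat.add_mul, Nat.one_mul]
    exact h
  have h2 : (L : ℝ) < (((L / (3 * q) : ℕ) : ℝ) + 1) * (3 * q) := by exact_mod_cast h1
  obtain ⟨u, hu⟩ : ∃ u : ℝ, u = ((L / (3 * q) : ℕ) : ℝ) := ⟨_, rfl⟩
  rw [← hu] at h2 ⊢
  have h3 : 6 * q * (3 * (C : ℝ) + 2) * w ≤ 2 * ((u + 1) * (3 * q)) + 6 := by linarith
  have e1 : 6 * q * (3 * (C : ℝ) + 2) * w = 6 * (q * ((3 * C + 2) * w)) := by ring
  have e2 : 2 * ((u + 1) * (3 * q)) = 6 * (q * (u + 1)) := by ring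
  rw [e1, e2] at h3
  have h4 : (q : ℝ) * ((3 * C + 2) * w) ≤ q * (u + 1 + 1) := by
    have e3 : (q : ℝ) * (u + 1 + 1) = q * (u + 1) + q := by ring
    rw [e3]
    linarith
  have h5 := le_of_mul_le_mul_left h4 (by linarith)
  have e4 : (3 * (C : ℝ) + 2) * w = 3 * C * w + 2 * w := by ring
  rw [e4] at h5
  linarith

/-- All parameters. -/
theorem num_exC (p q κ C M₀ : ℕ) (hp : 1 ≤ p) (hq : 1 ≤ q) (hκ : 1 ≤ κ) (hC : 1 ≤ C) : ∃ n₀ : ℕ, ∀ n ≥ n₀, ∀ d : ℕ,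
    Real.log n ^ (d + 1) ≤ (n : ℝ) ^ ((1 : ℝ) / 5000) →
    ∃ M L t N : ℕ, M₀ ≤ M ∧ 1 ≤ M ∧ κ * M ^ 2 ≤ n ∧ 8 ≤ L ∧ (2 * L + 4) ^ 400 ≤ M ∧ 1 ≤ t ∧
      C * (⌊(n : ℝ) ^ ((1 : ℝ) / 5000)⌋₊ + ⌊(n : ℝ) ^ ((1 : ℝ) / 5000)⌋₊ + 1) * (p * t) ^ (d + 2) ≤ L / (3 * q) ∧
      ⌊(n : ℝ) ^ ((1 : ℝ) / 5000)⌋₊ ≤ N ∧
      (2 : ℝ) ^ ((n : ℝ) ^ ((1 : ℝ) / (5000 * (d + 1)))) ≤ N ∧
      C * N ^ 2 * M ^ 2 * 2 ^ t < 3 ^ t := by
  have hl32 : 0 < Real.log (3 / 2) := Real.log_pos (by norm_num)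
  have hκ' : (1 : ℝ) ≤ κ := by exact_mod_cast hκ
  have hq' : (1 : ℝ) ≤ q := by exact_mod_cast hq
  obtain ⟨n1, hn1⟩ := NC_log (max (max 1 (4 * (p : ℝ) ^ 2)) ((Real.log (4 * C) + 2 + 2 * Real.log 2 + 1) / Real.log (3 / 2)))
  obtain ⟨n2, hn2⟩ := NC_rpow (show (0 : ℝ) < 1 / 20000 by norm_num) (12 * κ * q * (3 * (C : ℝ) + 2))
  obtain ⟨n4, hn4⟩ := NC_rpow (show (0 : ℝ) < 1 / 2 by norm_num) (2 * κ * (M₀ + 2))
  refine ⟨max (max n1 n2) (max n4 1), ?_⟩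
  intro n hn d hd
  have g1 := hn1 n (by omega)
  have g2 := hn2 n (by omega)
  have g4 := hn4 n (by omega)
  have hn0 : 1 ≤ n := by omega
  have hx1 : (1 : ℝ) ≤ n := by exact_mod_cast hn0
  set x : ℝ := (n : ℝ) with hx
  have hx0 : 0 < x := by linarith
  set y : ℝ := x ^ ((1 : ℝ) / (5000 * (d + 1))) with hy
  have hlog1 : 1 ≤ Real.log x := (le_max_left _ _).trans ((le_max_left _ _).trans g1)
  have hypow : y ^ (d + 1) = x ^ ((1 : ℝ) / 5000) := by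
    rw [hy, ← Real.rpow_natCast, ← Real.rpow_mul hx0.le]
    congr 1
    push_cast
    have : ((d : ℝ) + 1) ≠ 0 := by positivity
    field_simp
  have hxy : Real.log x ≤ y := by
    rw [← hypow] at hd
    exact le_of_pow_le_pow_left₀ (by omega) (by positivity) hd
  have hy1 : 1 ≤ y := hlog1.trans hxy
  have hlp : 4 * (p : ℝ) ^ 2 ≤ y := ((le_max_right _ _).trans ((le_max_left _ _).trans g1)).trans hxy
  have hY : Real.log (4 * C) + 2 + 2 * Real.log 2 < y * Real.log (3 / 2) := by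
    have := ((le_max_right _ _).trans g1).trans hxy
    rw [div_le_iff₀ hl32] at this
    linarith
  set M : ℕ := Nat.sqrt (n / κ) with hM
  have hsq : x ^ ((1 : ℝ) / 2) = Real.sqrt x := (Real.sqrt_eq_rpow x).symm
  rw [hsq] at g4
  have hMb := NC_M (n := n) hκ
  have hMM : Real.sqrt x / (2 * κ) ≤ (M : ℝ) := by
    have h7 : (0 : ℝ) ≤ M₀ := Nat.cast_nonneg _
    have h8 : Real.sqrt x / κ - 1 ≤ (M : ℝ) := hMb
    have h9 : 1 ≤ Real.sqrt x / (2 * κ) := by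
      rw [le_div_iff₀ (by positivity)]
      nlinarith
    have h10 : Real.sqrt x / κ = 2 * (Real.sqrt x / (2 * κ)) := by
      field_simp
    linarith
  have hM2 : (M₀ : ℝ) + 2 ≤ M := by
    refine le_trans ?_ hMM
    rw [le_div_iff₀ (by positivity)]
    linarith
  have hM2' : M₀ + 2 ≤ M := by exact_mod_cast hM2
  have hMκ : κ * M ^ 2 ≤ n := by
    have hs : M * M ≤ n / κ := Nat.sqrt_le _
    rw [pow_two]
    exact (Nat.mul_le_mul_left _ hs).trans (Nat.mul_div_le n _)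
  have hMx : (M : ℝ) ≤ x := by
    have : M ≤ n := by nlinarith
    rw [hx]
    exact_mod_cast this
  set R : ℕ := ⌊(M : ℝ) ^ ((1 : ℝ) / 400)⌋₊ with hR
  have hMr0 : (0 : ℝ) ≤ M := Nat.cast_nonneg _
  have hRM : R ^ 400 ≤ M := by
    have h8 : (R : ℝ) ≤ (M : ℝ) ^ ((1 : ℝ) / 400) := Nat.floor_le (Real.rpow_nonneg hMr0 _)
    have h9 : (R : ℝ) ^ 400 ≤ M := by
      calc (R : ℝ) ^ 400 ≤ ((M : ℝ) ^ ((1 : ℝ) / 400)) ^ 400 := pow_le_pow_left₀ (Nat.cast_nonneg _) h8 400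
        _ = M := by
          rw [← Real.rpow_natCast, ← Real.rpow_mul hMr0]
          norm_num
    exact_mod_cast h9
  have hRx : x ^ ((1 : ℝ) / 800) / (2 * κ) - 1 ≤ R := by
    have h8 : (M : ℝ) ^ ((1 : ℝ) / 400) < R + 1 := Nat.lt_floor_add_one _
    have h9 : x ^ ((1 : ℝ) / 800) / (2 * κ) ≤ (M : ℝ) ^ ((1 : ℝ) / 400) := by
      have h10 : (x ^ ((1 : ℝ) / 800) / (2 * κ)) = ((x ^ ((1 : ℝ) / 800) / (2 * κ)) ^ 400) ^ ((1 : ℝ) / 400) := by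
        rw [← Real.rpow_natCast, ← Real.rpow_mul (by positivity)]
        norm_num
      rw [h10]
      refine Real.rpow_le_rpow (by positivity) ?_ (by norm_num)
      refine le_trans ?_ hMM
      rw [div_pow, ← Real.rpow_natCast, ← Real.rpow_mul hx0.le, show (1 : ℝ) / 800 * ((400 : ℕ) : ℝ) = 1 / 2 by norm_num, hsq]
      have h11 : 2 * (κ : ℝ) ≤ (2 * κ) ^ 400 := le_self_pow₀ (by linarith) (by norm_num)
      exact div_le_div_of_nonneg_left (Real.sqrt_nonneg _) (by positivity) h11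
    linarith
  set w : ℝ := x ^ ((3 : ℝ) / 2500) with hw
  have h800 : x ^ ((1 : ℝ) / 800) = w * x ^ ((1 : ℝ) / 20000) := by
    rw [hw, ← Real.rpow_add hx0]; norm_num
  have hw1 : 1 ≤ w := Real.one_le_rpow hx1 (by norm_num)
  have hC0 : (0 : ℝ) ≤ C := Nat.cast_nonneg _
  have hC1 : (1 : ℝ) ≤ C := by exact_mod_cast hC
  have hbig : 12 * κ * q * (3 * (C : ℝ) + 2) * w ≤ x ^ ((1 : ℝ) / 800) := by
    rw [h800, mul_comm w]
    exact mul_le_mul_of_nonneg_right g2 (by linarith)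
  have hbig2 : 6 * q * (3 * (C : ℝ) + 2) * w - 1 ≤ R := by
    refine le_trans ?_ hRx
    have h1 : 6 * q * (3 * (C : ℝ) + 2) * w ≤ x ^ ((1 : ℝ) / 800) / (2 * κ) := by
      rw [le_div_iff₀ (by positivity)]
      refine le_trans (le_of_eq ?_) hbig
      ring
    linarith
  have hw5 : 30 ≤ 6 * q * (3 * (C : ℝ) + 2) * w := by
    have h1 : (5 : ℝ) ≤ 3 * C + 2 := by linarith
    have h2 : (1 : ℝ) * 5 ≤ q * (3 * C + 2) := mul_le_mul hq' h1 (by norm_num) (by linarith)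
    have h3 : (5 : ℝ) * 1 ≤ (q * (3 * C + 2)) * w := mul_le_mul (by linarith) hw1 (by norm_num) (by nlinarith)
    nlinarith
  set L : ℕ := (R - 4) / 2 with hL
  have hR29 : 29 ≤ R := by
    have : (29 : ℝ) ≤ R := by linarith
    exact_mod_cast this
  have hLR : 2 * L + 4 ≤ R := by omega
  have hLr : (R : ℝ) ≤ 2 * L + 5 := by
    have : R ≤ 2 * L + 5 := by omega
    exact_mod_cast this
  have hL8 : 8 ≤ L := by omega
  have hL400 : (2 * L + 4) ^ 400 ≤ M := (Nat.pow_le_pow_left hLR 400).trans hRM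
  set t : ℕ := ⌈y ^ 2⌉₊ with ht
  have ht1 : (t : ℝ) ≤ y ^ 2 + 1 := (Nat.ceil_lt_add_one (by positivity)).le
  have ht2 : y ^ 2 ≤ t := Nat.le_ceil _
  have ht3 : 1 ≤ t := by
    have : (1 : ℝ) ≤ t := by nlinarith
    exact_mod_cast this
  set z : ℝ := x ^ ((1 : ℝ) / 5000) with hz
  have hz1 : 1 ≤ z := Real.one_le_rpow hx1 (by norm_num)
  set P : ℕ := ⌊z⌋₊ with hP
  have hPz : (P : ℝ) ≤ z := Nat.floor_le (by linarith)
  have hz6 : z ^ 6 ≤ w := by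
    rw [hz, hw, ← Real.rpow_natCast, ← Real.rpow_mul hx0.le]
    exact Real.rpow_le_rpow_of_exponent_le hx1 (by norm_num)
  have hLq : 3 * (C : ℝ) * w ≤ ((L / (3 * q) : ℕ) : ℝ) := NC_L hq hq' hw1 hbig2 hLr
  have hlen : C * (P + P + 1) * (p * t) ^ (d + 2) ≤ L / (3 * q) := by
    have h := NS_lens hp hx1 hy hy1 hlp ht1
    have h1 : (C : ℝ) * (P + P + 1) ≤ (3 * C) * z := by
      calc (C : ℝ) * (P + P + 1) ≤ C * (z + z + z) := by gcongr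
        _ = (3 * C) * z := by ring
    have h' : (C : ℝ) * (P + P + 1) * (p * t) ^ (d + 2) ≤ ((L / (3 * q) : ℕ) : ℝ) := by
      calc (C : ℝ) * (P + P + 1) * (p * t) ^ (d + 2) ≤ ((3 * C) * z) * z ^ 5 :=
            mul_le_mul h1 h (by positivity) (by positivity)
        _ = (3 * C) * z ^ 6 := by ring
        _ ≤ (3 * C) * w := mul_le_mul_of_nonneg_left hz6 (by positivity)
        _ ≤ _ := hLq
    exact_mod_cast h'
  set N : ℕ := ⌈(2 : ℝ) ^ y⌉₊ with hN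
  have hN1 : (N : ℝ) ≤ 2 ^ y + 1 := (Nat.ceil_lt_add_one (by positivity)).le
  have hPN : P ≤ N := by
    have h1 : z ≤ (2 : ℝ) ^ y := by
      have h2 : Real.log z ≤ Real.log ((2 : ℝ) ^ y) := by
        rw [hz, Real.log_rpow hx0, Real.log_rpow (by norm_num)]
        have h3 : (1 : ℝ) / 2 ≤ Real.log 2 := by linarith [Real.log_two_gt_d9]
        have h4 : y * (1 / 2) ≤ y * Real.log 2 := mul_le_mul_of_nonneg_left h3 (by linarith)
        have h5 : (1 : ℝ) / 5000 * Real.log x ≤ (1 / 2) * Real.log x :=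
          mul_le_mul_of_nonneg_right (by norm_num) (by linarith)
        linarith
      exact (Real.log_le_log_iff (by linarith) (by positivity)).mp h2
    have h2 : (P : ℝ) ≤ N := hPz.trans (h1.trans (Nat.le_ceil _))
    exact_mod_cast h2
  exact ⟨M, L, t, N, by omega, by omega, hMκ, hL8, hL400, ht3, hlen, hPN, Nat.le_ceil _,
    NS_expo hC hx1 hy1 hxy hY hN1 hMx ht2⟩

end ACpFrege
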