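import Pool.Agent.H75.PQ.MainS
import Pool.Agent.H75.PQ.NumC
import Pool.Agent.H16.CQ.Main

/-!
helper75 (project MP_28250c_PQ): the final assembly for the counting principles (adapted from H16/CQ/Final.lean of helper16).
-/

set_option autoImplicit false

namespace ACpFrege

open ACpB

/-- The final statement for the counting principles with pigeonhole axioms, rank axioms and all sound rules with few variables. -/
def StatementCR : Prop :=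
  ∀ p q : ℕ, p.Prime → 1 ≤ q → ∃ N₀ : ℕ, ∀ N ≥ N₀, p ^ q.factorization p ∣ N → ¬ q ∣ N → ∀ S : List (Rule p),
    (∀ R ∈ S, R.Sound ∧ R.vars ≤ ⌊(N : ℝ) ^ ((1 : ℝ) / 5000)⌋₊) → ∀ d : ℕ,
    Real.log N ^ (d + 1) ≤ (N : ℝ) ^ ((1 : ℝ) / 5000) →
    ∀ π : List (Fm p), RefutesR S d ⌊(N : ℝ) ^ ((1 : ℝ) / 5000)⌋₊ (CountCNF q N) π →
      (2 : ℝ) ^ ((N : ℝ) ^ ((1 : ℝ) / (5000 * (d + 1)))) ≤ psize π

theorem count_lowR {p q r s : ℕ} [Fact p.Prime] (hq : 3 ≤ q) (hr : 2 ≤ r) (hs : 1 ≤ s) (hrq : r ∣ q) (h : FamS p q) :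
    ∃ N₀ : ℕ, ∀ n ≥ N₀, ∀ N : ℕ, n = s * N → ¬ r ∣ N → ∀ S : List (Rule p),
      (∀ R ∈ S, R.Sound ∧ R.vars ≤ ⌊(n : ℝ) ^ ((1 : ℝ) / 5000)⌋₊) → ∀ d : ℕ,
      Real.log n ^ (d + 1) ≤ (n : ℝ) ^ ((1 : ℝ) / 5000) →
      ∀ π : List (Fm p), RefutesR S d ⌊(n : ℝ) ^ ((1 : ℝ) / 5000)⌋₊ (CountCNF (s * r) n) π →
        (2 : ℝ) ^ ((n : ℝ) ^ ((1 : ℝ) / (5000 * (d + 1)))) ≤ psize π := by
  obtain ⟨C, hC⟩ := PPh.Sd.outSRW p 4
  obtain ⟨M₀, hM₀⟩ := h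
  have hp := (Fact.out : p.Prime).one_lt.le
  have hκ : 1 ≤ s * (7 * r ^ 2) := Nat.mul_pos (by omega) (Nat.mul_pos (by norm_num) (Nat.pow_pos (by omega)))
  obtain ⟨N₀, hN₀⟩ := num_exC p q (s * (7 * r ^ 2)) (C + 1) M₀ hp (by omega) hκ (by omega)
  refine ⟨N₀, ?_⟩
  intro n hn N hnN hrN S hS d hd π hπ
  obtain ⟨M, L, t, Q, k1, k2, k3, k4, k5, k6, k7, k10, k9, k8⟩ := hN₀ n hn d hd
  obtain ⟨P, hP⟩ : ∃ P, P = ⌊(n : ℝ) ^ ((1 : ℝ) / 5000)⌋₊ := ⟨_, rfl⟩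
  rw [← hP] at hS hπ k7 k10
  have k3' : 7 * r ^ 2 * M ^ 2 ≤ N := by
    have h1 : s * (7 * r ^ 2 * M ^ 2) ≤ s * N := by
      rw [← hnN]
      refine le_trans (le_of_eq ?_) k3
      ring
    exact Nat.le_of_mul_le_mul_left h1 hs
  have : NeZero M := ⟨by omega⟩
  have : NeZero q := ⟨by omega⟩
  have : NeZero r := ⟨by omega⟩
  have : NeZero s := ⟨by omega⟩
  have hslow := hM₀ M k1 L k4 k5
  -- the decomposition of N
  set c := N % r with hc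
  have hc0 : 1 ≤ c := by
    rcases Nat.eq_zero_or_pos c with h0 | h0
    · exact absurd (Nat.dvd_of_mod_eq_zero h0) hrN
    · exact h0
  have hcr : c < r := Nat.mod_lt _ (by omega)
  set T := (M * M + M * (M + 1)) * (2 * r) + 1 with hT
  have hcT : c * T ≤ N := by
    refine le_trans ?_ k3'
    have h1 : T ≤ 7 * r * M ^ 2 := by
      have h2 : M ≤ M ^ 2 := Nat.le_self_pow (by norm_num) M
      have h3 : 1 ≤ r * M ^ 2 := Nat.mul_pos (by omega) (by positivity)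
      have h4 : r * M ≤ r * M ^ 2 := Nat.mul_le_mul_left r h2
      calc T = 4 * (r * M ^ 2) + 2 * (r * M) + 1 := by rw [hT]; ring
        _ ≤ 7 * (r * M ^ 2) := by omega
        _ = 7 * r * M ^ 2 := by ring
    calc c * T ≤ r * (7 * r * M ^ 2) := Nat.mul_le_mul hcr.le h1
      _ = 7 * r ^ 2 * M ^ 2 := by ring
  have hdvd : r ∣ N - c * T := by
    have h1 : N - c * T = (N - c) - c * ((M * M + M * (M + 1)) * 2) * r := by
      have h2 : c * T = c + c * ((M * M + M * (M + 1)) * 2) * r := by rw [hT]; ring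
      rw [h2]; omega
    rw [h1]
    exact Nat.dvd_sub (Nat.dvd_sub_mod N) (Dvd.intro_left _ rfl)
  obtain ⟨k, hk⟩ := hdvd
  have hNk : c * T + k * r = N := by
    rw [mul_comm k r, ← hk]; omega
  obtain ⟨σ, hσ⟩ := as_red (M := M) (q := q) (r := r) (c := c) (k := k) (N := N) (s := s) hrq hNk
  have hW := hσ.slow (w := max q 3) (by omega) (by omega) (hslow.toW ASM_lenq)
  rw [← hnN] at hW
  have h1 := hC S P (fun R hR => (hS R hR).1) (fun R hR => (hS R hR).2) d (2 ^ n) (CountCNF (s * r) n) (L / (3 * q)) (M ^ 2) Q t P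
    hW k6 (le_trans (Nat.mul_le_mul_right _ (Nat.mul_le_mul_right _ (Nat.le_succ C))) k7) k10
    (lt_of_le_of_lt (Nat.mul_le_mul_right _ (Nat.mul_le_mul_right _ (Nat.mul_le_mul_right _ (Nat.le_succ C)))) k8) π hπ
  exact k9.trans (by exact_mod_cast h1.le)

theorem count_allR {p : ℕ} [hp : Fact p.Prime] (h : ∀ Q : ℕ, 3 ≤ Q → Q.Coprime p → FamS p Q) (q : ℕ) (hq : 1 ≤ q) :
    ∃ N₀ : ℕ, ∀ N ≥ N₀, p ^ q.factorization p ∣ N → ¬ q ∣ N → ∀ S : List (Rule p),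
      (∀ R ∈ S, R.Sound ∧ R.vars ≤ ⌊(N : ℝ) ^ ((1 : ℝ) / 5000)⌋₊) → ∀ d : ℕ,
      Real.log N ^ (d + 1) ≤ (N : ℝ) ^ ((1 : ℝ) / 5000) →
      ∀ π : List (Fm p), RefutesR S d ⌊(N : ℝ) ^ ((1 : ℝ) / 5000)⌋₊ (CountCNF q N) π →
        (2 : ℝ) ^ ((N : ℝ) ^ ((1 : ℝ) / (5000 * (d + 1)))) ≤ psize π := by
  -- the decomposition of q
  set s := p ^ q.factorization p with hs
  set r := q / s with hr
  have hsr : s * r = q := Nat.ordProj_mul_ordCompl_eq_self q p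
  have hs1 : 1 ≤ s := Nat.one_le_pow _ _ hp.out.pos
  have hcop : p.Coprime r := Nat.coprime_ordCompl hp.out (by omega)
  have hr0 : r ≠ 0 := by
    intro h0
    rw [h0, mul_zero] at hsr
    omega
  rcases Nat.lt_or_ge r 2 with hr1 | hr2
  · -- q is a power of p: no N
    have hr1' : r = 1 := le_antisymm (Nat.lt_succ_iff.1 hr1) (Nat.pos_of_ne_zero hr0)
    refine ⟨0, ?_⟩
    intro N _ h1 h2
    rw [hr1', mul_one] at hsr
    rw [hsr] at h1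
    exact absurd h1 h2
  · have hex : ∃ N₀ : ℕ, ∀ n ≥ N₀, ∀ N : ℕ, n = s * N → ¬ r ∣ N → ∀ S : List (Rule p),
        (∀ R ∈ S, R.Sound ∧ R.vars ≤ ⌊(n : ℝ) ^ ((1 : ℝ) / 5000)⌋₊) → ∀ d : ℕ,
        Real.log n ^ (d + 1) ≤ (n : ℝ) ^ ((1 : ℝ) / 5000) →
        ∀ π : List (Fm p), RefutesR S d ⌊(n : ℝ) ^ ((1 : ℝ) / 5000)⌋₊ (CountCNF (s * r) n) π →
          (2 : ℝ) ^ ((n : ℝ) ^ ((1 : ℝ) / (5000 * (d + 1)))) ≤ psize π := by
      rcases Nat.lt_or_ge r 3 with hr3 | hr3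
      · have hr2' : r = 2 := le_antisymm (Nat.lt_succ_iff.1 hr3) hr2
        have h4 : Nat.Coprime 4 p := by
          have h5 : Nat.Coprime 2 p := by rw [hr2'] at hcop; exact hcop.symm
          exact Nat.Coprime.pow_left 2 h5
        exact count_lowR (q := 4) (by omega) hr2 hs1 (by rw [hr2']; decide) (h 4 (by omega) h4)
      · exact count_lowR (q := r) hr3 hr2 hs1 dvd_rfl (h r hr3 hcop.symm)
    obtain ⟨N₀, hN₀⟩ := hex
    refine ⟨N₀, ?_⟩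
    intro N hN h1 h2 S hS d hd π hπ
    obtain ⟨N', hN'⟩ := h1
    have h3 : ¬ r ∣ N' := by
      intro h4
      apply h2
      rw [← hsr, hN']
      exact Nat.mul_dvd_mul_left s h4
    exact hN₀ N hN N' hN' h3 S hS d hd π (by rw [hsr]; exact hπ)

theorem count_mainR : StatementCR := by
  intro p q hp hq
  have : Fact p.Prime := ⟨hp⟩
  exact count_allR (fun Q hQ hc => famS p Q hQ hc) q hq

end ACpFrege
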