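import Pool.Agent.H75.PQ.FinS
import Pool.Agent.H42.SH.Upper
import Pool.Agent.H42.SH.HierA
import Pool.Agent.H42.SH.HierB

/-!
helper75 (project MP_28250c_PQ): the strict depth hierarchy for refutations with axioms (adapted from H42/SH/HierA.lean and H42/SH/HierB.lean).
-/

set_option autoImplicit false

namespace ACpHier

open ACpFrege

/-- The strict depth hierarchy, all sizes, with axioms. -/
def HierAR : Prop :=
  ∃ (c : ℕ) (F : ℕ → CNF), Family c F ∧ ∀ p : ℕ, p.Prime → ∃ S₀ : List (Rule p), (∀ R ∈ S₀, R.Sound) ∧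
    (∀ h : ℕ, 1 ≤ h → ∃ n₀ : ℕ, ∀ n ≥ n₀, ∃ π : List (Fm p), Refutes S₀ (2 * h + 8) (F n) π ∧ (∀ A ∈ π, Free A) ∧
      (psize π : ℝ) ≤ (2 : ℝ) ^ ((n : ℝ) ^ ((2 : ℝ) / h))) ∧
    ∀ d K : ℕ, 1 ≤ K → ∃ n₀ : ℕ, ∀ n ≥ n₀, ∃ π : List (Fm p), Refutes S₀ (20010 * K * (d + 1)) (F n) π ∧ (∀ A ∈ π, Free A) ∧
      ∀ S : List (Rule p), (∀ R ∈ S, R.Sound ∧ R.vars ≤ ⌊(n : ℝ) ^ ((1 : ℝ) / 5000)⌋₊) → ∀ π' : List (Fm p),
        RefutesR S d ⌊(n : ℝ) ^ ((1 : ℝ) / 5000)⌋₊ (F n) π' → (2 : ℝ) ^ (Real.logb 2 (psize π) ^ K) ≤ psize π'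

/-- The strict depth hierarchy, polynomial size, with axioms. -/
def HierBR : Prop :=
  ∃ c : ℕ, ∀ d K : ℕ, ∃ (D : ℕ) (G : ℕ → CNF), Family c G ∧ ∀ p : ℕ, p.Prime → ∃ S₀ : List (Rule p), (∀ R ∈ S₀, R.Sound) ∧
    ∃ n₀ : ℕ, ∀ n ≥ n₀, (∃ π : List (Fm p), Refutes S₀ D (G n) π ∧ (∀ A ∈ π, Free A) ∧ psize π ≤ n) ∧
      ∀ (S : List (Rule p)) (P : ℕ), (∀ R ∈ S, R.Sound) → (∀ R ∈ S, (R.vars : ℝ) ≤ Real.logb 2 n ^ K) →
        (P : ℝ) ≤ Real.logb 2 n ^ K → ∀ π' : List (Fm p), RefutesR S d P (G n) π' → (2 : ℝ) ^ (Real.logb 2 n ^ K) ≤ psize π'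

private theorem FH_gap {P P' r m : ℕ} (h : P ≤ P') (hr : (P + 1) * r ≤ P * m) : (P' + 1) * r ≤ P' * m := by
  obtain ⟨k, rfl⟩ := Nat.exists_eq_add_of_le h
  have hrm : r ≤ m := by
    by_contra hlt
    rw [not_le] at hlt
    have h1 : P * m ≤ P * r := Nat.mul_le_mul_left _ hlt.le
    have h2 : (P + 1) * r = P * r + r := by ring
    omega
  have h1 : k * r ≤ k * m := Nat.mul_le_mul_left _ hrm
  have h2 : (P + k + 1) * r = (P + 1) * r + k * r := by ring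
  have h3 : (P + k) * m = P * m + k * m := by ring
  omega

/-- More axioms with a larger parameter. -/
theorem refutesR_P {p : ℕ} {S : List (Rule p)} {d P P' : ℕ} {F : CNF} {π : List (Fm p)} (h : P ≤ P') (hπ : RefutesR S d P F π) :
    RefutesR S d P' F π := by
  refine ⟨hπ.1, fun i hi => ?_, hπ.2.2⟩
  rcases hπ.2.1 i hi with h' | ⟨m, n, ψ, h1, h2, h3⟩ | ⟨m, r, a, b, h1, h2, h3⟩
  · exact Or.inl h'
  · exact Or.inr (Or.inl ⟨m, n, ψ, h1, FH_gap h h2, h3⟩)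
  · exact Or.inr (Or.inr ⟨m, r, a, b, h1, FH_gap h h2, h3⟩)

private theorem FH_mono {p : ℕ} {S : List (Rule p)} {d d' : ℕ} {F : CNF} {π : List (Fm p)} (hd : d ≤ d')
    (h : Refutes S d F π) : Refutes S d' F π :=
  ⟨fun A hA => (h.1 A hA).trans hd, h.2⟩

theorem hierAR (hL : LowerR) (hU : UpperFF) : HierAR := by
  refine ⟨30, FF, FF_ok, fun p hp => ⟨S0 p, S0_sound p, hU p, ?_⟩⟩
  intro d K hK
  obtain ⟨n1, h1⟩ := hL p hp
  obtain ⟨n2, h2⟩ := ev_depth d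
  have hpos : 1 ≤ K * (d + 1) := Nat.mul_pos hK (Nat.succ_pos d)
  obtain ⟨n3, h3⟩ := hU p (10000 * K * (d + 1)) (by rw [mul_assoc]; omega)
  refine ⟨max n1 (max n2 n3), fun n hn => ?_⟩
  have a1 : n1 ≤ n := (le_max_left _ _).trans hn
  have a2 : n2 ≤ n := ((le_max_left _ _).trans (le_max_right _ _)).trans hn
  have a3 : n3 ≤ n := ((le_max_right _ _).trans (le_max_right _ _)).trans hn
  obtain ⟨π, hπ, hfr, hs⟩ := h3 n a3
  refine ⟨π, FH_mono (by rw [mul_assoc, mul_assoc]; omega) hπ, hfr, fun S hS π' hπ' =>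
    le_trans ?_ (h1 n a1 S hS d (h2 n a2) π' hπ')⟩
  apply Real.rpow_le_rpow_of_exponent_le (by norm_num)
  have hs1 : (1 : ℝ) ≤ psize π := by exact_mod_cast psize_pos hπ
  have l0 : 0 ≤ Real.logb 2 (psize π) := Real.logb_nonneg (by norm_num) hs1
  have l1 : Real.logb 2 (psize π) ≤ (n : ℝ) ^ ((2 : ℝ) / ((10000 * K * (d + 1) : ℕ) : ℝ)) := by
    rw [Real.logb_le_iff_le_rpow (by norm_num) (by linarith)]
    exact hs
  have hK0 : (K : ℝ) ≠ 0 := by
    have : (0 : ℝ) < K := by exact_mod_cast hK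
    exact this.ne'
  have hd0 : ((d : ℝ) + 1) ≠ 0 := by positivity
  calc Real.logb 2 (psize π) ^ K ≤ ((n : ℝ) ^ ((2 : ℝ) / ((10000 * K * (d + 1) : ℕ) : ℝ))) ^ K :=
        pow_le_pow_left₀ l0 l1 K
    _ = (n : ℝ) ^ ((2 : ℝ) / ((10000 * K * (d + 1) : ℕ) : ℝ) * K) := by
        rw [← Real.rpow_natCast, ← Real.rpow_mul (Nat.cast_nonneg n)]
    _ = (n : ℝ) ^ ((1 : ℝ) / (5000 * (d + 1))) := by
        congr 1
        push_cast
        field_simp
        norm_num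

private theorem FH_log (d : ℕ) : ∃ X₀ : ℕ, ∀ x : ℕ, X₀ ≤ x →
    Real.log x ^ (d + 1) ≤ (x : ℝ) ^ ((1 : ℝ) / 5000) := by
  obtain ⟨n₀, h⟩ := ev_depth d
  exact ⟨n₀, h⟩

private theorem FH_ev (m : ℕ) (hm : 1 ≤ m) (B : ℕ) : ∀ᶠ n : ℕ in Filter.atTop,
    (2 : ℝ) ≤ Real.logb 2 n ∧ Real.logb 2 n ^ m ≤ n ∧ B ≤ min n ⌊Real.logb 2 n ^ m⌋₊ := by
  have t1 : Filter.Tendsto (fun n : ℕ => Real.logb 2 (n : ℝ)) Filter.atTop Filter.atTop :=
    (Real.tendsto_logb_atTop one_lt_two).comp tendsto_natCast_atTop_atTop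
  have e1 := t1.eventually_ge_atTop (2 : ℝ)
  have e2 := t1.eventually_ge_atTop (B : ℝ)
  have hl2 : (0 : ℝ) < Real.log 2 := Real.log_pos one_lt_two
  have h3 : ∀ᶠ x : ℝ in Filter.atTop, ‖Real.log x ^ m‖ ≤ Real.log 2 ^ m * ‖id x‖ :=
    (Real.isLittleO_pow_log_id_atTop (n := m)).bound (by positivity)
  have e3 := tendsto_natCast_atTop_atTop.eventually h3
  filter_upwards [e1, e2, e3, Filter.eventually_ge_atTop (max B 1)] with n a1 a2 a3 a4
  have hn1 : (1 : ℝ) ≤ n := by exact_mod_cast (le_max_right _ _).trans a4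
  have hl : 0 ≤ Real.log n := Real.log_nonneg hn1
  refine ⟨a1, ?_, ?_⟩
  · rw [id, Real.norm_of_nonneg (pow_nonneg hl m), Real.norm_of_nonneg (zero_le_one.trans hn1)] at a3
    unfold Real.logb
    rw [div_pow, div_le_iff₀ (by positivity)]
    linarith
  · refine le_min ((le_max_left _ _).trans a4) (Nat.le_floor ?_)
    exact a2.trans (le_self_pow₀ (by linarith) (by omega))

theorem hierBR (hL : LowerR) (hU : UpperFF) : HierBR := by
  refine ⟨30, fun d K => ?_⟩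
  obtain ⟨m, hm⟩ : ∃ m, m = 10000 * (d + 1) * (K + 1) := ⟨_, rfl⟩
  have hm1 : 1 ≤ m := by
    rw [hm]
    exact Nat.one_le_iff_ne_zero.2 (by positivity)
  have hmK : 5000 * (d + 1) * K + 1 ≤ m := by
    rw [hm]
    nlinarith [Nat.zero_le (d * K)]
  refine ⟨2 * (2 * m) + 8, fun n => FF (min n ⌊Real.logb 2 n ^ m⌋₊), ?_, ?_⟩
  · intro n
    have h1 := FF_ok (min n ⌊Real.logb 2 n ^ m⌋₊)
    have h2 : min n ⌊Real.logb 2 n ^ m⌋₊ ≤ n := min_le_left _ _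
    refine ⟨h1.1, h1.2.1.trans (Nat.pow_le_pow_left (by omega) 30), fun C hC => ?_⟩
    exact ⟨(h1.2.2 C hC).1, fun l hl => lt_of_lt_of_le ((h1.2.2 C hC).2 l hl) h2⟩
  · intro p hp
    refine ⟨S0 p, S0_sound p, ?_⟩
    obtain ⟨N, hN⟩ := hU p (2 * m) (by omega)
    obtain ⟨N', hN'⟩ := hL p hp
    obtain ⟨X₀, hX₀⟩ := FH_log d
    obtain ⟨n₀, hn₀⟩ := Filter.eventually_atTop.1 (FH_ev m hm1 (max N (max N' X₀)))
    refine ⟨max n₀ 1, fun n hn => ?_⟩
    obtain ⟨a1, a2, a3⟩ := hn₀ n ((le_max_left _ _).trans hn)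
    have hl0 : 0 ≤ Real.logb 2 n := le_trans (by norm_num) a1
    have hl1 : 1 ≤ Real.logb 2 n := le_trans (by norm_num) a1
    constructor
    · obtain ⟨π, h1, h2, h3⟩ := hN _ ((le_max_left _ _).trans a3)
      refine ⟨π, h1, h2, ?_⟩
      have hn1 : (0 : ℝ) < n := by
        exact_mod_cast lt_of_lt_of_le Nat.one_pos ((le_max_right _ _).trans hn)
      have hx : ((min n ⌊Real.logb 2 n ^ m⌋₊ : ℕ) : ℝ) ≤ Real.logb 2 n ^ m :=
        le_trans (by exact_mod_cast min_le_right _ _) (Nat.floor_le (pow_nonneg hl0 m))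
      have h4 : ((min n ⌊Real.logb 2 n ^ m⌋₊ : ℕ) : ℝ) ^ ((2 : ℝ) / ((2 * m : ℕ) : ℝ)) ≤ Real.logb 2 n := by
        refine (Real.rpow_le_rpow (Nat.cast_nonneg _) hx (by positivity)).trans (le_of_eq ?_)
        rw [← Real.rpow_natCast, ← Real.rpow_mul hl0]
        have hm0 : (m : ℝ) ≠ 0 := by
          have : m ≠ 0 := by omega
          exact_mod_cast this
        have : (m : ℝ) * ((2 : ℝ) / ((2 * m : ℕ) : ℝ)) = 1 := by
          push_cast
          field_simp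
        rw [this, Real.rpow_one]
      have h5 : (psize π : ℝ) ≤ n := by
        refine h3.trans ((Real.rpow_le_rpow_of_exponent_le one_le_two h4).trans (le_of_eq ?_))
        exact Real.rpow_logb zero_lt_two (by norm_num) hn1
      exact_mod_cast h5
    · intro S P hS hvS hP π' hπ'
      have hmin : min n ⌊Real.logb 2 n ^ m⌋₊ = ⌊Real.logb 2 n ^ m⌋₊ := by
        refine min_eq_right ?_
        have := (Nat.floor_le (pow_nonneg hl0 m)).trans a2
        exact_mod_cast this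
      have h2 : Real.logb 2 n ^ (5000 * (d + 1) * K) ≤ ((min n ⌊Real.logb 2 n ^ m⌋₊ : ℕ) : ℝ) := by
        rw [hmin]
        have h3 : Real.logb 2 n ^ m < (⌊Real.logb 2 n ^ m⌋₊ : ℝ) + 1 := Nat.lt_floor_add_one _
        have h4 : Real.logb 2 n ^ (5000 * (d + 1) * K + 1) ≤ Real.logb 2 n ^ m := pow_le_pow_right₀ hl1 hmK
        have h5 : 1 ≤ Real.logb 2 n ^ (5000 * (d + 1) * K) := one_le_pow₀ hl1
        rw [pow_succ] at h4
        nlinarith
      obtain ⟨x, hx⟩ : ∃ x : ℕ, x = min n ⌊Real.logb 2 n ^ m⌋₊ := ⟨_, rfl⟩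
      rw [← hx] at h2 a3
      have hd : (0 : ℝ) < 5000 * ((d : ℝ) + 1) := by positivity
      have hKd : Real.logb 2 n ^ K ≤ (x : ℝ) ^ ((1 : ℝ) / (5000 * (d + 1))) := by
        calc Real.logb 2 n ^ K = (Real.logb 2 n ^ (5000 * (d + 1) * K)) ^ ((1 : ℝ) / (5000 * (d + 1))) := by
              rw [← Real.rpow_natCast _ (5000 * (d + 1) * K), ← Real.rpow_mul hl0, ← Real.rpow_natCast _ K]
              congr 1
              push_cast
              field_simp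
          _ ≤ _ := Real.rpow_le_rpow (pow_nonneg hl0 _) h2 (by positivity)
      have hx1 : (1 : ℝ) ≤ x := by
        have h3 : (1 : ℝ) ≤ Real.logb 2 n ^ (5000 * (d + 1) * K) := one_le_pow₀ hl1
        exact h3.trans h2
      have hK5 : Real.logb 2 n ^ K ≤ (x : ℝ) ^ ((1 : ℝ) / 5000) := by
        refine hKd.trans (Real.rpow_le_rpow_of_exponent_le hx1 ?_)
        exact div_le_div_of_nonneg_left (by norm_num) (by norm_num) (by
          have : (0 : ℝ) ≤ d := Nat.cast_nonneg d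
          linarith)
      have hπ'' : RefutesR S d ⌊(x : ℝ) ^ ((1 : ℝ) / 5000)⌋₊ (FF x) π' := by
        rw [hx] at hK5 ⊢
        exact refutesR_P (Nat.le_floor (hP.trans hK5)) hπ'
      have h1 := hN' x ((le_max_left _ _).trans ((le_max_right _ _).trans a3)) S
        (fun R hR => ⟨hS R hR, Nat.le_floor ((hvS R hR).trans hK5)⟩) d
        (hX₀ x ((le_max_right _ _).trans ((le_max_right _ _).trans a3))) π' hπ''
      exact le_trans (Real.rpow_le_rpow_of_exponent_le one_le_two hKd) h1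

theorem mainHR : HierAR ∧ HierBR := ⟨hierAR PPh.lowerR upperFF, hierBR PPh.lowerR upperFF⟩

end ACpHier
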