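import Pool.Agent.H75.PQ.MainS
import Pool.Agent.H75.PQ.NumS
import Pool.Agent.H65.AF.Main

/-!
helper75 (project MP_28250c_PQ): the final assembly for the Anonymous Seat formulas (adapted from H65/AF/Assemble.lean).
-/

set_option autoImplicit false

namespace ACpFrege

open ACpB

/-- The final statement with pigeonhole axioms, rank axioms and all sound rules with few variables. -/
def StatementR : Prop :=
  ∃ (F : ℕ → CNF) (c : ℕ), (∀ n, (F n).Unsat ∧ (F n).size ≤ (n + 2) ^ c ∧ ∀ C ∈ F n, C.length ≤ 8 ∧ ∀ l ∈ C, l.1 < n) ∧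
    ∀ p : ℕ, p.Prime → ∃ n₀ : ℕ, ∀ n ≥ n₀, ∀ S : List (Rule p),
      (∀ R ∈ S, R.Sound ∧ R.vars ≤ ⌊(n : ℝ) ^ ((1 : ℝ) / 5000)⌋₊) → ∀ d : ℕ,
      Real.log n ^ (d + 1) ≤ (n : ℝ) ^ ((1 : ℝ) / 5000) →
      ∀ π : List (Fm p), RefutesR S d ⌊(n : ℝ) ^ ((1 : ℝ) / 5000)⌋₊ (F n) π →
        (2 : ℝ) ^ ((n : ℝ) ^ ((1 : ℝ) / (5000 * (d + 1)))) ≤ psize π

/-- Output of the proof complexity part. -/
def OutSR (p : ℕ) : Prop :=
  ∀ w : ℕ, ∃ C : ℕ, ∀ (S : List (Rule p)) (v : ℕ), (∀ R ∈ S, R.Sound) → (∀ R ∈ S, R.vars ≤ v) →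
    ∀ (d n : ℕ) (F : CNF) (L A N t P : ℕ), (∀ C ∈ F, C.length ≤ w) → HasSlow p n F L A →
    1 ≤ t → C * (P + v + 1) * (p * t) ^ (d + 2) ≤ L → v ≤ N → C * N ^ 2 * A * 2 ^ t < 3 ^ t →
    ∀ π : List (Fm p), RefutesR S d P F π → N < psize π

/-- The lower bounds for the CNFs `FF n`. -/
def LowerR : Prop :=
  ∀ p : ℕ, p.Prime → ∃ n₀ : ℕ, ∀ n ≥ n₀, ∀ S : List (Rule p),
    (∀ R ∈ S, R.Sound ∧ R.vars ≤ ⌊(n : ℝ) ^ ((1 : ℝ) / 5000)⌋₊) → ∀ d : ℕ,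
    Real.log n ^ (d + 1) ≤ (n : ℝ) ^ ((1 : ℝ) / 5000) →
    ∀ π : List (Fm p), RefutesR S d ⌊(n : ℝ) ^ ((1 : ℝ) / 5000)⌋₊ (FF n) π →
      (2 : ℝ) ^ ((n : ℝ) ^ ((1 : ℝ) / (5000 * (d + 1)))) ≤ psize π

theorem assembleR (hA : ∀ (p : ℕ) [Fact p.Prime], OutSR p) (hB : OutBW) (h3 : PartW 3) (h4 : PartW 4) : LowerR := by
  intro p hp
  have : Fact p.Prime := ⟨hp⟩
  obtain ⟨C0, hC0⟩ := hA p 8
  obtain ⟨M3, hM3⟩ := h3
  obtain ⟨M4, hM4⟩ := h4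
  obtain ⟨n₀, hn₀⟩ := num_exS p (C0 + 1) (max M3 M4) hp.one_lt.le (by omega)
  refine ⟨n₀, fun n hn S hS d hd π hπ => ?_⟩
  obtain ⟨k1, k2, R, L, t, N, k3, k4, k5, k6, k10, k7, k8⟩ := hn₀ n hn d hd
  have hFF : FF n = combC (nv (Nat.sqrt (n / 100)) 3) (ASM (Nat.sqrt (n / 100)) 3) (ASM (Nat.sqrt (n / 100)) 4) := by
    unfold FF
    rw [if_pos k2]
  have hs : HasSlow p (nv (Nat.sqrt (n / 100)) 3 + nv (Nat.sqrt (n / 100)) 4) (FF n) L (Nat.sqrt (n / 100) ^ 2) := by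
    rw [hFF]
    by_cases hp3 : p = 3
    · have hco : Nat.Coprime 4 p := by subst hp3; norm_num
      refine slow_combR (hB p 4 (Or.inr rfl) hco _ k2 R L k4 ?_) ASM_vars
      exact hM4 _ (le_trans (le_max_right _ _) k1) R k3
    · have hco : Nat.Coprime 3 p := by
        rw [Nat.coprime_primes Nat.prime_three hp]
        exact fun h => hp3 h.symm
      refine slow_combL (hB p 3 (Or.inl rfl) hco _ k2 R L k4 ?_) ASM_vars
      exact hM3 _ (le_trans (le_max_left _ _) k1) R k3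
  have hv : ∀ D ∈ FF n, D.length ≤ 8 := fun D hD => ((FF_ok n).2.2 D hD).1
  have hfin := hC0 S _ (fun R hR => (hS R hR).1) (fun R hR => (hS R hR).2) d _ (FF n) L (Nat.sqrt (n / 100) ^ 2) N t
    ⌊(n : ℝ) ^ ((1 : ℝ) / 5000)⌋₊ hv hs k5
    (le_trans (Nat.mul_le_mul_right _ (Nat.mul_le_mul_right _ (Nat.le_succ C0))) k6) k10
    (lt_of_le_of_lt (Nat.mul_le_mul_right _ (Nat.mul_le_mul_right _ (Nat.mul_le_mul_right _ (Nat.le_succ C0)))) k8) π hπ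
  exact k7.trans (by exact_mod_cast hfin.le)

end ACpFrege

namespace PPh

open ACpFrege ACpB

theorem lowerR : LowerR := assembleR (fun p _ w => Sd.outSR p w) outBW (partC 3 (le_refl 3)) (partC 4 (by norm_num))

theorem mainSR : StatementR := ⟨FF, 30, FF_ok, lowerR⟩

end PPh
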