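import Pool.Agent.H75.PP.GPick
import Pool.Agent.H56.PP.GmAct

/-!
helper75 (project MP_28250c_PQ, axioms in graded modules): the calculus of functions which kill a vector in a given degree.
`Kl g w a P`: the function `P` has degree at most `a` and acts as zero in degree `a` on `w`. `RespK`: the vector respects a gate (in
degree `a`). `gate_memG`, `gate_of_memG`: the two propositional laws of a gate.
-/

set_option autoImplicit false
open Finset

namespace PPh.Sd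

open ACpFrege

variable {K : Type} [Field K] {E : Type} [AddCommGroup E] [Module K E] {n : ℕ} {p : ℕ}

/-- The function `P` of degree at most `a` kills the vector `w` in degree `a`. -/
def Kl (g : Gm K E n) (w : E) (a : ℕ) (P : Pt n → K) : Prop := P ∈ Dg K n a ∧ g.hact a P w = 0

theorem Kl_zero (g : Gm K E n) (w : E) (a : ℕ) : Kl g w a 0 := by
  refine ⟨Submodule.zero_mem _, ?_⟩
  rw [g.hact_zero]
  rfl

theorem Kl_add {g : Gm K E n} {w : E} {a : ℕ} {P Q : Pt n → K} (h1 : Kl g w a P) (h2 : Kl g w a Q) : Kl g w a (P + Q) := by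
  refine ⟨Submodule.add_mem _ h1.1 h2.1, ?_⟩
  rw [g.hact_add, LinearMap.add_apply, h1.2, h2.2, add_zero]

theorem Kl_sub {g : Gm K E n} {w : E} {a : ℕ} {P Q : Pt n → K} (h1 : Kl g w a P) (h2 : Kl g w a Q) : Kl g w a (P - Q) := by
  refine ⟨Submodule.sub_mem _ h1.1 h2.1, ?_⟩
  rw [g.hact_sub, LinearMap.sub_apply, h1.2, h2.2, sub_zero]

theorem Kl_up {g : Gm K E n} {w : E} {a b : ℕ} {P : Pt n → K} (h : Kl g w a P) (hab : a ≤ b) : Kl g w b P := by
  refine ⟨Dg_mono hab h.1, ?_⟩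
  rw [g.hact_up' h.1 hab, Module.End.mul_apply, h.2, map_zero]

theorem Kl_mul {g : Gm K E n} {w : E} {a b : ℕ} {P Q : Pt n → K} (hQ : Q ∈ Dg K n b) (h : Kl g w a P) :
    Kl g w (b + a) (Q * P) := by
  refine ⟨Dg_mul hQ h.1, ?_⟩
  rw [g.hact_mul hQ h.1, Module.End.mul_apply, h.2, map_zero]

theorem Kl_mul' {g : Gm K E n} {w : E} {a b c : ℕ} {P Q : Pt n → K} (hQ : Q ∈ Dg K n b) (h : Kl g w a P) (hc : b + a ≤ c) :
    Kl g w c (Q * P) := Kl_up (Kl_mul hQ h) hc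

theorem Kl_sum {g : Gm K E n} {w : E} {a : ℕ} {ι : Type} (J : Finset ι) (F : ι → Pt n → K) (h : ∀ i ∈ J, Kl g w a (F i)) :
    Kl g w a (∑ i ∈ J, F i) := by
  refine ⟨Submodule.sum_mem _ fun i hi => (h i hi).1, ?_⟩
  rw [g.hact_sum, LinearMap.sum_apply]
  exact Finset.sum_eq_zero fun i hi => (h i hi).2

theorem Kl_lsum {g : Gm K E n} {w : E} {a : ℕ} (l : List (Pt n → K)) (h : ∀ P ∈ l, Kl g w a P) : Kl g w a l.sum := by
  induction l with
  | nil =>
    rw [List.sum_nil]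
    exact Kl_zero g w a
  | cons P l ih =>
    rw [List.sum_cons]
    exact Kl_add (h P List.mem_cons_self) (ih fun Q hQ => h Q (List.mem_cons_of_mem _ hQ))

/-- Graded form: the vector `w` respects the gate `B` in degree `a`. -/
def RespK (g : Gm K E n) (σ : Sel K n) {p : ℕ} (t a : ℕ) (w : E) (B : Fm p) : Prop :=
  ∀ k l, B = cnL k l → ∀ b ∈ σ.fl t k l, Kl g w a ((1 - pl k (σ.gv p t k (σ.fl t k l))) * pl k b)

/-- The basic degree. -/
def TT (p t d : ℕ) : ℕ := t * (p * (t * p) ^ d)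

theorem TT_le [Fact p.Prime] {t d : ℕ} (ht : 1 ≤ t) : (t * p) ^ d ≤ TT p t d := by
  have h1 : 1 ≤ p := (Fact.out : p.Prime).one_lt.le
  unfold TT
  calc (t * p) ^ d = 1 * (1 * (t * p) ^ d) := by ring
    _ ≤ t * (p * (t * p) ^ d) := Nat.mul_le_mul ht (Nat.mul_le_mul_right _ h1)

theorem TT_h [Fact p.Prime] (σ : Sel K n) {t d : ℕ} (ht : 1 ≤ t) {A : Fm p} (hA : A.dep 0 ≤ d) : σ.h t A ∈ Dg K n (TT p t d) :=
  Dg_mono (TT_le ht) (deg_h σ ht hA)

theorem TT_cnL [Fact p.Prime] (σ : Sel K n) {t d : ℕ} (ht : 1 ≤ t) {l : List (Fm p)} (hl : ∀ A ∈ l, A.dep 0 ≤ d) (k : Bool) :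
    σ.h t (cnL k l) ∈ Dg K n (TT p t d) := deg_cnL σ ht hl k

theorem gate_memG [Fact p.Prime] [CharP K p] (g : Gm K E n) (σ : Sel K n) {t d : ℕ} (ht : 1 ≤ t) {w : E} {k : Bool}
    {l : List (Fm p)} (hl : ∀ A ∈ l, A.dep 0 ≤ d) (hR : RespK g σ t (2 * TT p t d) w (cnL k l)) {A : Fm p} (hA : A ∈ l) :
    Kl g w (3 * TT p t d) ((1 - pl k (σ.h t (cnL k l))) * pl k (σ.h t A)) := by
  rcases hl_cases σ t k A with h1 | ⟨l', rfl⟩
  · have h2 := hR k l rfl (σ.h t A) ((mem_fl σ t k l _).2 ⟨A, hA, by rw [h1]; exact List.mem_singleton.2 rfl⟩)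
    rw [← h_cnL] at h2
    exact Kl_up h2 (by omega)
  · have hdeg : ∀ b ∈ σ.fl t k l', b ∈ Dg K n ((t * p) ^ d) := fun b hb =>
      deg_hl σ ht (hl _ hA) k b (by rw [hl_cnL]; exact hb)
    obtain ⟨c, hc, hsum⟩ := gv_comb (p := p) σ t k (σ.fl t k l') hdeg
    rw [h_cnL σ t k l', hsum, Finset.mul_sum]
    refine Kl_sum _ _ fun i _ => ?_
    have hb : (σ.fl t k l').get i ∈ σ.fl t k l := (mem_fl σ t k l _).2 ⟨_, hA, by rw [hl_cnL]; exact List.get_mem _ i⟩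
    have h2 := hR k l rfl _ hb
    rw [← h_cnL] at h2
    have h4 : (1 - pl k (σ.h t (cnL k l))) * (c i * pl k ((σ.fl t k l').get i)) =
        c i * ((1 - pl k (σ.h t (cnL k l))) * pl k ((σ.fl t k l').get i)) := by ring
    rw [h4]
    refine Kl_mul' (hc i) h2 ?_
    show TT p t d + 2 * TT p t d ≤ 3 * TT p t d
    omega

theorem gate_of_memG [Fact p.Prime] [CharP K p] (g : Gm K E n) (σ : Sel K n) {t d c c' : ℕ} (ht : 1 ≤ t) {w : E} {k : Bool}
    {l : List (Fm p)} (hl : ∀ A ∈ l, A.dep 0 ≤ d) (hR : ∀ A ∈ l, RespK g σ t (2 * TT p t d) w A) {P : Pt n → K}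
    (hP : P ∈ Dg K n c) (hc : c + TT p t d ≤ c') (h : ∀ A ∈ l, Kl g w c' (P * pl k (σ.h t A))) :
    Kl g w (c' + 2 * TT p t d) (P * pl k (σ.h t (cnL k l))) := by
  have hle := TT_le (p := p) (d := d) ht
  have hdeg : ∀ b ∈ σ.fl t k l, b ∈ Dg K n ((t * p) ^ d) := deg_fl σ ht hl k
  have claim : ∀ b ∈ σ.fl t k l, Kl g w (c' + TT p t d) (P * pl k b) := by
    intro b hb
    obtain ⟨A, hA, hbA⟩ := (mem_fl σ t k l b).1 hb
    rcases hl_cases σ t k A with h1 | ⟨l', rfl⟩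
    · rw [h1, List.mem_singleton] at hbA
      rw [hbA]
      exact Kl_up (h A hA) (by omega)
    · rw [hl_cnL] at hbA
      have h2 := hR _ hA k l' rfl b hbA
      rw [← h_cnL] at h2
      have h3 : Kl g w (c' + TT p t d) (P * ((1 - pl k (σ.h t (cnL k l'))) * pl k b)) := Kl_mul' hP h2 (by omega)
      have h4 : Kl g w (c' + TT p t d) (pl k b * (P * pl k (σ.h t (cnL k l')))) :=
        Kl_mul' (pl_dg (Dg_mono hle (hdeg b hb))) (h _ hA) (by omega)
      have h5 : P * pl k b = P * ((1 - pl k (σ.h t (cnL k l'))) * pl k b) + pl k b * (P * pl k (σ.h t (cnL k l'))) := by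
        ring
      rw [h5]
      exact Kl_add h3 h4
  obtain ⟨cc, hcc, hsum⟩ := gv_comb (p := p) σ t k (σ.fl t k l) hdeg
  rw [h_cnL σ t k l, hsum, Finset.mul_sum]
  refine Kl_sum _ _ fun i _ => ?_
  have h4 : P * (cc i * pl k ((σ.fl t k l).get i)) = cc i * (P * pl k ((σ.fl t k l).get i)) := by ring
  rw [h4]
  refine Kl_mul' (hcc i) (claim _ (List.get_mem _ i)) ?_
  show TT p t d + (c' + TT p t d) ≤ c' + 2 * TT p t d
  omega

end PPh.Sd
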