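import Pool.Agent.H75.PQ.SndG
import Pool.Agent.H75.PP.GOut

/-!
helper75 (project MP_28250c_PQ): Theorem G for refutations which use all sound rules with few variables and the axioms `IsPhp P`, `IsRk P`.
-/

set_option autoImplicit false
open Finset

namespace PPh.Sd

open ACpFrege

variable {K : Type} [Field K] {E : Type} [AddCommGroup E] [Module K E] {n : ℕ} {p : ℕ}

/-- The graded action of the complement of a literal. -/
private theorem GR_lit (g : Gm K E n) (σ : Sel K n) (t : ℕ) (i : Fin n × Bool) :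
    g.hact 1 (1 - σ.h t (litFm p (i.1.1, i.2))) = if i.2 then g.J - g.X i.1 else g.X i.1 := by
  have hx : σ.h t (.var (i.1.1) : Fm p) = mono K {i.1} := by
    rw [h_var, mono_single]
    funext a
    rw [dif_pos i.1.2]
  unfold litFm
  by_cases hb : i.2
  · rw [if_pos hb, if_pos hb]
    simp only
    rw [hx, g.hact_sub, g.hact_one, pow_one, g.hact_var]
  · rw [if_neg hb, if_neg hb]
    simp only
    rw [h_neg, hx, sub_sub_cancel, g.hact_var]

private theorem GR_prod (g : Gm K E n) (σ : Sel K n) (t : ℕ) (l : List (Fin n × Bool)) :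
    (((l.map fun i => ((i.1.1, i.2) : Lit)).map fun l => 1 - σ.h t (litFm p l)).prod ∈ Dg K n l.length) ∧
      g.hact l.length (((l.map fun i => ((i.1.1, i.2) : Lit)).map fun l => 1 - σ.h t (litFm p l)).prod) = g.nprod l := by
  induction l with
  | nil =>
    refine ⟨Dg_one _, ?_⟩
    rw [List.map_nil, List.map_nil, List.prod_nil, List.length_nil, g.hact_one, pow_zero]
    rfl
  | cons i l ih =>
    have h1 : 1 - σ.h t (litFm p (i.1.1, i.2)) ∈ Dg K n 1 := Submodule.sub_mem _ (Dg_one _) (lit_dg σ t _)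
    rw [List.map_cons, List.map_cons, List.prod_cons, List.length_cons, Nat.add_comm l.length 1]
    refine ⟨Dg_mul h1 ih.1, ?_⟩
    rw [g.hact_mul h1 ih.1, ih.2, GR_lit]
    unfold Gm.nprod
    rw [List.map_cons, List.prod_cons]

private theorem GR_arith2 {L R D W del kap : ℕ} (hL : 1 ≤ L) (hD : 16 * L ^ 2 * del ^ 2 < D) (hR : 16 * L * del ≤ R)
    (hk : R * kap ≤ D) (hW : D ≤ 2 * W) : (kap + del + L) * L * del < W := by
  have h1 : 16 * (kap * L * del) ≤ D := by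
    calc 16 * (kap * L * del) = (16 * L * del) * kap := by ring
      _ ≤ R * kap := Nat.mul_le_mul_right _ hR
      _ ≤ D := hk
  have h2 : 16 * (del * L * del) ≤ 16 * L ^ 2 * del ^ 2 := by
    calc 16 * (del * L * del) = 16 * (L * 1) * del ^ 2 := by ring
      _ ≤ 16 * (L * L) * del ^ 2 := Nat.mul_le_mul_right _ (Nat.mul_le_mul_left _ (Nat.mul_le_mul_left _ hL))
      _ = 16 * L ^ 2 * del ^ 2 := by ring
  have h3 : 16 * (L * L * del) ≤ 16 * L ^ 2 * del ^ 2 := by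
    have h4 : del ≤ del ^ 2 := by
      rcases Nat.eq_zero_or_pos del with h | h
      · rw [h]; norm_num
      · calc del = del * 1 := by ring
          _ ≤ del * del := Nat.mul_le_mul_left _ h
          _ = del ^ 2 := by ring
    calc 16 * (L * L * del) = 16 * L ^ 2 * del := by ring
      _ ≤ 16 * L ^ 2 * del ^ 2 := Nat.mul_le_mul_left _ h4
  have h5 : (kap + del + L) * L * del = kap * L * del + del * L * del + L * L * del := by ring
  rw [h5]
  omega

/-- The vectors of a subspace on which all axioms of a list hold. -/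
theorem PQ_list [FiniteDimensional K E] [Fact p.Prime] [CharP K p] (g : Gm K E n) (σ : Sel K n) {t d : ℕ} (ht : 1 ≤ t)
    {Λ : List (Fm p)} (hΛ : ∀ k l, cnL k l ∈ Λ → ∀ A ∈ l, A.dep 0 ≤ d) {P L kap Y k : ℕ}
    (hkap : ∀ j < L, Module.finrank K ↥(g.M j ⊓ LinearMap.ker g.J) ≤ kap)
    (hY : ∀ j ≤ L, Module.finrank K (g.M j) ≤ Y) (hl : (2 * k + 9) * TT p t d ≤ L) (Φ : List (Fm p))
    (hΦ : ∀ A ∈ Φ, A.dep 0 ≤ d ∧ (∀ B ∈ A.subs, B ∈ Λ) ∧ PQX P Λ A) :
    ∃ U : Submodule K E, U ≤ RspG g σ t (2 * TT p t d) Λ ⊓ g.M 0 ∧ (∀ f ∈ U, ∀ A ∈ Φ, g.hact (TT p t d) (1 - σ.h t A) f = 0) ∧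
      (P + 1) ^ k * Module.finrank K ↥(RspG g σ t (2 * TT p t d) Λ ⊓ g.M 0) ≤
        (P + 1) ^ k * Module.finrank K U + Φ.length * (P ^ k * Y + (P + 1) ^ k * (k * (8 * TT p t d * kap))) := by
  induction Φ with
  | nil =>
    refine ⟨_, le_rfl, ?_, ?_⟩
    · intro f _ B hB
      exact absurd hB List.not_mem_nil
    · rw [List.length_nil, Nat.zero_mul]
      exact Nat.le_add_right _ _
  | cons A Φ ih =>
    obtain ⟨U, hU0, hUR, hUd⟩ := ih (fun B hB => hΦ B (List.mem_cons_of_mem _ hB))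
    obtain ⟨hd, hs, hX⟩ := hΦ A List.mem_cons_self
    have h1 := mat_rank g σ ht hΛ hd (PQX_Mat σ ht hd hs hX) hkap hY k 0 (by omega)
    have h2 := PA_ker (RspG g σ t (2 * TT p t d) Λ ⊓ g.M 0) (g.hact (TT p t d) (1 - σ.h t A))
    have h3 := inter_bound (RspG g σ t (2 * TT p t d) Λ ⊓ g.M 0) U
      (RspG g σ t (2 * TT p t d) Λ ⊓ g.M 0 ⊓ LinearMap.ker (g.hact (TT p t d) (1 - σ.h t A))) hU0 inf_le_left
    refine ⟨U ⊓ (RspG g σ t (2 * TT p t d) Λ ⊓ g.M 0 ⊓ LinearMap.ker (g.hact (TT p t d) (1 - σ.h t A))),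
      le_trans inf_le_left hU0, ?_, ?_⟩
    · intro f hf B hB
      rw [Submodule.mem_inf] at hf
      rcases List.mem_cons.1 hB with rfl | hB
      · have h4 := (Submodule.mem_inf.1 hf.2).2
        rw [LinearMap.mem_ker] at h4
        exact h4
      · exact hUR f hf.1 B hB
    · have h5 := Nat.mul_le_mul_left ((P + 1) ^ k) h2
      have h6 := Nat.mul_le_mul_left ((P + 1) ^ k) h3
      rw [Nat.mul_add] at h5
      rw [Nat.mul_add, Nat.mul_add] at h6
      rw [List.length_cons, Nat.add_mul, Nat.one_mul]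
      omega

theorem PQ_bern (P t : ℕ) : 2 ^ t * P ^ ((P + 1) * t) ≤ (P + 1) ^ ((P + 1) * t) := by
  have h1 : ∀ m, P ^ (m + 1) + (m + 1) * P ^ m ≤ (P + 1) ^ (m + 1) := by
    intro m
    induction m with
    | zero => simp
    | succ m ih =>
      calc P ^ (m + 1 + 1) + (m + 1 + 1) * P ^ (m + 1) ≤ (P + 1) * (P ^ (m + 1) + (m + 1) * P ^ m) := by
            have e : (P + 1) * (P ^ (m + 1) + (m + 1) * P ^ m) = P ^ (m + 1 + 1) + (m + 1 + 1) * P ^ (m + 1) + (m + 1) * P ^ m := by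
              rw [pow_succ P (m + 1), pow_succ P m]
              ring
            rw [e]
            exact Nat.le_add_right _ _
        _ ≤ (P + 1) * (P + 1) ^ (m + 1) := Nat.mul_le_mul_left _ ih
        _ = (P + 1) ^ (m + 1 + 1) := by ring
  have h2 : 2 * P ^ (P + 1) ≤ (P + 1) ^ (P + 1) := by
    refine le_trans ?_ (h1 P)
    have h3 : P ^ (P + 1) ≤ (P + 1) * P ^ P := by
      rw [pow_succ, mul_comm]
      exact Nat.mul_le_mul_right _ (Nat.le_succ P)
    omega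
  rw [pow_mul, pow_mul, ← mul_pow]
  exact Nat.pow_le_pow_left h2 t

/-- All degree conditions. -/
theorem PQ_pow {p t d L C w P v : ℕ} (hp : 2 ≤ p) (ht : 1 ≤ t) (hC : 200 + w ≤ C)
    (hL : C * (P + v + 1) * (p * t) ^ (d + 2) ≤ L) : 4 * TV p v t d ≤ L ∧ (2 * ((P + 1) * t) + 9) * TT p t d ≤ L ∧
      8 * ((P + 1) * t) * TT p t d ≤ L ∧ (t + 2) * (p * (t * p) ^ d) ≤ L ∧
      t * ((p - 1) * (t * p) ^ d) + (t * p) ^ d ≤ 2 * TT p t d ∧ 2 * TT p t d ≤ L ∧ TT p t d + w + 1 ≤ L ∧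
      t * (t * p) ^ d ≤ L ∧ p * (t * p) ^ d ≤ L ∧ 1 ≤ L ∧ (t * p) ^ d ≤ TT p t d := by
  obtain ⟨e, he⟩ : ∃ e, e = (t * p) ^ d := ⟨_, rfl⟩
  obtain ⟨Y, hYY⟩ : ∃ Y, Y = (p * t) ^ (d + 2) := ⟨_, rfl⟩
  have hY : Y = e * (p * t) * (p * t) := by
    rw [hYY, he, mul_comm t p]
    ring
  have he1 : 1 ≤ e := by
    rw [he]
    exact Nat.one_le_pow _ _ (Nat.mul_pos (by omega) (by omega))
  rw [← hYY] at hL
  obtain ⟨T, hT⟩ : ∃ T, T = TT p t d := ⟨_, rfl⟩
  have hTe : T = t * (p * e) := by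
    rw [hT, he]
    rfl
  have hpt : 1 ≤ p * t := Nat.mul_pos (by omega) (by omega)
  have g1 : e ≤ T := by
    rw [hTe]
    calc e = 1 * (1 * e) := by ring
      _ ≤ t * (p * e) := Nat.mul_le_mul ht (Nat.mul_le_mul_right _ (by omega))
  have g2 : t * T ≤ Y := by
    rw [hTe, hY]
    calc t * (t * (p * e)) = e * (p * t) * (1 * t) := by ring
      _ ≤ e * (p * t) * (p * t) := Nat.mul_le_mul_left _ (Nat.mul_le_mul_right _ (by omega))
  have g3 : p * T ≤ Y := by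
    rw [hTe, hY]
    calc p * (t * (p * e)) = e * (p * t) * (p * 1) := by ring
      _ ≤ e * (p * t) * (p * t) := Nat.mul_le_mul_left _ (Nat.mul_le_mul_left _ ht)
  have g4 : T ≤ Y := le_trans (Nat.le_mul_of_pos_left _ (by omega)) g2
  have g5 : t * e ≤ T := by
    rw [hTe]
    exact Nat.mul_le_mul_left _ (Nat.le_mul_of_pos_left _ (by omega))
  have g6 : p * e ≤ T := by
    rw [hTe]
    exact Nat.le_mul_of_pos_left _ (by omega)
  have g7 : t * ((p - 1) * e) ≤ T := by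
    rw [hTe]
    exact Nat.mul_le_mul_left _ (Nat.mul_le_mul_right _ (Nat.sub_le _ _))
  have g8 : t * (p * e) = T := hTe.symm
  have hZ : (200 + w) * Y * (P + v + 1) ≤ L := by
    refine le_trans (le_of_eq ?_) (le_trans (Nat.mul_le_mul_right Y (Nat.mul_le_mul_right (P + v + 1) hC)) hL)
    ring
  have hZ1 : (200 + w) * Y ≤ L := le_trans (Nat.le_mul_of_pos_right _ (by omega)) hZ
  have hZe : (200 + w) * Y * (P + v + 1) = 200 * (Y * P) + 200 * (Y * v) + 200 * Y + w * Y * (P + v + 1) := by ring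
  rw [hZe] at hZ
  have hZ1e : (200 + w) * Y = 200 * Y + w * Y := by ring
  rw [hZ1e] at hZ1
  have hwY : w ≤ w * Y := Nat.le_mul_of_pos_right _ (by omega)
  rw [← he, ← hT]
  refine ⟨?_, ?_, ?_, ?_, by omega, by omega, by omega, by omega, by omega, by omega, g1⟩
  · have e1 : 4 * TV p v t d = 12 * (p * T * v) + 4 * (p * T) := by
      unfold TV
      rw [← hT]
      ring
    have e2 : p * T * v ≤ Y * v := Nat.mul_le_mul_right _ g3
    omega
  · have e1 : (2 * ((P + 1) * t) + 9) * T = 2 * (t * T * P) + 2 * (t * T) + 9 * T := by ring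
    have e2 : t * T * P ≤ Y * P := Nat.mul_le_mul_right _ g2
    omega
  · have e1 : 8 * ((P + 1) * t) * T = 8 * (t * T * P) + 8 * (t * T) := by ring
    have e2 : t * T * P ≤ Y * P := Nat.mul_le_mul_right _ g2
    omega
  · have e1 : (t + 2) * (p * e) = t * (p * e) + 2 * (p * e) := by ring
    omega

/-- The dimension arithmetic. -/
theorem PQ_arith {p t L C N A R D W U Lm a b v e kap T k : ℕ} (hC : 200 ≤ C) (hN : 1 ≤ N) (hv : v ≤ N)
    (hCN : C * N ^ 2 * A * 2 ^ t < 3 ^ t) (hR : C * N ^ 3 * L ≤ R) (he : e ≤ L) (hpe : p * e ≤ L)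
    (hk : R * kap ≤ D) (hΛ : Lm ≤ (2 * v + 2) * N) (hab : 2 ^ t * b ≤ a) (ha : 1 ≤ a) (hkT : 8 * k * T ≤ L)
    (h : 3 ^ t * D ≤ 3 ^ t * W + Lm * (2 ^ t * (A * D) + 3 ^ t * ((3 * N + 2 * p) * (e * kap))))
    (h2 : a * W ≤ a * U + N * (b * (A * D) + a * (k * (8 * T * kap)))) : D ≤ 2 * U := by
  have hLm : Lm ≤ 4 * N ^ 2 := by
    refine hΛ.trans ?_
    calc (2 * v + 2) * N ≤ (4 * N) * N := Nat.mul_le_mul_right _ (by omega)
      _ = 4 * N ^ 2 := by ring
  have h3t : 0 < 3 ^ t := Nat.pow_pos (by norm_num)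
  have e1 : 8 * (Lm * (2 ^ t * (A * D))) ≤ 3 ^ t * D := by
    calc 8 * (Lm * (2 ^ t * (A * D))) ≤ 8 * ((4 * N ^ 2) * (2 ^ t * (A * D))) :=
          Nat.mul_le_mul_left _ (Nat.mul_le_mul_right _ hLm)
      _ = (32 * N ^ 2 * A * 2 ^ t) * D := by ring
      _ ≤ (C * N ^ 2 * A * 2 ^ t) * D := by
          refine Nat.mul_le_mul_right _ (Nat.mul_le_mul_right _ (Nat.mul_le_mul_right _ (Nat.mul_le_mul_right _ ?_)))
          omega
      _ ≤ 3 ^ t * D := Nat.mul_le_mul_right _ hCN.le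
  have hLk : C * N ^ 3 * L * kap ≤ D := le_trans (Nat.mul_le_mul_right _ hR) hk
  have e2 : 8 * (Lm * (3 ^ t * ((3 * N + 2 * p) * (e * kap)))) ≤ 3 ^ t * D := by
    have h3 : (3 * N + 2 * p) * e ≤ 5 * N * L := by
      calc (3 * N + 2 * p) * e = 3 * N * e + 2 * (p * e) := by ring
        _ ≤ 3 * N * L + 2 * L := Nat.add_le_add (Nat.mul_le_mul_left _ he) (Nat.mul_le_mul_left _ hpe)
        _ ≤ 3 * N * L + 2 * (N * L) := by
            refine Nat.add_le_add_left (Nat.mul_le_mul_left _ ?_) _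
            exact Nat.le_mul_of_pos_left _ hN
        _ = 5 * N * L := by ring
    calc 8 * (Lm * (3 ^ t * ((3 * N + 2 * p) * (e * kap)))) = 3 ^ t * (8 * Lm * ((3 * N + 2 * p) * e) * kap) := by ring
      _ ≤ 3 ^ t * (8 * (4 * N ^ 2) * (5 * N * L) * kap) := by
          refine Nat.mul_le_mul_left _ (Nat.mul_le_mul_right _ (Nat.mul_le_mul (Nat.mul_le_mul_left _ hLm) h3))
      _ = 3 ^ t * (160 * N ^ 3 * L * kap) := by ring
      _ ≤ 3 ^ t * (C * N ^ 3 * L * kap) := by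
          refine Nat.mul_le_mul_left _ (Nat.mul_le_mul_right _ (Nat.mul_le_mul_right _ (Nat.mul_le_mul_right _ ?_)))
          omega
      _ ≤ 3 ^ t * D := Nat.mul_le_mul_left _ hLk
  have e3 : 3 * D ≤ 4 * W := by
    have h3 : Lm * (2 ^ t * (A * D) + 3 ^ t * ((3 * N + 2 * p) * (e * kap))) =
      Lm * (2 ^ t * (A * D)) + Lm * (3 ^ t * ((3 * N + 2 * p) * (e * kap))) := by ring
    rw [h3] at h
    have h4 : 3 ^ t * (3 * D) ≤ 3 ^ t * (4 * W) := by
      have e4 : 3 ^ t * (3 * D) = 3 * (3 ^ t * D) := by ring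
      have e5 : 3 ^ t * (4 * W) = 4 * (3 ^ t * W) := by ring
      rw [e4, e5]
      omega
    exact Nat.le_of_mul_le_mul_left h4 h3t
  have h2t : C * N ^ 2 * A < 2 ^ t := by
    have h4 : 3 ^ t ≤ 2 ^ t * 2 ^ t := by
      rw [← mul_pow]
      exact Nat.pow_le_pow_left (by norm_num) t
    have h5 : 2 ^ t * (C * N ^ 2 * A) < 2 ^ t * 2 ^ t := by
      calc 2 ^ t * (C * N ^ 2 * A) = C * N ^ 2 * A * 2 ^ t := by ring
        _ < _ := lt_of_lt_of_le hCN h4
    exact Nat.lt_of_mul_lt_mul_left h5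
  have e6 : 8 * (N * (b * (A * D))) ≤ a * D := by
    calc 8 * (N * (b * (A * D))) = (8 * N * 1 * A) * (b * D) := by ring
      _ ≤ (C * N * N * A) * (b * D) := by
          refine Nat.mul_le_mul_right _ (Nat.mul_le_mul_right _ (Nat.mul_le_mul (Nat.mul_le_mul_right _ (by omega)) hN))
      _ = (C * N ^ 2 * A) * (b * D) := by ring
      _ ≤ 2 ^ t * (b * D) := Nat.mul_le_mul_right _ h2t.le
      _ = (2 ^ t * b) * D := by ring
      _ ≤ a * D := Nat.mul_le_mul_right _ hab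
  have e7 : 8 * (N * (a * (k * (8 * T * kap)))) ≤ a * D := by
    calc 8 * (N * (a * (k * (8 * T * kap)))) = a * (8 * N * 1 * (8 * k * T) * kap) := by ring
      _ ≤ a * (C * N * (N * N) * L * kap) := by
          refine Nat.mul_le_mul_left _ (Nat.mul_le_mul_right _ (Nat.mul_le_mul (Nat.mul_le_mul (Nat.mul_le_mul_right _ (by omega))
            (Nat.mul_pos hN hN)) hkT))
      _ = a * (C * N ^ 3 * L * kap) := by ring
      _ ≤ a * D := Nat.mul_le_mul_left _ hLk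
  have e8 : 4 * W ≤ 4 * U + D := by
    have h3 : N * (b * (A * D) + a * (k * (8 * T * kap))) = N * (b * (A * D)) + N * (a * (k * (8 * T * kap))) := by ring
    rw [h3] at h2
    have h4 : a * (4 * W) ≤ a * (4 * U + D) := by
      have e4 : a * (4 * W) = 4 * (a * W) := by ring
      have e5 : a * (4 * U + D) = 4 * (a * U) + a * D := by ring
      rw [e4, e5]
      omega
    exact Nat.le_of_mul_le_mul_left h4 ha
  omega

/-- Theorem G for `HasGmW` and refutations with axioms: `C` depends only on the width. -/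
def OutGR (p w : ℕ) [Fact p.Prime] : Prop :=
  ∃ C : ℕ, ∀ (S : List (Rule p)) (v : ℕ), (∀ R ∈ S, R.Sound) → (∀ R ∈ S, R.vars ≤ v) →
    ∀ (d n : ℕ) (F : CNF) (L A R del N t P : ℕ), HasGmW w p n F L A R del →
    1 ≤ t → C * (P + v + 1) * (p * t) ^ (d + 2) ≤ L → v ≤ N → C * N ^ 2 * A * 2 ^ t < 3 ^ t → C * N ^ 3 * L ≤ R → 16 * L * del ≤ R →
    ∀ π : List (Fm p), RefutesR S d P F π → N < psize π

/-- Theorem G with explicit constants. -/
theorem outGRx (p w : ℕ) [Fact p.Prime] (S : List (Rule p)) (v : ℕ) (hS : ∀ R ∈ S, R.Sound) (hv : ∀ R ∈ S, R.vars ≤ v)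
    (d n : ℕ) (F : CNF) (L A R del N t P : ℕ) (hs : HasGmW w p n F L A R del) (ht : 1 ≤ t)
    (hL : (200 + w) * (P + v + 1) * (p * t) ^ (d + 2) ≤ L) (hvN : v ≤ N) (hCN : 200 * N ^ 2 * A * 2 ^ t < 3 ^ t)
    (hR : 200 * N ^ 3 * L ≤ R) (hdelR : 16 * L * del ≤ R) (π : List (Fm p)) (hπ : RefutesR S d P F π) : N < psize π := by
  classical
  obtain ⟨E, _, _, _, g, hD, hA, hRk, hdel, hcl⟩ := hs
  by_contra hlt
  rw [not_lt] at hlt
  have hp := (Fact.out : p.Prime).two_le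
  obtain ⟨b1, b2, b3, b4, b5, b6, b7, b8, b9, b10, b11⟩ := PQ_pow (w := w) hp ht le_rfl hL
  have hpi : 1 ≤ psize π := by
    unfold psize
    have h1 : (cnL true ([] : List (Fm p))).size ∈ π.map Fm.size := List.mem_map.2 ⟨_, hπ.2.2, rfl⟩
    have h2 := List.single_le_sum (l := π.map Fm.size) (fun x _ => Nat.zero_le x) _ h1
    have h3 : 1 ≤ (cnL true ([] : List (Fm p))).size := PA_size_pos _
    omega
  have hN : 1 ≤ N := hpi.trans hlt
  have hRpos : 0 < R := by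
    refine lt_of_lt_of_le ?_ hR
    exact Nat.mul_pos (Nat.mul_pos (by omega) (Nat.pow_pos hN)) b10
  obtain ⟨D, hDe⟩ : ∃ D, D = Module.finrank (ZMod p) (g.M 0) := ⟨_, rfl⟩
  rw [← hDe] at hD hA hRk
  obtain ⟨kap, hkape⟩ : ∃ kap, kap = D / R := ⟨_, rfl⟩
  have hkap : ∀ j < L, Module.finrank (ZMod p) ↥(g.M j ⊓ LinearMap.ker g.J) ≤ kap := by
    intro j hj
    rw [hkape, Nat.le_div_iff_mul_le hRpos, mul_comm]
    exact hRk j hj
  have hkR : R * kap ≤ D := by
    rw [hkape]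
    exact Nat.mul_div_le D R
  obtain ⟨T, hT⟩ : ∃ T, T = TT p t d := ⟨_, rfl⟩
  obtain ⟨Λ, hlen, hsub, hmem, hdata⟩ := PQ_gates S hv d P F π hπ
  have hdep : ∀ k l, cnL k l ∈ Λ → ∀ A ∈ l, A.dep 0 ≤ d := by
    intro k l h A hA
    obtain ⟨B, hB, hAB⟩ := hmem k l h A hA
    exact (dep_subs hAB).trans (hπ.1 B hB)
  have hdeg : ∀ (σ : Sel (ZMod p) n) k l, cnL k l ∈ Λ → ∀ b ∈ σ.fl t k l, b ∈ Dg (ZMod p) n ((t * p) ^ d) := by
    intro σ k l h
    exact deg_fl σ ht (hdep k l h) k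
  obtain ⟨σ, hσ⟩ : ∃ σ, σ = selG g p t ((t * p) ^ d) kap := ⟨_, rfl⟩
  obtain ⟨W, hW0, hWR, hWd⟩ := pickG (p := p) (r := N) g hkap b4 Λ (fun k l h => by
    refine ⟨hdeg _ k l h, ?_⟩
    exact (reps_card _).trans ((fl_card _ t k l π fun A hA => hmem k l h A hA).trans hlt))
  rw [← hσ] at hWR
  rw [← hDe] at hWd
  have hWle : W ≤ RspG g σ t (2 * T) Λ ⊓ g.M 0 := by
    refine le_inf ?_ hW0
    intro f hf
    rw [mem_RspG]
    rintro Q ⟨k, l, b, hkl, hb, rfl⟩
    have h1 := hWR f hf _ hkl k l rfl b hb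
    have h2 : (1 - pl k (σ.gv p t k (σ.fl t k l))) * pl k b ∈
        Dg (ZMod p) n (t * ((p - 1) * (t * p) ^ d) + (t * p) ^ d) :=
      Dg_mul (Submodule.sub_mem _ (Dg_one _) (pl_dg (gv_dg σ t _ k _ (hdeg σ k l hkl)))) (pl_dg (hdeg σ k l hkl b hb))
    rw [hT, g.hact_up' h2 b5, Module.End.mul_apply, h1, map_zero]
  have hWd' : 3 ^ t * D ≤ 3 ^ t * Module.finrank (ZMod p) ↥(RspG g σ t (2 * T) Λ ⊓ g.M 0) +
      Λ.length * (2 ^ t * (A * D) + 3 ^ t * ((3 * N + 2 * p) * ((t * p) ^ d * kap))) := by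
    refine hWd.trans (Nat.add_le_add (Nat.mul_le_mul_left _ (Submodule.finrank_mono hWle)) (Nat.mul_le_mul_left _
      (Nat.add_le_add_right (Nat.mul_le_mul_left _ (hA _ b8)) _)))
  have hΦ0 : ∀ A ∈ π.filter fun A => PQX P Λ A, A.dep 0 ≤ d ∧ (∀ B ∈ A.subs, B ∈ Λ) ∧ PQX P Λ A := by
    intro A hA
    rw [List.mem_filter] at hA
    exact ⟨hπ.1 A hA.1, hsub A hA.1, by simpa using hA.2⟩
  obtain ⟨U, hU0, hUR, hUd⟩ := PQ_list g σ ht hdep (k := (P + 1) * t) (Y := A * D) hkap hA b2 _ hΦ0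
  rw [← hT] at hU0 hUR hUd
  have hsz : π.length ≤ psize π := by
    unfold psize
    have h1 := List.length_le_sum_of_one_le (π.map Fm.size) (by
      intro i hi
      rw [List.mem_map] at hi
      obtain ⟨A, _, rfl⟩ := hi
      exact PA_size_pos A)
    rw [List.length_map] at h1
    exact h1
  have hΦlen : (π.filter fun A => PQX P Λ A).length ≤ N := (List.length_filter_le _ _).trans (hsz.trans hlt)
  have hUd' : (P + 1) ^ ((P + 1) * t) * Module.finrank (ZMod p) ↥(RspG g σ t (2 * T) Λ ⊓ g.M 0) ≤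
      (P + 1) ^ ((P + 1) * t) * Module.finrank (ZMod p) U + N * (P ^ ((P + 1) * t) * (A * D) +
        (P + 1) ^ ((P + 1) * t) * ((P + 1) * t * (8 * T * kap))) :=
    hUd.trans (Nat.add_le_add_left (Nat.mul_le_mul_right _ hΦlen) _)
  have hU : D ≤ 2 * Module.finrank (ZMod p) U := by
    refine PQ_arith (p := p) (t := t) (v := v) (e := (t * p) ^ d) (by omega) hN hvN hCN hR (le_trans b11 (by omega)) b9 hkR
      (hlen.trans (Nat.mul_le_mul_left _ hlt)) (PQ_bern P t) (Nat.one_le_pow _ _ (by omega)) ?_ hWd' hUd'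
    rw [hT]
    exact b3
  obtain ⟨f, hfU, hf0, hinj⟩ := generic g U (le_trans hU0 inf_le_right) L kap del (fun a ha => hdel a ha.le) hkap
    (GR_arith2 b10 hD hdelR hkR hU)
  obtain ⟨s, hsL, hs0, hsne, hact, hpos, _⟩ := cyclic g L f hinj hf0
  obtain ⟨f', hf'⟩ : ∃ f', f' = (g.J ^ L) f := ⟨_, rfl⟩
  rw [← hf'] at hs0 hsne hact
  -- transfer
  have hZ : ∀ a ≤ L, ∀ P ∈ Dg (ZMod p) n a, g.hact a P f = 0 → s.Z f' P := by
    intro a ha P hP h
    unfold Slow.Z
    rw [hact a ha P hP, h, map_zero]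
  have hresp : ∀ B ∈ Λ, s.RespS σ t f' B := by
    intro B hB
    by_cases hcn : ∃ k l, B = cnL k l
    · obtain ⟨k, l, rfl⟩ := hcn
      rw [resp_iff]
      intro b hb
      have h1 := RspG_resp g σ ht hdep (by rw [← hT]; exact (Submodule.mem_inf.1 (hU0 hfU)).1) hB k l rfl b hb
      exact hZ _ b6 _ h1.1 h1.2
    · exact resp_triv s σ t f' B fun k l h => hcn ⟨k, l, h⟩
  have hlines := PQ_lines s σ ht hs0 S hS hv F π hπ.1 (fun C hC hCπ => ?_) Λ hsub hresp hdata (fun A hA hX => ?_)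
    (by rw [hsL]; exact b1)
  · have h11 := hlines _ hπ.2.2
    rw [bot_val, sub_zero] at h11
    exact hsne (Z_one s h11)
  · have hRC := hresp _ (hsub _ hCπ _ (subs_self _))
    have hCd : σ.h t (clauseFm C : Fm p) ∈ Dg (ZMod p) n (TT p t d) := TT_h σ ht (hπ.1 _ hCπ)
    rcases hcl C hC with ⟨l, hlw, hCl, hnp⟩ | ⟨l, _, hCl, hsum⟩
    · have hlen' : C.length ≤ w := by
        rw [hCl, List.length_map]
        exact hlw
      refine clause_ok (T := TT p t d) s σ hs0 C ?_ hRC hCd (by rw [hsL]; omega)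
      obtain ⟨h1, _⟩ := foldr_act (p := p) s σ t hs0 C (by rw [hsL]; omega)
      rw [h1]
      obtain ⟨h3, h4⟩ := GR_prod (p := p) g σ t l
      rw [hCl, hact l.length (by omega) _ h3, h4, hnp, map_zero]
    · subst hCl
      refine clause_okP (T := TT p t d) s σ hs0 l hRC hCd (by rw [hsL]; omega) ?_
      exact hpos l hsum 0 (by omega) f' hs0
  · have h1 : σ.h t A ∈ Dg (ZMod p) n (TT p t d) := TT_h σ ht (hπ.1 A hA)
    refine hZ (TT p t d) (by omega) _ (Submodule.sub_mem _ (Dg_one _) h1) ?_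
    rw [← hT]
    exact hUR f hfU A (by
      rw [List.mem_filter]
      exact ⟨hA, by simpa using hX⟩)

theorem outGR (p w : ℕ) [Fact p.Prime] : OutGR p w := by
  refine ⟨200 + w, ?_⟩
  intro S v hS hv d n F L A R del N t P hs ht hL hvN hCN hR hdelR π hπ
  refine outGRx p w S v hS hv d n F L A R del N t P hs ht hL hvN (lt_of_le_of_lt ?_ hCN) (le_trans ?_ hR) hdelR π hπ
  · exact Nat.mul_le_mul_right _ (Nat.mul_le_mul_right _ (Nat.mul_le_mul_right _ (Nat.le_add_right _ _)))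
  · exact Nat.mul_le_mul_right _ (Nat.mul_le_mul_right _ (Nat.le_add_right _ _))

end PPh.Sd
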