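import Pool.Agent.H75.PQ.Rees
import Pool.Agent.H16.CQ.Local

/-!
helper75 (project MP_28250c_PQ): filtered modules (`HasSlowW`, `HasSlow`) give lower bounds for refutations which use all sound rules with few
variables and the axioms `IsPhp P`, `IsRk P`.
-/

set_option autoImplicit false
open Finset

namespace PPh.Sd

open ACpFrege

variable {p : ℕ}

private theorem MS_arith {t C N A D W U Lm a b v : ℕ} (hC : 200 ≤ C) (hN : 1 ≤ N) (hv : v ≤ N)
    (hCN : C * N ^ 2 * A * 2 ^ t < 3 ^ t) (hΛ : Lm ≤ (2 * v + 2) * N) (hab : 2 ^ t * b ≤ a) (ha : 1 ≤ a)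
    (h : 3 ^ t * D ≤ 3 ^ t * W + Lm * (2 ^ t * (A * D)))
    (h2 : a * W ≤ a * U + N * (b * (A * D))) : D ≤ 2 * U := by
  have hLm : Lm ≤ 4 * N ^ 2 := by
    refine hΛ.trans ?_
    calc (2 * v + 2) * N ≤ (4 * N) * N := Nat.mul_le_mul_right _ (by omega)
      _ = 4 * N ^ 2 := by ring
  have h3t : 0 < 3 ^ t := Nat.pow_pos (by norm_num)
  have e1 : 4 * (Lm * (2 ^ t * (A * D))) ≤ 3 ^ t * D := by
    calc 4 * (Lm * (2 ^ t * (A * D))) ≤ 4 * ((4 * N ^ 2) * (2 ^ t * (A * D))) :=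
          Nat.mul_le_mul_left _ (Nat.mul_le_mul_right _ hLm)
      _ = (16 * N ^ 2 * A * 2 ^ t) * D := by ring
      _ ≤ (C * N ^ 2 * A * 2 ^ t) * D := by
          refine Nat.mul_le_mul_right _ (Nat.mul_le_mul_right _ (Nat.mul_le_mul_right _ (Nat.mul_le_mul_right _ ?_)))
          omega
      _ ≤ 3 ^ t * D := Nat.mul_le_mul_right _ hCN.le
  have e3 : 3 * D ≤ 4 * W := by
    have h4 : 3 ^ t * (3 * D) ≤ 3 ^ t * (4 * W) := by
      have e4 : 3 ^ t * (3 * D) = 3 * (3 ^ t * D) := by ring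
      have e5 : 3 ^ t * (4 * W) = 4 * (3 ^ t * W) := by ring
      rw [e4, e5]
      omega
    exact Nat.le_of_mul_le_mul_left h4 h3t
  have h2t : C * N ^ 2 * A < 2 ^ t := by
    have h4 : 3 ^ t ≤ 2 ^ t * 2 ^ t := by
      rw [← mul_pow]
      exact Nat.pow_le_pow_left (by norm_num) t
    have h5 : 2 ^ t * (C * N ^ 2 * A) < 2 ^ t * 2 ^ t := by
      calc 2 ^ t * (C * N ^ 2 * A) = C * N ^ 2 * A * 2 ^ t := by ring
        _ < _ := lt_of_lt_of_le hCN h4
    exact Nat.lt_of_mul_lt_mul_left h5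
  have e6 : 4 * (N * (b * (A * D))) ≤ a * D := by
    calc 4 * (N * (b * (A * D))) = (4 * N * 1 * A) * (b * D) := by ring
      _ ≤ (C * N * N * A) * (b * D) := by
          refine Nat.mul_le_mul_right _ (Nat.mul_le_mul_right _ (Nat.mul_le_mul (Nat.mul_le_mul_right _ (by omega)) hN))
      _ = (C * N ^ 2 * A) * (b * D) := by ring
      _ ≤ 2 ^ t * (b * D) := Nat.mul_le_mul_right _ h2t.le
      _ = (2 ^ t * b) * D := by ring
      _ ≤ a * D := Nat.mul_le_mul_right _ hab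
  have e8 : 4 * W ≤ 4 * U + D := by
    have h4 : a * (4 * W) ≤ a * (4 * U + D) := by
      have e4 : a * (4 * W) = 4 * (a * W) := by ring
      have e5 : a * (4 * U + D) = 4 * (a * U) + a * D := by ring
      rw [e4, e5]
      omega
    exact Nat.le_of_mul_le_mul_left h4 ha
  omega

/-- The formula of a clause has the value 1 on a vector which respects it, wide version. -/
theorem clause_okSW [Fact p.Prime] {K : Type} [Field K] [CharP K p] {E : Type} [AddCommGroup E] [Module K E] {n : ℕ} (s : Slow K E n)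
    (σ : Sel K n) {t T : ℕ} {f : E} (hf : f ∈ s.M 0) (C : List Lit) (hC : ∀ m ∈ s.M T, (∀ l ∈ C, s.lit l m = m) → m = 0)
    (hR : s.RespS σ t f (clauseFm C : Fm p)) (hP : σ.h t (clauseFm C : Fm p) ∈ Dg K n T) (hL : T + 1 ≤ s.L) :
    s.Z f (1 - σ.h t (clauseFm C : Fm p)) := by
  have hP1 : 1 - σ.h t (clauseFm C : Fm p) ∈ Dg K n T := Submodule.sub_mem _ (Dg_one _) hP
  have hmem : s.act (1 - σ.h t (clauseFm C : Fm p)) f ∈ s.M T := by
    have := act_mem s hf hP1 (by omega)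
    rwa [zero_add] at this
  refine hC _ hmem ?_
  intro l hl
  have h1 : s.Z f ((1 - σ.h t (clauseFm C : Fm p)) * σ.h t (litFm p l)) := by
    have hfl : σ.h t (litFm p l) ∈
        σ.fl t true (C.map fun l : Lit => if l.2 then (Fm.var l.1 : Fm p) else .neg (.var l.1)) := by
      rw [mem_fl]
      refine ⟨litFm p l, List.mem_map.2 ⟨l, hl, rfl⟩, ?_⟩
      unfold litFm
      by_cases h : l.2 = true
      · rw [if_pos h, hl_var]; exact List.mem_singleton.2 rfl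
      · rw [if_neg h, hl_neg, h_neg]; exact List.mem_singleton.2 rfl
    have hR' : s.RespS σ t f (cnL true (C.map fun l : Lit => if l.2 then (Fm.var l.1 : Fm p) else .neg (.var l.1))) := hR
    have h2 := resp_cnL s σ t f true _ hR' hfl
    simpa [pl, clauseFm] using h2
  rw [lit_act (p := p) s σ t l, act_mul s hf (Submodule.sub_mem _ (Dg_one 1) (lit_dg σ t l)) hP1 (by omega), sub_mul, one_mul,
    mul_comm, act_sub, LinearMap.sub_apply]
  unfold Slow.Z at h1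
  rw [h1, sub_zero]

/-- Theorem A with axioms for clauses of any width; `C` depends only on `w`. -/
theorem outSRW (p w : ℕ) [Fact p.Prime] : ∃ C : ℕ, ∀ (S : List (Rule p)) (v : ℕ), (∀ R ∈ S, R.Sound) → (∀ R ∈ S, R.vars ≤ v) →
    ∀ (d n : ℕ) (F : CNF) (L A N t P : ℕ), HasSlowW p n F w L A →
    1 ≤ t → C * (P + v + 1) * (p * t) ^ (d + 2) ≤ L → v ≤ N → C * N ^ 2 * A * 2 ^ t < 3 ^ t →
    ∀ π : List (Fm p), RefutesR S d P F π → N < psize π := by
  classical
  refine ⟨200 + w, ?_⟩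
  intro S v hS hv d n F L A N t P hs ht hL hvN hCN π hπ
  obtain ⟨K, _, _, E, _, _, _, s, hsL, h0, hM, hcl⟩ := hs
  subst hsL
  by_contra hlt
  rw [not_lt] at hlt
  have hp := (Fact.out : p.Prime).two_le
  obtain ⟨b1, b2, b3, b4, b5, b6, b7, b8, b9, b10, b11⟩ := PQ_pow (w := w) hp ht le_rfl hL
  have hpi : 1 ≤ psize π := by
    unfold psize
    have h1 : (cnL true ([] : List (Fm p))).size ∈ π.map Fm.size := List.mem_map.2 ⟨_, hπ.2.2, rfl⟩
    have h2 := List.single_le_sum (l := π.map Fm.size) (fun x _ => Nat.zero_le x) _ h1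
    have h3 : 1 ≤ (cnL true ([] : List (Fm p))).size := PA_size_pos _
    omega
  have hN : 1 ≤ N := hpi.trans hlt
  obtain ⟨g, hg⟩ : ∃ g, g = rees s := ⟨_, rfl⟩
  obtain ⟨D, hDe⟩ : ∃ D, D = Module.finrank K (g.M 0) := ⟨_, rfl⟩
  have hD0 : Module.finrank K (s.M 0) ≤ D := by
    rw [hDe, hg]
    exact rees_dim_ge s
  have hA : ∀ j ≤ s.L, Module.finrank K (g.M j) ≤ A * D := by
    intro j hj
    rw [hg]
    calc Module.finrank K ((rees s).M j) ≤ Module.finrank K (s.M j) := rees_dim_le s j hj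
      _ ≤ Module.finrank K (s.M s.L) := Submodule.finrank_mono (M_le s hj le_rfl)
      _ ≤ A * Module.finrank K (s.M 0) := hM
      _ ≤ A * D := Nat.mul_le_mul_left _ hD0
  have hkap : ∀ j < s.L, Module.finrank K ↥(g.M j ⊓ LinearMap.ker g.J) ≤ 0 := by
    intro j hj
    rw [hg, rees_ker s hj, finrank_bot]
  obtain ⟨T, hT⟩ : ∃ T, T = TT p t d := ⟨_, rfl⟩
  obtain ⟨Λ, hlen, hsub, hmem, hdata⟩ := PQ_gates S hv d P F π hπ
  have hdep : ∀ k l, cnL k l ∈ Λ → ∀ A ∈ l, A.dep 0 ≤ d := by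
    intro k l h A hA
    obtain ⟨B, hB, hAB⟩ := hmem k l h A hA
    exact (dep_subs hAB).trans (hπ.1 B hB)
  have hdeg : ∀ (σ : Sel K n) k l, cnL k l ∈ Λ → ∀ b ∈ σ.fl t k l, b ∈ Dg K n ((t * p) ^ d) := by
    intro σ k l h
    exact deg_fl σ ht (hdep k l h) k
  obtain ⟨σ, hσ⟩ : ∃ σ, σ = selG g p t ((t * p) ^ d) 0 := ⟨_, rfl⟩
  obtain ⟨W, hW0, hWR, hWd⟩ := pickG (p := p) (r := N) g hkap b4 Λ (fun k l h => by
    refine ⟨hdeg _ k l h, ?_⟩
    exact (reps_card _).trans ((fl_card _ t k l π fun A hA => hmem k l h A hA).trans hlt))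
  rw [← hσ] at hWR
  rw [← hDe] at hWd
  have hWle : W ≤ RspG g σ t (2 * T) Λ ⊓ g.M 0 := by
    refine le_inf ?_ hW0
    intro f hf
    rw [mem_RspG]
    rintro Q ⟨k, l, b, hkl, hb, rfl⟩
    have h1 := hWR f hf _ hkl k l rfl b hb
    have h2 : (1 - pl k (σ.gv p t k (σ.fl t k l))) * pl k b ∈
        Dg K n (t * ((p - 1) * (t * p) ^ d) + (t * p) ^ d) :=
      Dg_mul (Submodule.sub_mem _ (Dg_one _) (pl_dg (gv_dg σ t _ k _ (hdeg σ k l hkl)))) (pl_dg (hdeg σ k l hkl b hb))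
    rw [hT, g.hact_up' h2 b5, Module.End.mul_apply, h1, map_zero]
  have hWd' : 3 ^ t * D ≤ 3 ^ t * Module.finrank K ↥(RspG g σ t (2 * T) Λ ⊓ g.M 0) +
      Λ.length * (2 ^ t * (A * D)) := by
    rw [Nat.mul_zero, Nat.mul_zero, Nat.mul_zero] at hWd
    exact hWd.trans (Nat.add_le_add (Nat.mul_le_mul_left _ (Submodule.finrank_mono hWle)) (Nat.mul_le_mul_left _
      ((le_of_eq (Nat.add_zero _)).trans (Nat.mul_le_mul_left _ (hA _ b8)))))
  have hΦ0 : ∀ A ∈ π.filter fun A => PQX P Λ A, A.dep 0 ≤ d ∧ (∀ B ∈ A.subs, B ∈ Λ) ∧ PQX P Λ A := by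
    intro A hA
    rw [List.mem_filter] at hA
    exact ⟨hπ.1 A hA.1, hsub A hA.1, by simpa using hA.2⟩
  obtain ⟨U, hU0, hUR, hUd⟩ := PQ_list g σ ht hdep (k := (P + 1) * t) (Y := A * D) hkap hA b2 _ hΦ0
  rw [← hT] at hU0 hUR hUd
  have hsz : π.length ≤ psize π := by
    unfold psize
    have h1 := List.length_le_sum_of_one_le (π.map Fm.size) (by
      intro i hi
      rw [List.mem_map] at hi
      obtain ⟨A, _, rfl⟩ := hi
      exact PA_size_pos A)
    rw [List.length_map] at h1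
    exact h1
  have hΦlen : (π.filter fun A => PQX P Λ A).length ≤ N := (List.length_filter_le _ _).trans (hsz.trans hlt)
  have hUd' : (P + 1) ^ ((P + 1) * t) * Module.finrank K ↥(RspG g σ t (2 * T) Λ ⊓ g.M 0) ≤
      (P + 1) ^ ((P + 1) * t) * Module.finrank K U + N * (P ^ ((P + 1) * t) * (A * D)) := by
    rw [Nat.mul_zero, Nat.mul_zero, Nat.mul_zero] at hUd
    exact hUd.trans (Nat.add_le_add_left (Nat.mul_le_mul hΦlen (le_of_eq (Nat.add_zero _))) _)
  have hU : D ≤ 2 * Module.finrank K U :=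
    MS_arith (t := t) (v := v) (C := 200 + w) (by omega) hN hvN hCN
      (hlen.trans (Nat.mul_le_mul_left _ hlt)) (PQ_bern P t) (Nat.one_le_pow _ _ (by omega)) hWd' hUd'
  have hne' : U ≠ ⊥ := by
    intro hbot
    rw [hbot, finrank_bot] at hU
    omega
  obtain ⟨x, hx, hx0⟩ := Submodule.exists_mem_ne_zero_of_ne_bot hne'
  have hx' := hU0 hx
  rw [Submodule.mem_inf] at hx'
  obtain ⟨f, hf⟩ : ∃ f, f = (x : Fin (s.L + 1) → E) ⟨0, by omega⟩ := ⟨_, rfl⟩
  have hfM : f ∈ s.M 0 := by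
    rw [hf]
    exact x.2 ⟨0, by omega⟩
  have hf0 : f ≠ 0 := by
    intro h
    apply hx0
    apply Subtype.ext
    funext i
    by_cases hi : (i : ℕ) = 0
    · have h1 : i = ⟨0, by omega⟩ := Fin.ext hi
      rw [h1, ← hf, h]
      rfl
    · have h2 := hx'.2
      rw [hg] at h2
      exact h2 i hi
  -- transfer
  have hZ : ∀ a ≤ s.L, ∀ P ∈ Dg K n a, g.hact a P x = 0 → s.Z f P := by
    intro a ha P hP h
    unfold Slow.Z
    rw [hg] at h
    have h2 := hx'.2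
    rw [hg] at h2
    have h3 := rees_act s ha h2 hP
    rw [h] at h3
    rw [hf, ← h3]
    rfl
  have hresp : ∀ B ∈ Λ, s.RespS σ t f B := by
    intro B hB
    by_cases hcn : ∃ k l, B = cnL k l
    · obtain ⟨k, l, rfl⟩ := hcn
      rw [resp_iff]
      intro b hb
      have h1 := RspG_resp g σ ht hdep (by rw [← hT]; exact hx'.1) hB k l rfl b hb
      exact hZ _ b6 _ h1.1 h1.2
    · exact resp_triv s σ t f B fun k l h => hcn ⟨k, l, h⟩
  have hlines := PQ_lines s σ ht hfM S hS hv F π hπ.1 (fun C hC hCπ => ?_) Λ hsub hresp hdata (fun A hA hX => ?_) b1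
  · have h11 := hlines _ hπ.2.2
    rw [bot_val, sub_zero] at h11
    exact hf0 (Z_one s h11)
  · have hRC := hresp _ (hsub _ hCπ _ (subs_self _))
    have hCd : σ.h t (clauseFm C : Fm p) ∈ Dg K n (TT p t d) := TT_h σ ht (hπ.1 _ hCπ)
    exact clause_okSW (T := TT p t d) s σ hfM C (fun m hm hl => hcl C hC (TT p t d) (by omega) m hm hl) hRC hCd (by omega)
  · have h1 : σ.h t A ∈ Dg K n (TT p t d) := TT_h σ ht (hπ.1 A hA)
    refine hZ (TT p t d) (by omega) _ (Submodule.sub_mem _ (Dg_one _) h1) ?_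
    rw [← hT]
    exact hUR x hx A (by
      rw [List.mem_filter]
      exact ⟨hA, by simpa using hX⟩)

/-- Theorem A with axioms; `C` depends only on the width. -/
theorem outSR (p w : ℕ) [Fact p.Prime] : ∃ C : ℕ, ∀ (S : List (Rule p)) (v : ℕ), (∀ R ∈ S, R.Sound) → (∀ R ∈ S, R.vars ≤ v) →
    ∀ (d n : ℕ) (F : CNF) (L A N t P : ℕ), (∀ C ∈ F, C.length ≤ w) → HasSlow p n F L A →
    1 ≤ t → C * (P + v + 1) * (p * t) ^ (d + 2) ≤ L → v ≤ N → C * N ^ 2 * A * 2 ^ t < 3 ^ t →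
    ∀ π : List (Fm p), RefutesR S d P F π → N < psize π := by
  obtain ⟨C, hC⟩ := outSRW p w
  exact ⟨C, fun S v hS hv d n F L A N t P hF hs => hC S v hS hv d n F L A N t P (hs.toW hF)⟩

end PPh.Sd
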