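import Pool.Agent.H75.PQ.RankG

/-!
helper75 (project MP_28250c_PQ): the two families of axioms satisfy `Mat`.
-/

set_option autoImplicit false
open Finset

namespace PPh.Sd

open ACpFrege

variable {K : Type} [Field K] {n : ℕ} {p : ℕ}

/-- `A` is an axiom whose auxiliary gates are in `Λ`. -/
def PQX (P : ℕ) (Λ : List (Fm p)) (A : Fm p) : Prop :=
  (∃ (m r : ℕ) (ψ : Fin m → Fin r → Fm p), 1 ≤ m ∧ (P + 1) * r ≤ P * m ∧
      A = phpFm ψ ∧ ∀ i j, j ≤ r → cnL true ((phRow ψ i).take j) ∈ Λ) ∨ IsRk P A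

theorem PQX_Mat [Fact p.Prime] [CharP K p] (σ : Sel K n) {t d P : ℕ} (ht : 1 ≤ t) {Λ : List (Fm p)} {A : Fm p}
    (hd : A.dep 0 ≤ d) (hs : ∀ B ∈ A.subs, B ∈ Λ) (hA : PQX P Λ A) : Mat p K σ t d P Λ A := by
  classical
  rcases hA with ⟨m, r, ψ, hm, hP, rfl, hz⟩ | ⟨m, r, a, b, hm, hP, rfl⟩
  · have hrow : ∀ i, ∀ A ∈ phRow ψ i, A.dep 0 ≤ d := fun i A hA =>
      (dep_subs (subs_trans (phRow_sub ψ i) (subs_mem_cnL hA))).trans hd
    refine ⟨m, r, fun i j => σ.py t (phRow ψ i) j (ψ i j), fun j i => σ.py t (phRow ψ i) j (ψ i j), hm, hP,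
      fun i j => pyG_dg σ ht (hrow i) j (phRow_mem ψ i j), fun j i => pyG_dg σ ht (hrow i) j (phRow_mem ψ i j), ?_⟩
    intro E _ _ g w hR hZ i i'
    exact phpG_mat g σ ht ψ hd (fun B hB => hR B (hs B hB)) (fun i j hj => hR _ (hz i j hj)) hZ i i'
  · have hda : ∀ i j, (∃ i', b j i' ≠ []) → ∀ A ∈ a i j, A.dep 0 ≤ d := by
      rintro i j ⟨i', hne⟩ A hA
      obtain ⟨B, hB⟩ := List.exists_mem_of_ne_nil _ hne
      exact (dep_subs (subs_trans (rk_sub hA hB) (subs_mem_cnL (by simp)))).trans hd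
    have hdb : ∀ j i', (∃ i, a i j ≠ []) → ∀ B ∈ b j i', B.dep 0 ≤ d := by
      rintro j i' ⟨i, hne⟩ B hB
      obtain ⟨A, hA⟩ := List.exists_mem_of_ne_nil _ hne
      exact (dep_subs (subs_trans (rk_sub hA hB) (subs_mem_cnL (by simp)))).trans hd
    refine ⟨m, r, fun i j => if (∃ i', b j i' ≠ []) then σ.ent t (a i j) else 0,
      fun j i' => if (∃ i, a i j ≠ []) then σ.ent t (b j i') else 0, hm, hP, ?_, ?_, ?_⟩
    · intro i j
      dsimp only
      by_cases h : ∃ i', b j i' ≠ []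
      · rw [if_pos h]
        exact Dg_mono (by omega) (ent_dg σ ht (hda i j h))
      · rw [if_neg h]
        exact Submodule.zero_mem _
    · intro j i'
      dsimp only
      by_cases h : ∃ i, a i j ≠ []
      · rw [if_pos h]
        exact Dg_mono (by omega) (ent_dg σ ht (hdb j i' h))
      · rw [if_neg h]
        exact Submodule.zero_mem _
    · intro E _ _ g w hR hZ i i'
      have h1 := rkG_mat g σ ht a b hd (fun B hB => hR B (hs B hB)) hZ i i'
      have h0 : σ.ent t ([] : List (Fm p)) = 0 := rfl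
      have h2 : (∑ j : Fin r, (if (∃ i', b j i' ≠ []) then σ.ent t (a i j) else 0) *
          (if (∃ i, a i j ≠ []) then σ.ent t (b j i') else 0)) = ∑ j : Fin r, σ.ent t (a i j) * σ.ent t (b j i') := by
        refine Finset.sum_congr rfl fun j _ => ?_
        by_cases h : ∃ i', b j i' ≠ []
        · rw [if_pos h]
          by_cases h' : ∃ i, a i j ≠ []
          · rw [if_pos h']
          · rw [if_neg h', mul_zero]
            have h3 : a i j = [] := by
              by_contra hne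
              exact h' ⟨i, hne⟩
            rw [h3, h0, zero_mul]
        · rw [if_neg h, zero_mul]
          have h3 : b j i' = [] := by
            by_contra hne
            exact h ⟨i', hne⟩
          rw [h3, h0, mul_zero]
      rw [h2]
      exact h1

end PPh.Sd
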