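import Pool.Agent.H75.PQ.Kl
import Pool.Agent.H75.PA.Php

/-!
helper75 (project MP_28250c_PQ): what a vector of a graded module sees on which an instance of the pigeonhole principle fails (graded form
of H75/PA/Vec and H75/PA/Php).
-/

set_option autoImplicit false
open Finset

namespace PPh.Sd

open ACpFrege

variable {K : Type} [Field K] {E : Type} [AddCommGroup E] [Module K E] {n : ℕ} {p : ℕ}

/-- The first true member of the list `l` is the one with index `j`. -/
noncomputable def Sel.py (σ : Sel K n) (t : ℕ) (l : List (Fm p)) (j : ℕ) (A : Fm p) : Pt n → K :=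
  (1 - σ.h t (cnL true (l.take j))) * σ.h t A

private theorem PQ_pl (g : Pt n → K) : pl true g = g := by
  unfold pl
  rw [if_pos rfl]

private theorem PQ_plf (g : Pt n → K) : pl false g = 1 - g := by
  unfold pl
  rw [if_neg Bool.false_ne_true]

private theorem PQ_idem {g : Pt n → K} (h : Bv g) : g * g = g := by
  funext x
  show g x * g x = g x
  rcases h x with h | h
  · rw [h, mul_zero]
  · rw [h, mul_one]

theorem pyG_bv [Fact p.Prime] [CharP K p] (σ : Sel K n) (t : ℕ) (l : List (Fm p)) (j : ℕ) (A : Fm p) :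
    σ.py t l j A * σ.py t l j A = σ.py t l j A := by
  funext x
  show (1 - σ.h t (cnL true (l.take j)) x) * σ.h t A x * ((1 - σ.h t (cnL true (l.take j)) x) * σ.h t A x) =
    (1 - σ.h t (cnL true (l.take j)) x) * σ.h t A x
  rcases h_bv σ t (cnL true (l.take j)) x with h | h
  · rcases h_bv σ t A x with h' | h'
    · rw [h']
      ring
    · rw [h, h']
      ring
  · rw [h]
    ring

theorem pyG_dg [Fact p.Prime] (σ : Sel K n) {t d : ℕ} (ht : 1 ≤ t) {l : List (Fm p)} (hl : ∀ A ∈ l, A.dep 0 ≤ d) (j : ℕ)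
    {A : Fm p} (hA : A ∈ l) : σ.py t l j A ∈ Dg K n (2 * TT p t d) := by
  have h1 : σ.h t (cnL true (l.take j)) ∈ Dg K n (TT p t d) :=
    TT_cnL σ ht (l := l.take j) (fun A hA => hl A (List.mem_of_mem_take hA)) true
  rw [two_mul]
  exact Dg_mul (Submodule.sub_mem _ (Dg_one _) h1) (TT_h σ ht (hl A hA))

/-- One step of the telescoping sum. -/
theorem pyG_step [Fact p.Prime] [CharP K p] (g : Gm K E n) (σ : Sel K n) {t d : ℕ} (ht : 1 ≤ t) {w : E}
    {l : List (Fm p)} (hl : ∀ A ∈ l, A.dep 0 ≤ d) (hR : ∀ A ∈ l, RespK g σ t (2 * TT p t d) w A)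
    (hR' : ∀ j, j ≤ l.length → RespK g σ t (2 * TT p t d) w (cnL true (l.take j))) {j : ℕ}
    (hj : j < l.length) : Kl g w (6 * TT p t d) (σ.h t (cnL true (l.take (j + 1))) - σ.h t (cnL true (l.take j)) -
      σ.py t l j l[j]) := by
  obtain ⟨T, hT⟩ : ∃ T, T = TT p t d := ⟨_, rfl⟩
  obtain ⟨a, ha⟩ : ∃ a, a = σ.h t (cnL true (l.take (j + 1))) := ⟨_, rfl⟩
  obtain ⟨b, hb⟩ : ∃ b, b = σ.h t (cnL true (l.take j)) := ⟨_, rfl⟩
  obtain ⟨c, hc⟩ : ∃ c, c = σ.h t l[j] := ⟨_, rfl⟩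
  have hlj : ∀ j, ∀ A ∈ l.take j, A.dep 0 ≤ d := fun j A hA => hl A (List.mem_of_mem_take hA)
  have hRj : ∀ j, ∀ A ∈ l.take j, RespK g σ t (2 * TT p t d) w A := fun j A hA => hR A (List.mem_of_mem_take hA)
  have hda : a ∈ Dg K n T := by
    rw [ha, hT]
    exact TT_cnL σ ht (hlj (j + 1)) true
  have hdb : b ∈ Dg K n T := by
    rw [hb, hT]
    exact TT_cnL σ ht (hlj j) true
  have hdc : c ∈ Dg K n T := by
    rw [hc, hT]
    exact TT_h σ ht (hl _ (List.getElem_mem hj))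
  have hmem : l[j] ∈ l.take (j + 1) := by
    rw [List.mem_take_iff_getElem]
    exact ⟨j, by omega, rfl⟩
  have hsub : ∀ A ∈ l.take j, A ∈ l.take (j + 1) := by
    intro A hA
    rw [List.mem_take_iff_getElem] at hA ⊢
    obtain ⟨i, hi, rfl⟩ := hA
    exact ⟨i, by omega, rfl⟩
  have hg1 : ∀ A ∈ l.take (j + 1), Kl g w (3 * T) ((1 - a) * σ.h t A) := by
    intro A hA
    have := gate_memG g σ ht (hlj (j + 1)) (hR' (j + 1) (by omega)) hA
    rw [PQ_pl, PQ_pl, ← ha, ← hT] at this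
    exact this
  have hg0 : ∀ A ∈ l.take j, Kl g w (3 * T) ((1 - b) * σ.h t A) := by
    intro A hA
    have := gate_memG g σ ht (hlj j) (hR' j (by omega)) hA
    rw [PQ_pl, PQ_pl, ← hb, ← hT] at this
    exact this
  have hA1 : Kl g w (5 * T) ((1 - a) * b) := by
    have := gate_of_memG g σ (c := T) (c' := 3 * T) ht (hlj j) (hRj j) (P := 1 - a) (Submodule.sub_mem _ (Dg_one _) hda)
      (by rw [← hT]; omega) (k := true) (fun A hA => by rw [PQ_pl]; exact hg1 A (hsub A hA))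
    rw [PQ_pl, ← hb, ← hT] at this
    exact Kl_up this (by omega)
  have hA2 : Kl g w (3 * T) ((1 - a) * c) := by
    rw [hc]
    exact hg1 _ hmem
  have hA3 : Kl g w (6 * T) ((1 - b) * (1 - c) * a) := by
    have := gate_of_memG g σ (c := 2 * T) (c' := 4 * T) ht (hlj (j + 1)) (hRj (j + 1)) (P := (1 - b) * (1 - c))
      (by
        rw [two_mul]
        exact Dg_mul (Submodule.sub_mem _ (Dg_one _) hdb) (Submodule.sub_mem _ (Dg_one _) hdc)) (by rw [← hT]; omega)
      (k := true) (fun A hA => by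
        rw [PQ_pl]
        rw [List.mem_take_iff_getElem] at hA
        obtain ⟨i, hi, rfl⟩ := hA
        rcases Nat.lt_or_ge i j with hij | hij
        · have h1 := hg0 l[i] (by rw [List.mem_take_iff_getElem]; exact ⟨i, by omega, rfl⟩)
          have h2 := Kl_mul' (c := 4 * T) (Submodule.sub_mem _ (Dg_one _) hdc : 1 - c ∈ Dg K n T) h1 (by omega)
          have h3 : (1 - b) * (1 - c) * σ.h t l[i] = (1 - c) * ((1 - b) * σ.h t l[i]) := by ring
          rw [h3]
          exact h2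
        · have hij' : i = j := by omega
          subst hij'
          have h3 : (1 - b) * (1 - c) * σ.h t l[i] = 0 := by
            rw [← hc]
            have h4 : (1 - c) * c = 0 := by
              have := PQ_idem (h_bv σ t l[i])
              rw [← hc] at this
              rw [sub_mul, one_mul, this, sub_self]
            rw [mul_assoc, h4, mul_zero]
          rw [h3]
          exact Kl_zero g w _)
    rw [PQ_pl, ← ha, ← hT] at this
    exact Kl_up this (by omega)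
  have hid : a - b - σ.py t l j l[j] = (1 - b) * (1 - c) * a - (1 - a) * b - (1 - a) * c + c * ((1 - a) * b) := by
    unfold Sel.py
    rw [← hb, ← hc]
    ring
  rw [← ha, ← hb, hid, ← hT]
  refine Kl_add (Kl_sub (Kl_sub hA3 (Kl_up hA1 (by omega))) (Kl_up hA2 (by omega))) ?_
  exact Kl_mul' hdc hA1 (by omega)

/-- The telescoping sum. -/
theorem pyG_sum [Fact p.Prime] [CharP K p] (g : Gm K E n) (σ : Sel K n) {t d : ℕ} (ht : 1 ≤ t) {w : E}
    {l : List (Fm p)} (hl : ∀ A ∈ l, A.dep 0 ≤ d) (hR : ∀ A ∈ l, RespK g σ t (2 * TT p t d) w A)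
    (hR' : ∀ j, j ≤ l.length → RespK g σ t (2 * TT p t d) w (cnL true (l.take j))) (k : ℕ)
    (hk : k ≤ l.length) : Kl g w (6 * TT p t d) (σ.h t (cnL true (l.take k)) -
      ∑ j : Fin k, σ.py t l j (l[(j : ℕ)]'(lt_of_lt_of_le j.2 hk))) := by
  induction k with
  | zero =>
    rw [List.take_zero, bot_val, Finset.univ_eq_empty, Finset.sum_empty, sub_zero]
    exact Kl_zero g w _
  | succ k ih =>
    have h1 := ih (by omega)
    have h2 := pyG_step g σ ht hl hR hR' (show k < l.length by omega)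
    rw [Fin.sum_univ_castSucc]
    have h3 := Kl_add h1 h2
    have h4 : σ.h t (cnL true (l.take k)) - ∑ j : Fin k, σ.py t l j (l[(j : ℕ)]'(lt_of_lt_of_le j.2 (by omega))) +
        (σ.h t (cnL true (l.take (k + 1))) - σ.h t (cnL true (l.take k)) - σ.py t l k (l[k]'(by omega))) =
        σ.h t (cnL true (l.take (k + 1))) -
        (∑ j : Fin k, σ.py t l j (l[(j : ℕ)]'(lt_of_lt_of_le j.2 (by omega))) + σ.py t l k (l[k]'(by omega))) := by ring
    rw [h4] at h3
    exact h3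

/-- If the disjunction `A` of `l` is false on `w` then its members are. -/
theorem or_mem [Fact p.Prime] [CharP K p] (g : Gm K E n) (σ : Sel K n) {t d : ℕ} (ht : 1 ≤ t) {w : E} {l : List (Fm p)}
    (hl : ∀ A ∈ l, A.dep 0 ≤ d) (hR : RespK g σ t (2 * TT p t d) w (cnL true l))
    (hZ : Kl g w (TT p t d) (σ.h t (cnL true l))) {B : Fm p} (hB : B ∈ l) : Kl g w (3 * TT p t d) (σ.h t B) := by
  have h1 := gate_memG g σ ht hl hR hB
  rw [PQ_pl, PQ_pl] at h1
  have h2 := Kl_mul' (c := 3 * TT p t d) (TT_h σ ht (hl B hB)) hZ (by omega)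
  have h3 : σ.h t B = (1 - σ.h t (cnL true l)) * σ.h t B + σ.h t B * σ.h t (cnL true l) := by
    ring
  rw [h3]
  exact Kl_add h1 h2

/-- The value of a conjunction of two formulas. -/
theorem and_val [Fact p.Prime] [CharP K p] (g : Gm K E n) (σ : Sel K n) {t d : ℕ} (ht : 1 ≤ t) {w : E} {A B : Fm p}
    (hA : A.dep 0 ≤ d) (hB : B.dep 0 ≤ d) (hRA : RespK g σ t (2 * TT p t d) w A) (hRB : RespK g σ t (2 * TT p t d) w B) :
    Kl g w (5 * TT p t d) (σ.h t A * σ.h t B * (1 - σ.h t (cnL false [A, B]))) := by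
  have hl : ∀ C ∈ [A, B], C.dep 0 ≤ d ∧ RespK g σ t (2 * TT p t d) w C := by
    intro C hC
    simp only [List.mem_cons, List.not_mem_nil, or_false] at hC
    rcases hC with rfl | rfl
    · exact ⟨hA, hRA⟩
    · exact ⟨hB, hRB⟩
  have hP : σ.h t A * σ.h t B ∈ Dg K n (2 * TT p t d) := by
    rw [two_mul]
    exact Dg_mul (TT_h σ ht hA) (TT_h σ ht hB)
  have h2 := gate_of_memG g σ (c := 2 * TT p t d) (c' := 3 * TT p t d) ht (fun C hC => (hl C hC).1)
    (fun C hC => (hl C hC).2) hP (by omega) (k := false) (fun C hC => by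
      simp only [List.mem_cons, List.not_mem_nil, or_false] at hC
      have h0 : σ.h t A * σ.h t B * pl false (σ.h t C) = 0 := by
        funext x
        show σ.h t A x * σ.h t B x * (pl false (σ.h t C)) x = 0
        rw [PQ_plf]
        show σ.h t A x * σ.h t B x * (1 - σ.h t C x) = 0
        rcases hC with rfl | rfl
        · rcases h_bv σ t C x with h | h <;> rw [h] <;> ring
        · rcases h_bv σ t C x with h | h <;> rw [h] <;> ring
      rw [h0]
      exact Kl_zero g w _)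
  rw [PQ_plf] at h2
  exact Kl_up h2 (by omega)

/-- The value of a conjunction of two formulas is the product of the values, on a vector which respects the gates. -/
theorem and_val' [Fact p.Prime] [CharP K p] (g : Gm K E n) (σ : Sel K n) {t d : ℕ} (ht : 1 ≤ t) {w : E} {A B : Fm p}
    (hA : A.dep 0 ≤ d) (hB : B.dep 0 ≤ d) (hAB : (cnL false [A, B]).dep 0 ≤ d) (hRA : RespK g σ t (2 * TT p t d) w A)
    (hRB : RespK g σ t (2 * TT p t d) w B)
    (hR : RespK g σ t (2 * TT p t d) w (cnL false [A, B])) :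
    Kl g w (5 * TT p t d) (σ.h t (cnL false [A, B]) - σ.h t A * σ.h t B) := by
  have hl : ∀ C ∈ [A, B], C.dep 0 ≤ d := by
    intro C hC
    simp only [List.mem_cons, List.not_mem_nil, or_false] at hC
    rcases hC with rfl | rfl
    · exact hA
    · exact hB
  have h1 := gate_memG g σ ht hl hR (A := A) (by simp)
  have h2 := gate_memG g σ ht hl hR (A := B) (by simp)
  rw [PQ_plf, PQ_plf, sub_sub_cancel] at h1 h2
  have h3 := and_val g σ ht hA hB hRA hRB
  have h4 := Kl_mul' (c := 4 * TT p t d) (TT_h σ ht hA) h2 (by omega)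
  have h5 : σ.h t (cnL false [A, B]) - σ.h t A * σ.h t B = σ.h t (cnL false [A, B]) * (1 - σ.h t A) +
      σ.h t A * (σ.h t (cnL false [A, B]) * (1 - σ.h t B)) - σ.h t A * σ.h t B * (1 - σ.h t (cnL false [A, B])) := by ring
  rw [h5]
  exact Kl_sub (Kl_add (Kl_up h1 (by omega)) (Kl_up h4 (by omega))) h3

/-- Every pigeon is in a hole. -/
theorem phpG_row [Fact p.Prime] [CharP K p] (g : Gm K E n) (σ : Sel K n) {t d : ℕ} (ht : 1 ≤ t) {w : E} {m r : ℕ}
    (ψ : Fin m → Fin r → Fm p) (hd : (phpFm ψ).dep 0 ≤ d) (hR : ∀ B ∈ (phpFm ψ).subs, RespK g σ t (2 * TT p t d) w B)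
    (hR' : ∀ i, ∀ j, j ≤ r → RespK g σ t (2 * TT p t d) w (cnL true ((phRow ψ i).take j)))
    (hZ : Kl g w (TT p t d) (σ.h t (phpFm ψ))) (i : Fin m) :
    Kl g w (6 * TT p t d) (1 - ∑ j : Fin r, σ.py t (phRow ψ i) j (ψ i j)) := by
  have hdm : ∀ A ∈ phMem ψ, A.dep 0 ≤ d := fun A hA => (dep_subs (subs_mem_cnL (k := true) hA)).trans hd
  have h1 := or_mem g σ ht hdm (hR _ (subs_self _)) hZ (phMem_row ψ i)
  rw [h_neg] at h1
  have hl : ∀ A ∈ phRow ψ i, A.dep 0 ≤ d := fun A hA =>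
    (dep_subs (subs_trans (phRow_sub ψ i) (subs_mem_cnL hA))).trans hd
  have hRl : ∀ A ∈ phRow ψ i, RespK g σ t (2 * TT p t d) w A := fun A hA => hR A (subs_trans (phRow_sub ψ i) (subs_mem_cnL hA))
  have h2 := pyG_sum g σ ht hl hRl (fun j hj => hR' i j (by rw [phRow_length] at hj; exact hj)) r
    (by rw [phRow_length])
  have h3 : (phRow ψ i).take r = phRow ψ i := by
    rw [List.take_of_length_le]
    rw [phRow_length]
  rw [h3] at h2
  have h4 : (∑ j : Fin r, σ.py t (phRow ψ i) j ((phRow ψ i)[(j : ℕ)]'(by rw [phRow_length]; exact j.2))) =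
      ∑ j : Fin r, σ.py t (phRow ψ i) j (ψ i j) := Finset.sum_congr rfl fun j _ => by rw [phRow_get]
  have h5 := Kl_add (Kl_up h1 (show 3 * TT p t d ≤ 6 * TT p t d by omega)) h2
  rw [h4] at h5
  have h6 : 1 - σ.h t (cnL true (phRow ψ i)) + (σ.h t (cnL true (phRow ψ i)) - ∑ j : Fin r, σ.py t (phRow ψ i) j (ψ i j)) =
      1 - ∑ j : Fin r, σ.py t (phRow ψ i) j (ψ i j) := by ring
  rw [h6] at h5
  exact h5

private theorem PQ_col [Fact p.Prime] [CharP K p] (g : Gm K E n) (σ : Sel K n) {t d : ℕ} (ht : 1 ≤ t) {w : E} {m r : ℕ}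
    (ψ : Fin m → Fin r → Fm p) (hd : (phpFm ψ).dep 0 ≤ d) (hR : ∀ B ∈ (phpFm ψ).subs, RespK g σ t (2 * TT p t d) w B)
    (hZ : Kl g w (TT p t d) (σ.h t (phpFm ψ))) {i i' : Fin m} (h : i < i') (j : Fin r) :
    Kl g w (5 * TT p t d) (σ.h t (ψ i j) * σ.h t (ψ i' j)) := by
  have hdm : ∀ A ∈ phMem ψ, A.dep 0 ≤ d := fun A hA => (dep_subs (subs_mem_cnL (k := true) hA)).trans hd
  have h1 := or_mem g σ ht hdm (hR _ (subs_self _)) hZ (phMem_col ψ h j)
  have hP : σ.h t (ψ i j) * σ.h t (ψ i' j) ∈ Dg K n (2 * TT p t d) := by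
    rw [two_mul]
    exact Dg_mul (TT_h σ ht ((dep_subs (ph_sub ψ i j)).trans hd)) (TT_h σ ht ((dep_subs (ph_sub ψ i' j)).trans hd))
  have h2 := and_val g σ ht ((dep_subs (ph_sub ψ i j)).trans hd) ((dep_subs (ph_sub ψ i' j)).trans hd)
    (hR _ (ph_sub ψ i j)) (hR _ (ph_sub ψ i' j))
  have h3 := Kl_mul' (c := 5 * TT p t d) hP h1 (by omega)
  have h5 : σ.h t (ψ i j) * σ.h t (ψ i' j) = σ.h t (ψ i j) * σ.h t (ψ i' j) *
      (1 - σ.h t (cnL false [ψ i j, ψ i' j])) + σ.h t (ψ i j) * σ.h t (ψ i' j) * σ.h t (cnL false [ψ i j, ψ i' j]) := by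
    ring
  rw [h5]
  exact Kl_add h2 h3

/-- No two pigeons are in the same hole. -/
theorem phpG_col [Fact p.Prime] [CharP K p] (g : Gm K E n) (σ : Sel K n) {t d : ℕ} (ht : 1 ≤ t) {w : E} {m r : ℕ}
    (ψ : Fin m → Fin r → Fm p) (hd : (phpFm ψ).dep 0 ≤ d) (hR : ∀ B ∈ (phpFm ψ).subs, RespK g σ t (2 * TT p t d) w B)
    (hZ : Kl g w (TT p t d) (σ.h t (phpFm ψ))) {i i' : Fin m} (h : i ≠ i') (j : Fin r) :
    Kl g w (7 * TT p t d) (σ.py t (phRow ψ i) j (ψ i j) * σ.py t (phRow ψ i') j (ψ i' j)) := by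
  have hc : Kl g w (5 * TT p t d) (σ.h t (ψ i j) * σ.h t (ψ i' j)) := by
    rcases lt_or_gt_of_ne h with h | h
    · exact PQ_col g σ ht ψ hd hR hZ h j
    · rw [mul_comm (σ.h t (ψ i j)) (σ.h t (ψ i' j))]
      exact PQ_col g σ ht ψ hd hR hZ h j
  have hz : ∀ i, σ.h t (cnL true ((phRow ψ i).take j)) ∈ Dg K n (TT p t d) := fun i =>
    TT_cnL σ ht (l := (phRow ψ i).take j) (fun A hA =>
      (dep_subs (subs_trans (phRow_sub ψ i) (subs_mem_cnL (List.mem_of_mem_take hA)))).trans hd) true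
  have h1 := Kl_mul' (c := 7 * TT p t d) (Dg_mul (Submodule.sub_mem _ (Dg_one _) (hz i)) (Submodule.sub_mem _ (Dg_one _) (hz i')))
    hc (by omega)
  have h2 : σ.py t (phRow ψ i) j (ψ i j) * σ.py t (phRow ψ i') j (ψ i' j) =
      (1 - σ.h t (cnL true ((phRow ψ i).take j))) * (1 - σ.h t (cnL true ((phRow ψ i').take j))) *
        (σ.h t (ψ i j) * σ.h t (ψ i' j)) := by
    unfold Sel.py
    ring
  rw [h2]
  exact h1

/-- The matrix identity of a failing instance of the pigeonhole principle. -/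
theorem phpG_mat [Fact p.Prime] [CharP K p] (g : Gm K E n) (σ : Sel K n) {t d : ℕ} (ht : 1 ≤ t) {w : E} {m r : ℕ}
    (ψ : Fin m → Fin r → Fm p) (hd : (phpFm ψ).dep 0 ≤ d) (hR : ∀ B ∈ (phpFm ψ).subs, RespK g σ t (2 * TT p t d) w B)
    (hR' : ∀ i, ∀ j, j ≤ r → RespK g σ t (2 * TT p t d) w (cnL true ((phRow ψ i).take j)))
    (hZ : Kl g w (TT p t d) (σ.h t (phpFm ψ))) (i i' : Fin m) :
    Kl g w (8 * TT p t d) (∑ j : Fin r, σ.py t (phRow ψ i) j (ψ i j) * σ.py t (phRow ψ i') j (ψ i' j) -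
      if i = i' then 1 else 0) := by
  by_cases h : i = i'
  · subst h
    rw [if_pos rfl]
    have h1 := phpG_row g σ ht ψ hd hR hR' hZ i
    have h2 : ∑ j : Fin r, σ.py t (phRow ψ i) j (ψ i j) * σ.py t (phRow ψ i) j (ψ i j) - 1 =
        0 - (1 - ∑ j : Fin r, σ.py t (phRow ψ i) j (ψ i j)) := by
      rw [zero_sub, neg_sub]
      congr 1
      exact Finset.sum_congr rfl fun j _ => pyG_bv σ t _ _ _
    rw [h2]
    exact Kl_sub (Kl_zero g w _) (Kl_up h1 (by omega))
  · rw [if_neg h, sub_zero]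
    exact Kl_sum _ _ fun j _ => Kl_up (phpG_col g σ ht ψ hd hR hZ h j) (by omega)

end PPh.Sd
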