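import Pool.Agent.H75.PQ.RkG
import Pool.Agent.H75.PA.Dim

/-!
helper75 (project MP_28250c_PQ): the failure subspace of an instance of the weak pigeonhole principle or of the weak rank principle in a
graded module is small. `PQ_dim`: `A B = N` for an `m × r` matrix `A` and an `r × m` matrix `B` of operators gives
`m dim U ≤ r dim U1 + m dim (U ∩ ker N)`.
-/

set_option autoImplicit false
open Finset

namespace PPh.Sd

open ACpFrege

variable {K : Type} [Field K] {E : Type} [AddCommGroup E] [Module K E] {n : ℕ} {p : ℕ}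

theorem PQ_dim [FiniteDimensional K E] {m r : ℕ} (U U1 : Submodule K E) (A : Fin m → Fin r → E →ₗ[K] E)
    (B : Fin r → Fin m → E →ₗ[K] E) (N : E →ₗ[K] E) (hB : ∀ j i, ∀ w ∈ U, B j i w ∈ U1)
    (hAB : ∀ i i', ∀ w ∈ U, ∑ j, A i j (B j i' w) = if i = i' then N w else 0) :
    m * Module.finrank K U ≤ r * Module.finrank K U1 + m * Module.finrank K ↥(U ⊓ LinearMap.ker N) := by
  classical
  -- the map
  let T : Fin r → Fin m → U →ₗ[K] U1 := fun j i => LinearMap.restrict (B j i) (p := U) (q := U1) (hB j i)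
  let Φ : (Fin m → U) →ₗ[K] (Fin r → U1) :=
    LinearMap.pi fun j => ∑ i, (T j i).comp (LinearMap.proj (R := K) (φ := fun _ : Fin m => U) i)
  have hΦ : ∀ (w : Fin m → U) (j : Fin r), ((Φ w j : U1) : E) = ∑ i, B j i (w i : E) := by
    intro w j
    show (((∑ i, (T j i).comp (LinearMap.proj (R := K) (φ := fun _ : Fin m => U) i)) w : U1) : E) = _
    rw [LinearMap.sum_apply, AddSubmonoidClass.coe_finsetSum]
    rfl
  have hker : ∀ w : Fin m → U, Φ w = 0 → ∀ i, N (w i : E) = 0 := by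
    intro w hw i
    have h1 : ∀ j, ∑ i', B j i' (w i' : E) = 0 := by
      intro j
      rw [← hΦ w j, hw]
      rfl
    have h2 : ∑ j, A i j (∑ i', B j i' (w i' : E)) = N (w i : E) := by
      calc ∑ j, A i j (∑ i', B j i' (w i' : E)) = ∑ j, ∑ i', A i j (B j i' (w i' : E)) :=
            Finset.sum_congr rfl fun j _ => map_sum _ _ _
        _ = ∑ i', ∑ j, A i j (B j i' (w i' : E)) := Finset.sum_comm
        _ = ∑ i', if i = i' then N (w i' : E) else 0 := Finset.sum_congr rfl fun i' _ => hAB i i' _ (w i').2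
        _ = N (w i : E) := by
            rw [Finset.sum_ite_eq]
            exact if_pos (Finset.mem_univ i)
    rw [← h2]
    exact Finset.sum_eq_zero fun j _ => by rw [h1 j, map_zero]
  have h1 := LinearMap.finrank_range_add_finrank_ker Φ
  have h2 : Module.finrank K (LinearMap.range Φ) ≤ r * Module.finrank K U1 := by
    refine (Submodule.finrank_le _).trans (le_of_eq ?_)
    rw [Module.finrank_pi_fintype K, Finset.sum_const, Finset.card_univ, Fintype.card_fin, smul_eq_mul]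
  have h3 : Module.finrank K (Fin m → U) = m * Module.finrank K U := by
    rw [Module.finrank_pi_fintype K, Finset.sum_const, Finset.card_univ, Fintype.card_fin, smul_eq_mul]
  have h4 : Module.finrank K (LinearMap.ker Φ) ≤ m * Module.finrank K ↥(U ⊓ LinearMap.ker N) := by
    have h5 : Module.finrank K (Fin m → ↥(U ⊓ LinearMap.ker N)) = m * Module.finrank K ↥(U ⊓ LinearMap.ker N) := by
      rw [Module.finrank_pi_fintype K, Finset.sum_const, Finset.card_univ, Fintype.card_fin, smul_eq_mul]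
    rw [← h5]
    let Ψ : LinearMap.ker Φ →ₗ[K] (Fin m → ↥(U ⊓ LinearMap.ker N)) :=
      { toFun := fun w i => ⟨(w.1 i : E), ⟨(w.1 i).2, LinearMap.mem_ker.2 (hker w.1 (LinearMap.mem_ker.1 w.2) i)⟩⟩
        map_add' := fun w w' => rfl
        map_smul' := fun c w => rfl }
    refine LinearMap.finrank_le_finrank_of_injective (f := Ψ) ?_
    intro w w' h
    apply Subtype.ext
    funext i
    apply Subtype.ext
    have h6 := congrArg Subtype.val (congrFun h i)
    exact h6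
  omega

/-- The functions which kill the vectors respecting the gates of `Λ`. -/
def Sel.kf (σ : Sel K n) (t : ℕ) (Λ : List (Fm p)) : Set (Pt n → K) :=
  {P | ∃ k l b, cnL k l ∈ Λ ∧ b ∈ σ.fl t k l ∧ P = (1 - pl k (σ.gv p t k (σ.fl t k l))) * pl k b}

/-- The vectors which respect the gates of `Λ` in degree `a`. -/
noncomputable def RspG (g : Gm K E n) (σ : Sel K n) (t a : ℕ) (Λ : List (Fm p)) : Submodule K E :=
  ⨅ P ∈ σ.kf t Λ, LinearMap.ker (g.hact a P)

theorem mem_RspG (g : Gm K E n) (σ : Sel K n) (t a : ℕ) (Λ : List (Fm p)) (f : E) :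
    f ∈ RspG g σ t a Λ ↔ ∀ P ∈ σ.kf t Λ, g.hact a P f = 0 := by
  unfold RspG
  simp only [Submodule.mem_iInf, LinearMap.mem_ker]

/-- The degree of the killing functions. -/
theorem kf_dgG [Fact p.Prime] (σ : Sel K n) {t : ℕ} {d : ℕ} (ht : 1 ≤ t) {Λ : List (Fm p)}
    (hΛ : ∀ k l, cnL k l ∈ Λ → ∀ A ∈ l, A.dep 0 ≤ d) {P : Pt n → K} (hP : P ∈ σ.kf t Λ) :
    P ∈ Dg K n (2 * TT p t d) := by
  obtain ⟨k, l, b, hkl, hb, rfl⟩ := hP
  have h1 := TT_cnL σ ht (hΛ k l hkl) k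
  rw [h_cnL] at h1
  have h2 := deg_fl σ ht (hΛ k l hkl) k b hb
  rw [two_mul]
  exact Dg_mul (Submodule.sub_mem _ (Dg_one _) (pl_dg h1)) (pl_dg (Dg_mono (TT_le ht) h2))

theorem RspG_resp [Fact p.Prime] (g : Gm K E n) (σ : Sel K n) {t : ℕ} {d : ℕ} (ht : 1 ≤ t) {Λ : List (Fm p)}
    (hΛ : ∀ k l, cnL k l ∈ Λ → ∀ A ∈ l, A.dep 0 ≤ d) {f : E} (hf : f ∈ RspG g σ t (2 * TT p t d) Λ) {B : Fm p} (hB : B ∈ Λ) :
    RespK g σ t (2 * TT p t d) f B := by
  rintro k l rfl b hb
  have h : (1 - pl k (σ.gv p t k (σ.fl t k l))) * pl k b ∈ σ.kf t Λ := ⟨k, l, b, hB, hb, rfl⟩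
  exact ⟨kf_dgG σ ht hΛ h, (mem_RspG g σ t _ Λ f).1 hf _ h⟩

/-- Multiplication keeps the vectors in `RspG`. -/
theorem RspG_mul [Fact p.Prime] (g : Gm K E n) (σ : Sel K n) {t : ℕ} {d : ℕ} (ht : 1 ≤ t) {Λ : List (Fm p)}
    (hΛ : ∀ k l, cnL k l ∈ Λ → ∀ A ∈ l, A.dep 0 ≤ d) {j a : ℕ} {Q : Pt n → K} (hQ : Q ∈ Dg K n a) {m : E}
    (hm : m ∈ RspG g σ t (2 * TT p t d) Λ ⊓ g.M j) : g.hact a Q m ∈ RspG g σ t (2 * TT p t d) Λ ⊓ g.M (j + a) := by
  rw [Submodule.mem_inf] at hm ⊢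
  refine ⟨?_, g.hact_map Q hm.2⟩
  rw [mem_RspG]
  intro P hP
  have hPd := kf_dgG σ ht hΛ hP
  have h1 : g.hact (2 * TT p t d) P m = 0 := (mem_RspG g σ t _ Λ m).1 hm.1 P hP
  have h2 := LinearMap.congr_fun (g.hact_comm hPd hQ) m
  rw [Module.End.mul_apply, Module.End.mul_apply, h1, map_zero] at h2
  exact h2

/-- The formula `A` is an axiom: on every vector on which it fails there are two matrices of functions of small degree whose product is the
identity. -/
def Mat (p : ℕ) (K : Type) [Field K] {n : ℕ} (σ : Sel K n) (t d P : ℕ) (Λ : List (Fm p)) (A : Fm p) : Prop :=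
  ∃ (m r : ℕ) (α : Fin m → Fin r → Pt n → K) (β : Fin r → Fin m → Pt n → K), 1 ≤ m ∧ (P + 1) * r ≤ P * m ∧
    (∀ i j, α i j ∈ Dg K n (2 * TT p t d)) ∧ (∀ j i, β j i ∈ Dg K n (2 * TT p t d)) ∧
    ∀ (E : Type) [AddCommGroup E] [Module K E] (g : Gm K E n) (w : E), (∀ B ∈ Λ, RespK g σ t (2 * TT p t d) w B) →
      Kl g w (TT p t d) (σ.h t A) → ∀ i i', Kl g w (8 * TT p t d) (∑ j : Fin r, α i j * β j i' - if i = i' then 1 else 0)

/-- The dimension step. -/
theorem mat_step [FiniteDimensional K E] [Fact p.Prime] [CharP K p] (g : Gm K E n) (σ : Sel K n) {t d : ℕ} (ht : 1 ≤ t)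
    {Λ : List (Fm p)} (hΛ : ∀ k l, cnL k l ∈ Λ → ∀ A ∈ l, A.dep 0 ≤ d) {A : Fm p} (hd : A.dep 0 ≤ d) {P : ℕ}
    (hA : Mat p K σ t d P Λ A) {L kap : ℕ} (hkap : ∀ j < L, Module.finrank K ↥(g.M j ⊓ LinearMap.ker g.J) ≤ kap) {l : ℕ}
    (hl : l + 9 * TT p t d ≤ L) :
    (P + 1) * Module.finrank K ((RspG g σ t (2 * TT p t d) Λ ⊓ g.M l).map (g.hact (TT p t d) (1 - σ.h t A))) ≤
      P * Module.finrank K ((RspG g σ t (2 * TT p t d) Λ ⊓ g.M (l + 2 * TT p t d)).map (g.hact (TT p t d) (1 - σ.h t A))) +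
        (P + 1) * (8 * TT p t d * kap) := by
  obtain ⟨m, r, α, β, hm, hP, hα, hβ, hid⟩ := hA
  obtain ⟨T, hT⟩ : ∃ T, T = TT p t d := ⟨_, rfl⟩
  obtain ⟨b, hb⟩ : ∃ b, b = 1 - σ.h t A := ⟨_, rfl⟩
  rw [← hT] at hl hα hβ hid ⊢
  rw [← hb]
  have hdA : σ.h t A ∈ Dg K n T := by
    rw [hT]
    exact TT_h σ ht hd
  have hdb : b ∈ Dg K n T := by
    rw [hb]
    exact Submodule.sub_mem _ (Dg_one _) hdA
  have h0 : σ.h t A * b = 0 := by
    rw [hb]
    funext x
    show σ.h t A x * (1 - σ.h t A x) = 0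
    rcases h_bv σ t A x with h | h <;> rw [h] <;> ring
  have hw : ∀ w ∈ (RspG g σ t (2 * T) Λ ⊓ g.M l).map (g.hact T b), w ∈ g.M (l + T) ∧
      (∀ B ∈ Λ, RespK g σ t (2 * T) w B) ∧ Kl g w T (σ.h t A) := by
    intro w hw
    obtain ⟨u, hu, rfl⟩ := Submodule.mem_map.1 hw
    have hu' := RspG_mul g σ ht hΛ hdb (by rw [← hT]; exact hu)
    rw [Submodule.mem_inf] at hu'
    refine ⟨hu'.2, ?_, hdA, ?_⟩
    · intro B hB
      have := RspG_resp g σ ht hΛ hu'.1 hB
      rw [← hT] at this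
      exact this
    · have h2 := g.hact_mul hdA hdb
      rw [h0, g.hact_zero] at h2
      have h3 := LinearMap.congr_fun h2 u
      rw [Module.End.mul_apply] at h3
      exact h3.symm
  have key := PQ_dim ((RspG g σ t (2 * T) Λ ⊓ g.M l).map (g.hact T b)) ((RspG g σ t (2 * T) Λ ⊓ g.M (l + 2 * T)).map (g.hact T b))
    (fun i j => g.J ^ (4 * T) * g.hact (2 * T) (α i j)) (fun j i => g.hact (2 * T) (β j i)) (g.J ^ (8 * T)) ?_ ?_
  · have h1 : Module.finrank K ↥((RspG g σ t (2 * T) Λ ⊓ g.M l).map (g.hact T b) ⊓ LinearMap.ker (g.J ^ (8 * T))) ≤ 8 * T * kap := by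
      refine le_trans (Submodule.finrank_mono (inf_le_inf_right _ fun w h => (hw w h).1)) ?_
      exact GA.ker_Jpow g hkap _ _ (by omega)
    have h2 := Nat.mul_le_mul_left (P + 1) key
    have h3 : m * ((P + 1) * Module.finrank K ((RspG g σ t (2 * T) Λ ⊓ g.M l).map (g.hact T b))) ≤
        m * (P * Module.finrank K ((RspG g σ t (2 * T) Λ ⊓ g.M (l + 2 * T)).map (g.hact T b)) + (P + 1) * (8 * T * kap)) := by
      calc m * ((P + 1) * Module.finrank K ((RspG g σ t (2 * T) Λ ⊓ g.M l).map (g.hact T b))) =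
            (P + 1) * (m * Module.finrank K ((RspG g σ t (2 * T) Λ ⊓ g.M l).map (g.hact T b))) := by ring
        _ ≤ _ := h2
        _ = ((P + 1) * r) * Module.finrank K ((RspG g σ t (2 * T) Λ ⊓ g.M (l + 2 * T)).map (g.hact T b)) +
            m * ((P + 1) * Module.finrank K ↥((RspG g σ t (2 * T) Λ ⊓ g.M l).map (g.hact T b) ⊓ LinearMap.ker (g.J ^ (8 * T)))) := by ring
        _ ≤ (P * m) * Module.finrank K ((RspG g σ t (2 * T) Λ ⊓ g.M (l + 2 * T)).map (g.hact T b)) +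
            m * ((P + 1) * (8 * T * kap)) :=
          Nat.add_le_add (Nat.mul_le_mul_right _ hP) (Nat.mul_le_mul_left _ (Nat.mul_le_mul_left _ h1))
        _ = _ := by ring
    exact Nat.le_of_mul_le_mul_left h3 hm
  · intro j i w hw'
    obtain ⟨u, hu, rfl⟩ := Submodule.mem_map.1 hw'
    have hu' := RspG_mul g σ ht hΛ (hβ j i) (by rw [← hT]; exact hu)
    rw [← hT] at hu'
    refine Submodule.mem_map.2 ⟨_, hu', ?_⟩
    have h2 := LinearMap.congr_fun (g.hact_comm hdb (hβ j i)) u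
    rw [Module.End.mul_apply, Module.End.mul_apply] at h2
    exact h2
  · intro i i' w hw'
    obtain ⟨_, h2, h3⟩ := hw w hw'
    have h4 := (hid E g w h2 h3 i i').2
    have h5 : ∀ j, g.J ^ (4 * T) * g.hact (2 * T) (α i j) * g.hact (2 * T) (β j i') = g.hact (8 * T) (α i j * β j i') := by
      intro j
      rw [mul_assoc, ← g.hact_mul (hα i j) (hβ j i')]
      have h6 := g.hact_up' (Dg_mul (hα i j) (hβ j i')) (show 2 * T + 2 * T ≤ 8 * T by omega)
      rw [h6]
      congr 2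
      omega
    rw [g.hact_sub, g.hact_sum, LinearMap.sub_apply, sub_eq_zero, LinearMap.sum_apply] at h4
    calc ∑ j, (g.J ^ (4 * T) * g.hact (2 * T) (α i j)) (g.hact (2 * T) (β j i') w) = ∑ j, g.hact (8 * T) (α i j * β j i') w :=
          Finset.sum_congr rfl fun j _ => by
            rw [← h5 j]
            rfl
      _ = _ := h4
      _ = _ := by
          by_cases h : i = i'
          · rw [if_pos h, if_pos h, g.hact_one]
          · rw [if_neg h, if_neg h, g.hact_zero]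
            rfl

/-- The failure subspace is small. -/
theorem mat_rank [FiniteDimensional K E] [Fact p.Prime] [CharP K p] (g : Gm K E n) (σ : Sel K n) {t d : ℕ} (ht : 1 ≤ t)
    {Λ : List (Fm p)} (hΛ : ∀ k l, cnL k l ∈ Λ → ∀ A ∈ l, A.dep 0 ≤ d) {A : Fm p} (hd : A.dep 0 ≤ d) {P : ℕ}
    (hA : Mat p K σ t d P Λ A) {L kap Y : ℕ} (hkap : ∀ j < L, Module.finrank K ↥(g.M j ⊓ LinearMap.ker g.J) ≤ kap)
    (hY : ∀ j ≤ L, Module.finrank K (g.M j) ≤ Y) (k : ℕ) (l : ℕ) (hl : l + (2 * k + 9) * TT p t d ≤ L) :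
    (P + 1) ^ k * Module.finrank K ((RspG g σ t (2 * TT p t d) Λ ⊓ g.M l).map (g.hact (TT p t d) (1 - σ.h t A))) ≤
      P ^ k * Y + (P + 1) ^ k * (k * (8 * TT p t d * kap)) := by
  obtain ⟨T, hT⟩ : ∃ T, T = TT p t d := ⟨_, rfl⟩
  obtain ⟨W, hW⟩ : ∃ W : ℕ → Submodule K E, W = fun l => (RspG g σ t (2 * TT p t d) Λ ⊓ g.M l).map
    (g.hact (TT p t d) (1 - σ.h t A)) := ⟨_, rfl⟩
  have hstep : ∀ l, l + 9 * T ≤ L → (P + 1) * Module.finrank K (W l) ≤ P * Module.finrank K (W (l + 2 * T)) +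
      (P + 1) * (8 * T * kap) := by
    intro l hl
    have h1 := mat_step g σ ht hΛ hd hA hkap (l := l) (by rw [← hT]; exact hl)
    rw [hW, hT]
    exact h1
  have hend : ∀ l, l + T ≤ L → Module.finrank K (W l) ≤ Y := by
    intro l hl
    refine le_trans (Submodule.finrank_mono ?_) (hY (l + T) hl)
    rw [hW]
    intro w hw
    obtain ⟨u, hu, rfl⟩ := Submodule.mem_map.1 hw
    rw [Submodule.mem_inf] at hu
    rw [hT]
    exact g.hact_map _ hu.2
  have key : ∀ k l, l + (2 * k + 9) * T ≤ L → (P + 1) ^ k * Module.finrank K (W l) ≤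
      P ^ k * Y + (P + 1) ^ k * (k * (8 * T * kap)) := by
    intro k
    induction k with
    | zero =>
      intro l hl
      rw [pow_zero, pow_zero, one_mul, one_mul, zero_mul, mul_zero, add_zero]
      exact hend l (by omega)
    | succ k ih =>
      intro l hl
      have e1 : (2 * (k + 1) + 9) * T = 2 * T + (2 * k + 9) * T := by ring
      rw [e1] at hl
      have h1 := hstep l (by
        have : 9 * T ≤ (2 * k + 9) * T := Nat.mul_le_mul_right _ (by omega)
        omega)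
      have h2 := ih (l + 2 * T) (by omega)
      calc (P + 1) ^ (k + 1) * Module.finrank K (W l) = (P + 1) ^ k * ((P + 1) * Module.finrank K (W l)) := by ring
        _ ≤ (P + 1) ^ k * (P * Module.finrank K (W (l + 2 * T)) + (P + 1) * (8 * T * kap)) := Nat.mul_le_mul_left _ h1
        _ = P * ((P + 1) ^ k * Module.finrank K (W (l + 2 * T))) + (P + 1) ^ (k + 1) * (8 * T * kap) := by ring
        _ ≤ P * (P ^ k * Y + (P + 1) ^ k * (k * (8 * T * kap))) + (P + 1) ^ (k + 1) * (8 * T * kap) :=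
          Nat.add_le_add_right (Nat.mul_le_mul_left _ h2) _
        _ = P ^ (k + 1) * Y + (P * (P + 1) ^ k) * (k * (8 * T * kap)) + (P + 1) ^ (k + 1) * (8 * T * kap) := by ring
        _ ≤ P ^ (k + 1) * Y + ((P + 1) * (P + 1) ^ k) * (k * (8 * T * kap)) + (P + 1) ^ (k + 1) * (8 * T * kap) :=
          Nat.add_le_add_right (Nat.add_le_add_left (Nat.mul_le_mul_right _ (Nat.mul_le_mul_right _ (Nat.le_succ P))) _) _
        _ = _ := by ring
  have h := key k l (by rw [hT]; exact hl)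
  rw [hW, hT] at h
  exact h

end PPh.Sd
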