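import Pool.Agent.H75.PQ.MainG

/-!
helper75 (project MP_28250c_PQ): the graded module of a filtered module (`Slow`): the product of the levels, `J` is the inclusion of a level
in the next one (and zero on the last level). `J` is injective below the last level.
-/

set_option autoImplicit false
open Finset

namespace PPh.Sd

open ACpFrege

variable {K : Type} [Field K] {E : Type} [AddCommGroup E] [Module K E] {n : ℕ} {p : ℕ}

/-- The product of the levels. -/
def rSp (s : Slow K E n) : Submodule K (Fin (s.L + 1) → E) where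
  carrier := {x | ∀ j : Fin (s.L + 1), x j ∈ s.M j}
  add_mem' := fun hx hy j => Submodule.add_mem _ (hx j) (hy j)
  zero_mem' := fun _ => Submodule.zero_mem _
  smul_mem' := fun c _ hx j => Submodule.smul_mem _ c (hx j)

/-- The shift of the levels combined with an operator. -/
def rSh (L : ℕ) (T : E →ₗ[K] E) : (Fin (L + 1) → E) →ₗ[K] (Fin (L + 1) → E) where
  toFun x j := if (j : ℕ) = 0 then 0 else T (x ⟨j - 1, by omega⟩)
  map_add' x y := by
    funext j
    show (if (j : ℕ) = 0 then 0 else T ((x + y) ⟨j - 1, _⟩)) = (if (j : ℕ) = 0 then 0 else T (x ⟨j - 1, _⟩)) +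
      (if (j : ℕ) = 0 then 0 else T (y ⟨j - 1, _⟩))
    by_cases h : (j : ℕ) = 0
    · rw [if_pos h, if_pos h, if_pos h, add_zero]
    · rw [if_neg h, if_neg h, if_neg h, Pi.add_apply, map_add]
  map_smul' c x := by
    funext j
    show (if (j : ℕ) = 0 then 0 else T ((c • x) ⟨j - 1, _⟩)) = c • (if (j : ℕ) = 0 then 0 else T (x ⟨j - 1, _⟩))
    by_cases h : (j : ℕ) = 0
    · rw [if_pos h, if_pos h, smul_zero]
    · rw [if_neg h, if_neg h, Pi.smul_apply, map_smul]

theorem rSh_apply (L : ℕ) (T : E →ₗ[K] E) (x : Fin (L + 1) → E) (j : Fin (L + 1)) :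
    rSh L T x j = if (j : ℕ) = 0 then 0 else T (x ⟨j - 1, by omega⟩) := rfl

theorem rSh_mem (s : Slow K E n) {T : E →ₗ[K] E} (hT : ∀ j < s.L, ∀ m ∈ s.M j, T m ∈ s.M (j + 1)) :
    ∀ x ∈ rSp s, rSh s.L T x ∈ rSp s := by
  intro x hx j
  rw [rSh_apply]
  by_cases h : (j : ℕ) = 0
  · rw [if_pos h]
    exact Submodule.zero_mem _
  · rw [if_neg h]
    have h1 := hT (j - 1) (by omega) _ (hx ⟨j - 1, by omega⟩)
    rwa [show (j : ℕ) - 1 + 1 = j by omega] at h1

/-- The shift on the product of the levels. -/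
def rOp (s : Slow K E n) (T : E →ₗ[K] E) (hT : ∀ j < s.L, ∀ m ∈ s.M j, T m ∈ s.M (j + 1)) : rSp s →ₗ[K] rSp s :=
  (rSh s.L T).restrict (rSh_mem s hT)

theorem rOp_apply (s : Slow K E n) (T : E →ₗ[K] E) (hT : ∀ j < s.L, ∀ m ∈ s.M j, T m ∈ s.M (j + 1)) (x : rSp s)
    (j : Fin (s.L + 1)) : (rOp s T hT x : Fin (s.L + 1) → E) j = if (j : ℕ) = 0 then 0 else T ((x : Fin (s.L + 1) → E) ⟨j - 1, by omega⟩) := rfl

theorem rOp_two (s : Slow K E n) (T T' : E →ₗ[K] E) (hT : ∀ j < s.L, ∀ m ∈ s.M j, T m ∈ s.M (j + 1))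
    (hT' : ∀ j < s.L, ∀ m ∈ s.M j, T' m ∈ s.M (j + 1)) (x : rSp s) (j : Fin (s.L + 1)) :
    (rOp s T hT (rOp s T' hT' x) : Fin (s.L + 1) → E) j =
      if (j : ℕ) ≤ 1 then 0 else T (T' ((x : Fin (s.L + 1) → E) ⟨j - 2, by omega⟩)) := by
  rw [rOp_apply]
  by_cases h : (j : ℕ) = 0
  · rw [if_pos h, if_pos (by omega)]
  · rw [if_neg h, rOp_apply]
    by_cases h1 : (j : ℕ) ≤ 1
    · have h2 : ((⟨(j : ℕ) - 1, by omega⟩ : Fin (s.L + 1)) : ℕ) = 0 := by
        show (j : ℕ) - 1 = 0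
        omega
      rw [if_pos h2, if_pos h1, map_zero]
    · have h2 : ((⟨(j : ℕ) - 1, by omega⟩ : Fin (s.L + 1)) : ℕ) ≠ 0 := by
        show (j : ℕ) - 1 ≠ 0
        omega
      rw [if_neg h2, if_neg h1]
      congr 2

private theorem rees_id (s : Slow K E n) : ∀ j < s.L, ∀ m ∈ s.M j, (LinearMap.id : E →ₗ[K] E) m ∈ s.M (j + 1) :=
  fun j hj _ hm => s.up j hj hm

private theorem rees_map (s : Slow K E n) (i : Fin n) : ∀ j < s.L, ∀ m ∈ s.M j, s.X i m ∈ s.M (j + 1) :=
  fun j hj m hm => s.map i j hj m hm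

private theorem rees_two (s : Slow K E n) (T T' U U' : E →ₗ[K] E) (hT : ∀ j < s.L, ∀ m ∈ s.M j, T m ∈ s.M (j + 1))
    (hT' : ∀ j < s.L, ∀ m ∈ s.M j, T' m ∈ s.M (j + 1)) (hU : ∀ j < s.L, ∀ m ∈ s.M j, U m ∈ s.M (j + 1))
    (hU' : ∀ j < s.L, ∀ m ∈ s.M j, U' m ∈ s.M (j + 1)) (h : ∀ j, j + 2 ≤ s.L → ∀ m ∈ s.M j, T (T' m) = U (U' m)) (x : rSp s) :
    rOp s T hT (rOp s T' hT' x) = rOp s U hU (rOp s U' hU' x) := by
  apply Subtype.ext
  funext j
  rw [rOp_two, rOp_two]
  by_cases h1 : (j : ℕ) ≤ 1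
  · rw [if_pos h1, if_pos h1]
  · rw [if_neg h1, if_neg h1]
    exact h (j - 2) (by omega) _ (x.2 ⟨j - 2, by omega⟩)

/-- The level `j`. -/
def rM (s : Slow K E n) (j : ℕ) : Submodule K (rSp s) where
  carrier := {x | ∀ i : Fin (s.L + 1), (i : ℕ) ≠ j → (x : Fin (s.L + 1) → E) i = 0}
  add_mem' := fun {x y} hx hy i hi => by
    show (x : Fin (s.L + 1) → E) i + (y : Fin (s.L + 1) → E) i = 0
    rw [hx i hi, hy i hi, add_zero]
  zero_mem' := fun i _ => rfl
  smul_mem' := fun c x hx i hi => by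
    show c • (x : Fin (s.L + 1) → E) i = 0
    rw [hx i hi, smul_zero]

theorem rOp_M (s : Slow K E n) (T : E →ₗ[K] E) (hT : ∀ j < s.L, ∀ m ∈ s.M j, T m ∈ s.M (j + 1)) (j : ℕ) :
    ∀ x ∈ rM s j, rOp s T hT x ∈ rM s (j + 1) := by
  intro x hx i hi
  rw [rOp_apply]
  by_cases h : (i : ℕ) = 0
  · rw [if_pos h]
  · rw [if_neg h, hx ⟨i - 1, by omega⟩ (by
      show (i : ℕ) - 1 ≠ j
      omega), map_zero]

/-- The graded module of a filtered module. -/
def rees (s : Slow K E n) : Gm K (rSp s) n where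
  J := rOp s LinearMap.id (rees_id s)
  X := fun i => rOp s (s.X i) (rees_map s i)
  M := rM s
  mapJ := fun j m hm => rOp_M s _ _ j m hm
  mapX := fun _ j m hm => rOp_M s _ _ j m hm
  commJ := fun i m => rees_two s LinearMap.id (s.X i) (s.X i) LinearMap.id (rees_id s) (rees_map s i) (rees_map s i) (rees_id s)
    (fun _ _ _ _ => rfl) m
  comm := fun i i' m => rees_two s (s.X i) (s.X i') (s.X i') (s.X i) (rees_map s i) (rees_map s i') (rees_map s i') (rees_map s i)
    (fun j hj m hm => s.comm i i' j hj m hm) m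
  idem := fun i m => rees_two s (s.X i) (s.X i) LinearMap.id (s.X i) (rees_map s i) (rees_map s i) (rees_id s) (rees_map s i)
    (fun j hj m hm => s.idem i j hj m hm) m

theorem rees_X (s : Slow K E n) (i : Fin n) (x : rSp s) (j : Fin (s.L + 1)) :
    ((rees s).X i x : Fin (s.L + 1) → E) j = if (j : ℕ) = 0 then 0 else s.X i ((x : Fin (s.L + 1) → E) ⟨j - 1, by omega⟩) := rfl

theorem rees_J (s : Slow K E n) (x : rSp s) (j : Fin (s.L + 1)) :
    ((rees s).J x : Fin (s.L + 1) → E) j = if (j : ℕ) = 0 then 0 else (x : Fin (s.L + 1) → E) ⟨j - 1, by omega⟩ := rfl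

theorem rees_ker (s : Slow K E n) {j : ℕ} (hj : j < s.L) : (rees s).M j ⊓ LinearMap.ker (rees s).J = ⊥ := by
  rw [eq_bot_iff]
  intro x hx
  rw [Submodule.mem_inf, LinearMap.mem_ker] at hx
  obtain ⟨h1, h2⟩ := hx
  rw [Submodule.mem_bot]
  apply Subtype.ext
  funext i
  by_cases hi : (i : ℕ) = j
  · have h3 := rees_J s x ⟨j + 1, by omega⟩
    rw [h2] at h3
    have h4 : ((⟨j + 1, by omega⟩ : Fin (s.L + 1)) : ℕ) ≠ 0 := Nat.succ_ne_zero j
    rw [if_neg h4] at h3
    have h5 : (⟨((⟨j + 1, by omega⟩ : Fin (s.L + 1)) : ℕ) - 1, by omega⟩ : Fin (s.L + 1)) = i := by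
      apply Fin.ext
      show j + 1 - 1 = (i : ℕ)
      omega
    rw [h5] at h3
    exact h3.symm
  · exact h1 i hi

/-- The vector `f` in level 0. -/
def r0 (s : Slow K E n) (f : E) (hf : f ∈ s.M 0) : rSp s :=
  ⟨fun j => if (j : ℕ) = 0 then f else 0, fun j => by
    show (if (j : ℕ) = 0 then f else 0) ∈ s.M j
    by_cases h : (j : ℕ) = 0
    · rw [if_pos h, h]
      exact hf
    · rw [if_neg h]
      exact Submodule.zero_mem _⟩

theorem rees_dim_le [FiniteDimensional K E] (s : Slow K E n) (j : ℕ) (hj : j ≤ s.L) :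
    Module.finrank K ((rees s).M j) ≤ Module.finrank K (s.M j) := by
  let F : (rees s).M j →ₗ[K] s.M j :=
    { toFun := fun x => ⟨(x.1 : Fin (s.L + 1) → E) ⟨j, by omega⟩, x.1.2 ⟨j, by omega⟩⟩
      map_add' := fun _ _ => rfl
      map_smul' := fun _ _ => rfl }
  refine LinearMap.finrank_le_finrank_of_injective (f := F) ?_
  intro x y h
  have h0 := congrArg Subtype.val h
  apply Subtype.ext
  apply Subtype.ext
  funext i
  by_cases hi : (i : ℕ) = j
  · have h1 : i = ⟨j, by omega⟩ := Fin.ext hi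
    rw [h1]
    exact h0
  · rw [x.2 i hi, y.2 i hi]

theorem rees_dim_ge [FiniteDimensional K E] (s : Slow K E n) :
    Module.finrank K (s.M 0) ≤ Module.finrank K ((rees s).M 0) := by
  let F : s.M 0 →ₗ[K] (rees s).M 0 :=
    { toFun := fun f => ⟨r0 s f.1 f.2, fun i hi => if_neg hi⟩
      map_add' := fun x y => by
        apply Subtype.ext
        apply Subtype.ext
        funext i
        show (if (i : ℕ) = 0 then (x : E) + y else 0) = (if (i : ℕ) = 0 then (x : E) else 0) + (if (i : ℕ) = 0 then (y : E) else 0)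
        by_cases h : (i : ℕ) = 0
        · rw [if_pos h, if_pos h, if_pos h]
        · rw [if_neg h, if_neg h, if_neg h, add_zero]
      map_smul' := fun c x => by
        apply Subtype.ext
        apply Subtype.ext
        funext i
        show (if (i : ℕ) = 0 then c • (x : E) else 0) = c • (if (i : ℕ) = 0 then (x : E) else 0)
        by_cases h : (i : ℕ) = 0
        · rw [if_pos h, if_pos h]
        · rw [if_neg h, if_neg h, smul_zero] }
  refine LinearMap.finrank_le_finrank_of_injective (f := F) ?_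
  intro x y h
  have h0 := congrFun (congrArg Subtype.val (congrArg Subtype.val h)) ⟨0, by omega⟩
  exact Subtype.ext h0

/-- Products of operators. -/
theorem rees_prod (s : Slow K E n) (l : List (Fin n)) : ∀ (j : ℕ), ∀ x ∈ (rees s).M j, ∀ (i : Fin (s.L + 1)), (i : ℕ) = j + l.length →
    (((l.map (rees s).X).prod x : rSp s) : Fin (s.L + 1) → E) i = (l.map s.X).prod ((x : Fin (s.L + 1) → E) ⟨i - l.length, by omega⟩) := by
  induction l with
  | nil =>
    intro j x hx i hi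
    rfl
  | cons c l ih =>
    intro j x hx i hi
    rw [List.map_cons, List.map_cons, List.prod_cons, List.prod_cons, Module.End.mul_apply, Module.End.mul_apply, rees_X,
      if_neg (by rw [List.length_cons] at hi; omega), ih j x hx ⟨i - 1, by omega⟩ (by
        rw [List.length_cons] at hi
        show (i : ℕ) - 1 = j + l.length
        omega)]
    have h1 : (⟨((⟨(i : ℕ) - 1, by omega⟩ : Fin (s.L + 1)) : ℕ) - l.length, by omega⟩ : Fin (s.L + 1)) =
        ⟨(i : ℕ) - (c :: l).length, by omega⟩ := by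
      apply Fin.ext
      show (i : ℕ) - 1 - l.length = (i : ℕ) - (c :: l).length
      rw [List.length_cons]
      omega
    rw [h1]

theorem rees_Jp (s : Slow K E n) (k : ℕ) : ∀ (x : rSp s) (i : Fin (s.L + 1)), k ≤ (i : ℕ) →
    ((((rees s).J ^ k) x : rSp s) : Fin (s.L + 1) → E) i = (x : Fin (s.L + 1) → E) ⟨i - k, by omega⟩ := by
  induction k with
  | zero =>
    intro x i _
    rfl
  | succ k ih =>
    intro x i hi
    rw [pow_succ', Module.End.mul_apply, rees_J, if_neg (by omega), ih x ⟨i - 1, by omega⟩ (by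
      show k ≤ (i : ℕ) - 1
      omega)]
    have h1 : (⟨((⟨(i : ℕ) - 1, by omega⟩ : Fin (s.L + 1)) : ℕ) - k, by omega⟩ : Fin (s.L + 1)) = ⟨(i : ℕ) - (k + 1), by omega⟩ := by
      apply Fin.ext
      show (i : ℕ) - 1 - k = (i : ℕ) - (k + 1)
      omega
    rw [h1]

/-- The action on a vector of level 0. -/
theorem rees_act (s : Slow K E n) {a : ℕ} (ha : a ≤ s.L) {x : rSp s} (hx : x ∈ (rees s).M 0) {P : Pt n → K} (hP : P ∈ Dg K n a) :
    (((rees s).hact a P x : rSp s) : Fin (s.L + 1) → E) ⟨a, by omega⟩ = s.act P ((x : Fin (s.L + 1) → E) ⟨0, by omega⟩) := by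
  unfold Dg at hP
  induction hP using Submodule.span_induction with
  | mem Q hQ =>
    obtain ⟨S, hS, rfl⟩ := hQ
    rw [(rees s).hact_mono hS, act_mono, Module.End.mul_apply, rees_Jp s (a - S.card) _ ⟨a, by omega⟩ (by
      show a - S.card ≤ a
      omega)]
    have h1 := rees_prod s (S.sort (· ≤ ·)) 0 x hx ⟨S.card, by omega⟩ (by
      rw [Finset.length_sort, Nat.zero_add])
    have h2 : (⟨((⟨a, by omega⟩ : Fin (s.L + 1)) : ℕ) - (a - S.card), by omega⟩ : Fin (s.L + 1)) = ⟨S.card, by omega⟩ := by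
      apply Fin.ext
      show a - (a - S.card) = S.card
      omega
    rw [h2]
    unfold Gm.XS Slow.XS
    rw [h1]
    have h3 : (⟨((⟨S.card, by omega⟩ : Fin (s.L + 1)) : ℕ) - (S.sort (· ≤ ·)).length, by omega⟩ : Fin (s.L + 1)) = ⟨0, by omega⟩ := by
      apply Fin.ext
      show S.card - (S.sort (· ≤ ·)).length = 0
      rw [Finset.length_sort]
      omega
    rw [h3]
  | zero =>
    rw [(rees s).hact_zero, act_zero]
    rfl
  | add Q R _ _ hQ hR =>
    rw [(rees s).hact_add, act_add, LinearMap.add_apply, LinearMap.add_apply, ← hQ, ← hR]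
    rfl
  | smul c Q _ hQ =>
    rw [(rees s).hact_smul, act_smul, LinearMap.smul_apply, LinearMap.smul_apply, ← hQ]
    rfl

end PPh.Sd
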