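import Pool.Agent.H75.PQ.PhpG
import Pool.Agent.H75.PQ.Defs

/-!
helper75 (project MP_28250c_PQ): the matrix identity on a vector on which an instance of the rank principle fails.
-/

set_option autoImplicit false
open Finset

namespace PPh.Sd

open ACpFrege

variable {K : Type} [Field K] {E : Type} [AddCommGroup E] [Module K E] {n : ℕ} {p : ℕ}

/-- The members of an entry of the product. -/
def rkEnt {m r : ℕ} (a : Fin m → Fin r → List (Fm p)) (b : Fin r → Fin m → List (Fm p)) (i i' : Fin m) : List (Fm p) :=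
  (List.finRange r).flatMap fun j => (a i j).flatMap fun A => (b j i').map fun B => cnL false [A, B]

/-- The members of the rank formula. -/
def rkMem {m r : ℕ} (a : Fin m → Fin r → List (Fm p)) (b : Fin r → Fin m → List (Fm p)) : List (Fm p) :=
  (List.finRange m).flatMap fun i => (List.finRange m).map fun i' => .neg (mdL (if i = i' then 1 else 0) (rkEnt a b i i'))

theorem rkFm_eq {m r : ℕ} (a : Fin m → Fin r → List (Fm p)) (b : Fin r → Fin m → List (Fm p)) :
    rkFm a b = cnL true (rkMem a b) := rfl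

theorem rkMem_mem {m r : ℕ} (a : Fin m → Fin r → List (Fm p)) (b : Fin r → Fin m → List (Fm p)) (i i' : Fin m) :
    Fm.neg (mdL (if i = i' then 1 else 0) (rkEnt a b i i')) ∈ rkMem a b := by
  unfold rkMem
  rw [List.mem_flatMap]
  exact ⟨i, List.mem_finRange i, List.mem_map.2 ⟨i', List.mem_finRange i', rfl⟩⟩

theorem subs_mem_mdL {r : ZMod p} {l : List (Fm p)} {A : Fm p} (hA : A ∈ l) : A ∈ (mdL r l).subs := by
  unfold mdL Fm.subs
  obtain ⟨i, hi, rfl⟩ := List.mem_iff_getElem.1 hA
  refine List.mem_cons_of_mem _ ?_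
  rw [List.mem_flatten]
  exact ⟨_, (List.mem_ofFn' _ _).2 ⟨⟨i, hi⟩, rfl⟩, subs_self _⟩

theorem rkEnt_mem {m r : ℕ} {a : Fin m → Fin r → List (Fm p)} {b : Fin r → Fin m → List (Fm p)} {i i' : Fin m} {j : Fin r}
    {A B : Fm p} (hA : A ∈ a i j) (hB : B ∈ b j i') : cnL false [A, B] ∈ rkEnt a b i i' := by
  unfold rkEnt
  rw [List.mem_flatMap]
  refine ⟨j, List.mem_finRange j, ?_⟩
  rw [List.mem_flatMap]
  exact ⟨A, hA, List.mem_map.2 ⟨B, hB, rfl⟩⟩

theorem rk_sub {m r : ℕ} {a : Fin m → Fin r → List (Fm p)} {b : Fin r → Fin m → List (Fm p)} {i i' : Fin m} {j : Fin r}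
    {A B : Fm p} (hA : A ∈ a i j) (hB : B ∈ b j i') : cnL false [A, B] ∈ (rkFm a b).subs := by
  rw [rkFm_eq]
  exact subs_trans (subs_mem_cnL (rkMem_mem a b i i')) (subs_trans subs_mem_neg (subs_mem_mdL (rkEnt_mem hA hB)))

/-- The value of an entry. -/
noncomputable def Sel.ent (σ : Sel K n) (t : ℕ) (l : List (Fm p)) : Pt n → K := (l.map (σ.h t)).sum

theorem ent_dg [Fact p.Prime] (σ : Sel K n) {t d : ℕ} (ht : 1 ≤ t) {l : List (Fm p)} (hl : ∀ A ∈ l, A.dep 0 ≤ d) :
    σ.ent t l ∈ Dg K n (TT p t d) := by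
  refine listsum_dg _ fun g hg => ?_
  obtain ⟨A, hA, rfl⟩ := List.mem_map.1 hg
  exact TT_h σ ht (hl A hA)

private theorem Rk_frob [Fact p.Prime] [CharP K p] (z : ℤ) : (z : K) * (z : K) ^ (p - 1) = (z : K) := by
  have hp := (Fact.out : p.Prime).one_lt
  have h1 : (z : ZMod p) ^ p = z := ZMod.pow_card _
  have h2 := congrArg (ZMod.castHom (dvd_refl p) K) h1
  rw [map_pow, map_intCast] at h2
  rw [← pow_succ', Nat.sub_add_cancel hp.le]
  exact h2

private theorem Rk_sub {α : Type} (l : List α) (F G : α → Pt n → K) :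
    (l.map fun B => F B - G B).sum = (l.map F).sum - (l.map G).sum := by
  induction l with
  | nil => rw [List.map_nil, List.map_nil, List.map_nil, List.sum_nil, sub_zero]
  | cons A l ih =>
    rw [List.map_cons, List.map_cons, List.map_cons, List.sum_cons, List.sum_cons, List.sum_cons, ih]
    ring

theorem Kl_flat {g : Gm K E n} {σ : Sel K n} {w : E} {c t : ℕ} {α : Type} (l : List α) (f : α → List (Fm p)) (G : α → Pt n → K)
    (h : ∀ A ∈ l, Kl g w c (((f A).map (σ.h t)).sum - G A)) :
    Kl g w c (((l.flatMap f).map (σ.h t)).sum - (l.map G).sum) := by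
  induction l with
  | nil =>
    rw [List.flatMap_nil, List.map_nil, List.map_nil, List.sum_nil, sub_zero]
    exact Kl_zero g w c
  | cons A l ih =>
    have h1 := Kl_add (h A List.mem_cons_self) (ih fun B hB => h B (List.mem_cons_of_mem _ hB))
    rw [List.flatMap_cons, List.map_append, List.sum_append, List.map_cons, List.sum_cons]
    have h2 : ((f A).map (σ.h t)).sum + ((l.flatMap f).map (σ.h t)).sum - (G A + (l.map G).sum) =
        ((f A).map (σ.h t)).sum - G A + (((l.flatMap f).map (σ.h t)).sum - (l.map G).sum) := by ring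
    rw [h2]
    exact h1

/-- The matrix identity of a failing instance of the rank principle. -/
theorem rkG_mat [Fact p.Prime] [CharP K p] (g : Gm K E n) (σ : Sel K n) {t d : ℕ} (ht : 1 ≤ t) {w : E} {m r : ℕ}
    (a : Fin m → Fin r → List (Fm p)) (b : Fin r → Fin m → List (Fm p)) (hd : (rkFm a b).dep 0 ≤ d)
    (hR : ∀ B ∈ (rkFm a b).subs, RespK g σ t (2 * TT p t d) w B)
    (hZ : Kl g w (TT p t d) (σ.h t (rkFm a b))) (i i' : Fin m) :
    Kl g w (8 * TT p t d) (∑ j : Fin r, σ.ent t (a i j) * σ.ent t (b j i') - if i = i' then 1 else 0) := by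
  have hdm : ∀ A ∈ rkMem a b, A.dep 0 ≤ d := fun A hA => (dep_subs (subs_mem_cnL (k := true) hA)).trans hd
  have h1 := or_mem g σ ht hdm (hR _ (subs_self _)) hZ (rkMem_mem a b i i')
  rw [h_neg, h_mdL, sub_sub_cancel] at h1
  obtain ⟨sg, hsg⟩ : ∃ sg : Pt n → K, sg = ((rkEnt a b i i').map (σ.h t)).sum := ⟨_, rfl⟩
  obtain ⟨δ, hδ⟩ : ∃ δ : ZMod p, δ = if i = i' then 1 else 0 := ⟨_, rfl⟩
  rw [← hsg, ← hδ] at h1
  have hdE : ∀ A ∈ rkEnt a b i i', A.dep 0 ≤ d := fun A hA =>
    (dep_subs (subs_trans (subs_mem_cnL (k := true) (rkMem_mem a b i i')) (subs_trans subs_mem_neg (subs_mem_mdL hA)))).trans hd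
  have hsgd : sg ∈ Dg K n (TT p t d) := by
    rw [hsg]
    exact ent_dg σ ht hdE
  have h2 : Kl g w (4 * TT p t d) (sg - fun _ => ((δ.val : ℕ) : K)) := by
    have h3 := Kl_mul' (c := 4 * TT p t d) (Submodule.sub_mem _ hsgd (Dg_const _ ((δ.val : ℕ) : K))) h1 (by omega)
    have h4 : (sg - fun _ => ((δ.val : ℕ) : K)) * (sg - fun _ => ((δ.val : ℕ) : K)) ^ (p - 1) = sg - fun _ => ((δ.val : ℕ) : K) := by
      funext x
      obtain ⟨c, hc⟩ : ∃ c : ℕ, sg x = (c : K) := by
        rw [hsg]
        exact sum_nat σ t _ x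
      show (sg x - ((δ.val : ℕ) : K)) * (sg x - ((δ.val : ℕ) : K)) ^ (p - 1) = sg x - ((δ.val : ℕ) : K)
      have h5 : sg x - ((δ.val : ℕ) : K) = (((c : ℤ) - (δ.val : ℤ) : ℤ) : K) := by
        rw [hc]
        push_cast
        rfl
      rw [h5]
      exact Rk_frob _
    rw [h4] at h3
    exact h3
  have h5 : Kl g w (5 * TT p t d) (sg - ∑ j : Fin r, σ.ent t (a i j) * σ.ent t (b j i')) := by
    have h6 := Kl_flat (g := g) (σ := σ) (w := w) (c := 5 * TT p t d) (t := t) (List.finRange r)
      (fun j => (a i j).flatMap fun A => (b j i').map fun B => cnL false [A, B])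
      (fun j => σ.ent t (a i j) * σ.ent t (b j i')) (fun j _ => by
        have h7 := Kl_flat (g := g) (σ := σ) (w := w) (c := 5 * TT p t d) (t := t) (a i j)
          (fun A => (b j i').map fun B => cnL false [A, B]) (fun A => σ.h t A * σ.ent t (b j i')) (fun A hA => by
            have h8 : (((b j i').map fun B => cnL false [A, B]).map (σ.h t)).sum - σ.h t A * σ.ent t (b j i') =
                ((b j i').map fun B => σ.h t (cnL false [A, B]) - σ.h t A * σ.h t B).sum := by
              unfold Sel.ent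
              rw [List.map_map, ← List.sum_map_mul_left, ← Rk_sub]
              rfl
            rw [h8]
            refine Kl_lsum _ fun P hP => ?_
            obtain ⟨B, hB, rfl⟩ := List.mem_map.1 hP
            have hs := rk_sub hA hB
            have hsA : A ∈ (rkFm a b).subs := subs_trans hs (subs_mem_cnL (by simp))
            have hsB : B ∈ (rkFm a b).subs := subs_trans hs (subs_mem_cnL (by simp))
            exact and_val' g σ ht ((dep_subs hsA).trans hd) ((dep_subs hsB).trans hd) ((dep_subs hs).trans hd)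
              (hR _ hsA) (hR _ hsB) (hR _ hs))
        have h9 : ((a i j).map fun A => σ.h t A * σ.ent t (b j i')).sum = σ.ent t (a i j) * σ.ent t (b j i') := by
          rw [List.sum_map_mul_right]
          rfl
        rw [h9] at h7
        exact h7)
    have h10 : ((List.finRange r).map fun j => σ.ent t (a i j) * σ.ent t (b j i')).sum =
        ∑ j : Fin r, σ.ent t (a i j) * σ.ent t (b j i') := (Fin.sum_univ_def _).symm
    rw [h10] at h6
    rw [hsg]
    exact h6
  have h11 : (∑ j : Fin r, σ.ent t (a i j) * σ.ent t (b j i') - if i = i' then (1 : Pt n → K) else 0) =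
      (sg - fun _ => ((δ.val : ℕ) : K)) - (sg - ∑ j : Fin r, σ.ent t (a i j) * σ.ent t (b j i')) := by
    have h12 : (fun _ : Pt n => ((δ.val : ℕ) : K)) = if i = i' then (1 : Pt n → K) else 0 := by
      funext x
      rw [hδ]
      have : Fact (1 < p) := ⟨(Fact.out : p.Prime).one_lt⟩
      by_cases h' : i = i'
      · rw [if_pos h', if_pos h', ZMod.val_one, Nat.cast_one]
        rfl
      · rw [if_neg h', if_neg h', ZMod.val_zero, Nat.cast_zero]
        rfl
    rw [h12]
    ring
  rw [h11]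
  exact Kl_sub (Kl_up h2 (by omega)) (Kl_up h5 (by omega))

end PPh.Sd
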