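import Pool.Agent.H75.PQ.MatG
import Pool.Agent.H75.PA.Gates

/-!
helper75 (project MP_28250c_PQ): rules with few different variables, the gates of a refutation with axioms, and soundness.
-/

set_option autoImplicit false
open Finset

namespace PPh.Sd

open ACpFrege

variable {K : Type} [Field K] {E : Type} [AddCommGroup E] [Module K E] {n : ℕ} {p : ℕ}

private theorem PQR_pow [Fact p.Prime] {t d : ℕ} (ht : 1 ≤ t) : (t * p) ^ d ≤ t * (p * (t * p) ^ d) := by
  have h1 : 1 ≤ p := (Fact.out : p.Prime).one_lt.le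
  calc (t * p) ^ d = 1 * (1 * (t * p) ^ d) := by ring
    _ ≤ t * (p * (t * p) ^ d) := Nat.mul_le_mul ht (Nat.mul_le_mul_right _ h1)

private theorem PQR_plf (g : Pt n → K) : pl false g = 1 - g := by
  unfold pl
  rw [if_neg Bool.false_ne_true]

private theorem PQR_det (v : Pt n → ℕ → Bool) (w : Pt n → ℕ → List Bool) (S : Sch p) (k : Bool) :
    ∀ x y, v x = v y → w x = w y → Ea K v w S k x = Ea K v w S k y := by
  intro x y hv hw
  unfold Ea
  rw [hv, hw]

private theorem PQR_zero (v : Pt n → ℕ → Bool) (w : Pt n → ℕ → List Bool) (S : Sch p) (x : Pt n) :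
    Ea K v w S false x = 0 ↔ ∀ b ∈ S.ev (v x) (w x), b = true := by
  unfold Ea
  constructor
  · intro h b hb
    cases b
    · rw [if_pos hb] at h
      exact absurd h one_ne_zero
    · rfl
  · intro h
    exact if_neg fun hf => Bool.false_ne_true (h false hf)

/-- A rule with few different variables: the value of the conclusion. -/
theorem rule_okD [Fact p.Prime] [CharP K p] (s : Slow K E n) (σ : Sel K n) {t d T : ℕ} (ht : 1 ≤ t) {f : E} (hf : f ∈ s.M 0) (R : Rule p)
    (hS : R.Sound) (u : ℕ → Fm p) (G : ℕ → List (Fm p)) (hp : ∀ P ∈ R.prem, ∀ A ∈ P.inst u G, s.OkS σ t d f A)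
    (hc : ∀ A ∈ R.concl.inst u G, s.OkS σ t d f A) (hR : ∀ j ∈ R.sqs, ∀ k, s.RespS σ t f (cnL k (G j)))
    (hT : 3 * R.vars * (p * (t * (p * (t * p) ^ d))) ≤ T) (hT' : t * (p * (t * p) ^ d) ≤ T)
    (hL : 4 * T ≤ s.L) (h : ∀ P ∈ R.prem, ∀ A ∈ P.inst u G, s.Z f (1 - σ.h t A)) :
    ∀ A ∈ R.concl.inst u G, s.Z f (1 - σ.h t A) := by
  obtain ⟨v, hv⟩ : ∃ v, v = σ.vv t R.mvs.dedup u := ⟨_, rfl⟩
  obtain ⟨w, hw⟩ : ∃ w, w = σ.ww t R.sqs.dedup G := ⟨_, rfl⟩
  have hT2 : (R.mvs.dedup.length + 3 * R.sqs.dedup.length) * (p * (t * (p * (t * p) ^ d))) ≤ T := by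
    refine le_trans (Nat.mul_le_mul_right _ ?_) hT
    unfold Rule.vars
    omega
  have hall : ∀ S : Sch p, (S = R.concl ∨ S ∈ R.prem) → ∀ A ∈ S.inst u G, s.OkS σ t d f A := by
    rintro S (rfl | hS')
    · exact hc
    · exact hp S hS'
  have hmv : ∀ i, i ∈ R.mvs.dedup ↔ ∃ S, (S = R.concl ∨ S ∈ R.prem) ∧ i ∈ S.mvs := by
    intro i
    rw [List.mem_dedup]
    unfold Rule.mvs
    rw [List.mem_append, List.mem_flatten]
    constructor
    · rintro (hi | ⟨l, hl, hi⟩)
      · exact ⟨_, Or.inl rfl, hi⟩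
      · obtain ⟨S, hS', rfl⟩ := List.mem_map.1 hl
        exact ⟨S, Or.inr hS', hi⟩
    · rintro ⟨S, rfl | hS', hi⟩
      · exact Or.inl hi
      · exact Or.inr ⟨_, List.mem_map.2 ⟨S, hS', rfl⟩, hi⟩
  have hsq : ∀ i, i ∈ R.sqs.dedup ↔ ∃ S, (S = R.concl ∨ S ∈ R.prem) ∧ i ∈ S.sqs := by
    intro i
    rw [List.mem_dedup]
    unfold Rule.sqs
    rw [List.mem_append, List.mem_flatten]
    constructor
    · rintro (hi | ⟨l, hl, hi⟩)
      · exact ⟨_, Or.inl rfl, hi⟩
      · obtain ⟨S, hS', rfl⟩ := List.mem_map.1 hl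
        exact ⟨S, Or.inr hS', hi⟩
    · rintro ⟨S, rfl | hS', hi⟩
      · exact Or.inl hi
      · exact Or.inr ⟨_, List.mem_map.2 ⟨S, hS', rfl⟩, hi⟩
  have hI : ∀ i ∈ R.mvs.dedup, (u i).dep 0 ≤ d := by
    intro i hi
    obtain ⟨S, hS', hi'⟩ := (hmv i).1 hi
    obtain ⟨B, hB, hAB⟩ := mvs_sub u G S hi'
    exact (hall S hS' B hB _ hAB).2
  have hJ' : ∀ j ∈ R.sqs.dedup, ∀ A ∈ G j, s.RespS σ t f A ∧ A.dep 0 ≤ d := by
    intro j hj A hA
    obtain ⟨S, hS', hj'⟩ := (hsq j).1 hj
    obtain ⟨B, hB, hAB⟩ := sqs_sub u G S hj' hA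
    exact hall S hS' B hB _ hAB
  have hJ : ∀ j ∈ R.sqs.dedup, ∀ A ∈ G j, A.dep 0 ≤ d := fun j hj A hA => (hJ' j hj A hA).2
  have hVW : VW K T v w := by
    rw [hv, hw]
    exact vw_vw σ ht hI hJ hT2
  have hcl : ∀ S : Sch p, (S = R.concl ∨ S ∈ R.prem) → s.ClaimS σ t T f u G v w S := by
    intro S hS'
    refine claim_all s σ ht hf u G v w hVW hT' hL S (hall S hS') ?_ ?_
    · intro i hi
      rw [hv, hw]
      exact base_mv s σ ht hf hI hJ hT2 hT' hL ((hmv i).2 ⟨S, hS', hi⟩)
    · intro j hj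
      have hj' := (hsq j).2 ⟨S, hS', hj⟩
      rw [hv, hw]
      exact base_sq s σ ht hf hI hJ hT2 hT' hL hj' (hR j (List.mem_dedup.1 hj')) fun A hA => (hJ' j hj' A hA).1
  have hprem : ∀ P ∈ R.prem, s.Z f (Ea K v w P false) := by
    intro P hP
    obtain ⟨_, _, _, h4⟩ := hcl P (Or.inr hP)
    have h5 := h4 false 1 (Dg_one T) fun A hA => by
      rw [PQR_plf, one_mul]
      exact h P hP A hA
    rwa [one_mul] at h5
  have hconcl : s.Z f (Ea K v w R.concl false) := by
    refine good_list s hf hL v w hVW (R.prem.map fun P => Ea K v w P false) ?_ ?_ _ (PQR_det v w R.concl false) ?_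
    · intro a ha
      obtain ⟨P, hP, rfl⟩ := List.mem_map.1 ha
      refine ⟨fun x => ?_, hprem P hP⟩
      show (if false ∈ P.ev (v x) (w x) then (1 : K) else 0) = 0 ∨ (if false ∈ P.ev (v x) (w x) then (1 : K) else 0) = 1
      by_cases hx : false ∈ P.ev (v x) (w x)
      · right
        rw [if_pos hx]
      · left
        rw [if_neg hx]
    · intro a ha
      obtain ⟨P, _, rfl⟩ := List.mem_map.1 ha
      exact PQR_det v w P false
    · intro x hx
      rw [PQR_zero]
      refine hS (v x) (w x) fun P hP => ?_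
      exact (PQR_zero (K := K) v w P x).1 (hx _ (List.mem_map.2 ⟨P, hP, rfl⟩))
  intro A hA
  obtain ⟨_, _, h3, _⟩ := hcl R.concl (Or.inl rfl)
  have h3' := h3 false A hA
  rw [PQR_plf] at h3'
  have h1 : 1 - σ.h t A = (1 - Ea K v w R.concl false) * (1 - σ.h t A) + (1 - σ.h t A) * Ea K v w R.concl false := by
    ring
  rw [h1]
  refine Z_add s h3' ?_
  have hdA : σ.h t A ∈ Dg K n ((t * p) ^ d) := deg_h σ ht (hc A hA A (subs_self A)).2
  have hle : (t * p) ^ d ≤ t * (p * (t * p) ^ d) := PQR_pow ht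
  exact Z_mul s hf (Submodule.sub_mem _ (Dg_one _) hdA) (hVW _ (PQR_det v w R.concl false)) hconcl (by omega)

/-- The data of a line. -/
def PQLine (S : List (Rule p)) (P : ℕ) (F : CNF) (prev : List (Fm p)) (A : Fm p) (Λ : List (Fm p)) : Prop :=
  (∃ C ∈ F, A = clauseFm C) ∨
    (∃ R ∈ S, ∃ (u : ℕ → Fm p) (G : ℕ → List (Fm p)), R.concl.inst u G = [A] ∧
      (∀ Q ∈ R.prem, ∀ B ∈ Q.inst u G, B ∈ prev) ∧ ∀ j ∈ R.sqs, ∀ k, cnL k (G j) ∈ Λ) ∨ PQX P Λ A

theorem PQLine_mono {S : List (Rule p)} {P : ℕ} {F : CNF} {prev : List (Fm p)} {A : Fm p} {Λ Λ' : List (Fm p)}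
    (h : PQLine S P F prev A Λ) (hΛ : ∀ B ∈ Λ, B ∈ Λ') : PQLine S P F prev A Λ' := by
  rcases h with h | ⟨R, hR, u, G, h1, h2, h3⟩ | ⟨m, r, ψ, h1, h2, h3, h4⟩ | h
  · exact Or.inl h
  · exact Or.inr (Or.inl ⟨R, hR, u, G, h1, h2, fun j hj k => hΛ _ (h3 j hj k)⟩)
  · exact Or.inr (Or.inr (Or.inl ⟨m, r, ψ, h1, h2, h3, fun i j hj => hΛ _ (h4 i j hj)⟩))
  · exact Or.inr (Or.inr (Or.inr h))

/-- The auxiliary gates and all subformulas of a refutation. -/
theorem PQ_gates (S : List (Rule p)) {v : ℕ} (hv : ∀ R ∈ S, R.vars ≤ v) (d P : ℕ) (F : CNF) (π : List (Fm p))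
    (hπ : RefutesR S d P F π) :
    ∃ Λ : List (Fm p), Λ.length ≤ (2 * v + 2) * psize π ∧ (∀ A ∈ π, ∀ B ∈ A.subs, B ∈ Λ) ∧
      (∀ k l, cnL k l ∈ Λ → ∀ A ∈ l, ∃ B ∈ π, A ∈ B.subs) ∧
      ∀ (i : ℕ) (h : i < π.length), PQLine S P F (π.take i) π[i] Λ := by
  obtain ⟨_, hst, _⟩ := hπ
  have key : ∀ i : Fin π.length, ∃ aux : List (Fm p), aux.length ≤ 2 * v + (π[i]).size ∧
      (∀ k l, cnL k l ∈ aux → ∀ A ∈ l, ∃ B ∈ π, A ∈ B.subs) ∧ PQLine S P F (π.take i) π[i] aux := by
    intro i
    have hi : π[i] ∈ π := List.getElem_mem i.2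
    rcases hst i i.2 with (h | ⟨R, hR, u, G, h1, h2⟩) | ⟨m, r, ψ, h1, h2, h3⟩ | h
    · exact ⟨[], Nat.zero_le _, fun k l h' => absurd h' List.not_mem_nil, Or.inl h⟩
    · refine ⟨R.sqs.dedup.flatMap fun j => [cnL true (G j), cnL false (G j)], ?_, ?_, Or.inr (Or.inl ⟨R, hR, u, G, h1, h2, ?_⟩)⟩
      · have h3 := hv R hR
        unfold Rule.vars at h3
        rw [List.length_flatMap]
        simp only [List.length_cons, List.length_nil, List.map_const', List.sum_replicate, smul_eq_mul]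
        omega
      · intro k l h' A hA
        rw [List.mem_flatMap] at h'
        obtain ⟨j, hj, h'⟩ := h'
        rw [List.mem_dedup] at hj
        have hl : l = G j := by
          simp only [List.mem_cons, List.not_mem_nil, or_false] at h'
          rcases h' with h' | h'
          · exact (cnL_inj h').2
          · exact (cnL_inj h').2
        rw [hl] at hA
        unfold Rule.sqs at hj
        rw [List.mem_append] at hj
        rcases hj with hj | hj
        · obtain ⟨B, hB, hAB⟩ := sqs_sub u G R.concl hj hA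
          rw [h1, List.mem_singleton] at hB
          rw [hB] at hAB
          exact ⟨_, hi, hAB⟩
        · rw [List.mem_flatten] at hj
          obtain ⟨L, hL, hj⟩ := hj
          rw [List.mem_map] at hL
          obtain ⟨Q, hQ, rfl⟩ := hL
          obtain ⟨B, hB, hAB⟩ := sqs_sub u G Q hj hA
          exact ⟨B, List.mem_of_mem_take (h2 Q hQ B hB), hAB⟩
      · intro j hj k
        rw [List.mem_flatMap]
        refine ⟨j, List.mem_dedup.2 hj, ?_⟩
        cases k <;> simp
    · have h3' : π[i] = phpFm ψ := h3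
      refine ⟨(List.finRange m).flatMap fun i => (List.range (r + 1)).map fun j => cnL true ((phRow ψ i).take j), ?_, ?_,
        Or.inr (Or.inr (Or.inl ⟨m, r, ψ, h1, h2, h3', ?_⟩))⟩
      · rw [List.length_flatMap]
        simp only [List.length_map, List.length_range, List.map_const', List.length_finRange, List.sum_replicate, smul_eq_mul]
        rw [h3']
        have := PA_size_php ψ
        omega
      · intro k l h' A hA
        rw [List.mem_flatMap] at h'
        obtain ⟨a, _, h'⟩ := h'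
        rw [List.mem_map] at h'
        obtain ⟨j, _, h'⟩ := h'
        have hl := (cnL_inj h').2
        rw [← hl] at hA
        have h4 : A ∈ (phpFm ψ).subs := subs_trans (phRow_sub ψ a) (subs_mem_cnL (List.mem_of_mem_take hA))
        rw [← h3'] at h4
        exact ⟨_, hi, h4⟩
      · intro a j hj
        rw [List.mem_flatMap]
        refine ⟨a, List.mem_finRange a, ?_⟩
        rw [List.mem_map]
        exact ⟨j, List.mem_range.2 (by omega), rfl⟩
    · exact ⟨[], Nat.zero_le _, fun k l h' => absurd h' List.not_mem_nil, Or.inr (Or.inr (Or.inr h))⟩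
  choose aux ha1 ha2 ha3 using key
  refine ⟨(π.map Fm.subs).flatten ++ (List.ofFn aux).flatten, ?_, ?_, ?_, ?_⟩
  · have hsz : π.length ≤ psize π := by
      unfold psize
      have h1 := List.length_le_sum_of_one_le (π.map Fm.size) (by
        intro i hi
        rw [List.mem_map] at hi
        obtain ⟨A, _, rfl⟩ := hi
        exact PA_size_pos A)
      rw [List.length_map] at h1
      exact h1
    have h1 : ((π.map Fm.subs).flatten).length = psize π := by
      unfold psize
      rw [List.length_flatten, List.map_map]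
      congr 1
      refine List.map_congr_left fun A _ => ?_
      exact subs_length A
    have h2 : ((List.ofFn aux).flatten).length ≤ π.length * (2 * v) + psize π := by
      rw [List.length_flatten, List.map_ofFn, List.sum_ofFn]
      refine (Finset.sum_le_sum fun i _ => ha1 i).trans (le_of_eq ?_)
      rw [Finset.sum_add_distrib, Finset.sum_const, Finset.card_univ, Fintype.card_fin, smul_eq_mul]
      congr 1
      have h6 : (List.ofFn fun i : Fin π.length => (π[i]).size) = π.map Fm.size := by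
        apply List.ext_getElem
        · simp
        · intro a b c
          simp
      unfold psize
      rw [← h6, List.sum_ofFn]
    rw [List.length_append, h1]
    have h3 : π.length * (2 * v) ≤ psize π * (2 * v) := Nat.mul_le_mul_right _ hsz
    have h5 : (2 * v + 2) * psize π = psize π * (2 * v) + psize π + psize π := by ring
    omega
  · intro A hA B hB
    rw [List.mem_append]
    left
    exact List.mem_flatten.2 ⟨A.subs, List.mem_map.2 ⟨A, hA, rfl⟩, hB⟩
  · intro k l h' A hA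
    rw [List.mem_append] at h'
    rcases h' with h' | h'
    · rw [List.mem_flatten] at h'
      obtain ⟨L, hL, h'⟩ := h'
      rw [List.mem_map] at hL
      obtain ⟨B, hB, rfl⟩ := hL
      exact ⟨B, hB, subs_trans h' (subs_mem_cnL hA)⟩
    · rw [List.mem_flatten] at h'
      obtain ⟨L, hL, h'⟩ := h'
      rw [List.mem_ofFn] at hL
      obtain ⟨i, rfl⟩ := hL
      exact ha2 i k l h' A hA
  · intro i h
    refine PQLine_mono (ha3 ⟨i, h⟩) fun B hB => ?_
    rw [List.mem_append]
    right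
    exact List.mem_flatten.2 ⟨aux ⟨i, h⟩, List.mem_ofFn.2 ⟨⟨i, h⟩, rfl⟩, hB⟩

/-- The degree budget of the rules with at most `v` variables. -/
def TV (p v t d : ℕ) : ℕ := (3 * v + 1) * (p * TT p t d)

theorem TV_le [Fact p.Prime] {v t d : ℕ} : TT p t d ≤ TV p v t d ∧ p * TT p t d ≤ TV p v t d := by
  have h1 : p * TT p t d ≤ TV p v t d := by
    unfold TV
    exact Nat.le_mul_of_pos_left _ (by omega)
  exact ⟨le_trans (Nat.le_mul_of_pos_left _ (Fact.out : p.Prime).pos) h1, h1⟩

/-- All lines have value 1 on a vector which respects all gates, if the input clauses and the axioms which occur have value 1. -/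
theorem PQ_lines [Fact p.Prime] [CharP K p] (s : Slow K E n) (σ : Sel K n) {t d v P : ℕ} (ht : 1 ≤ t) {f : E} (hf : f ∈ s.M 0)
    (S : List (Rule p)) (hS : ∀ R ∈ S, R.Sound) (hv : ∀ R ∈ S, R.vars ≤ v) (F : CNF) (π : List (Fm p)) (hd : ∀ A ∈ π, A.dep 0 ≤ d)
    (hF : ∀ C ∈ F, (clauseFm C : Fm p) ∈ π → s.Z f (1 - σ.h t (clauseFm C : Fm p)))
    (Λ : List (Fm p)) (h1 : ∀ A ∈ π, ∀ B ∈ A.subs, B ∈ Λ) (hR : ∀ B ∈ Λ, s.RespS σ t f B)
    (h2 : ∀ (i : ℕ) (h : i < π.length), PQLine S P F (π.take i) π[i] Λ)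
    (h3 : ∀ A ∈ π, PQX P Λ A → s.Z f (1 - σ.h t A))
    (hL : 4 * TV p v t d ≤ s.L) : ∀ A ∈ π, s.Z f (1 - σ.h t A) := by
  have hOk : ∀ A ∈ π, s.OkS σ t d f A := fun A hA B hB => ⟨hR B (h1 A hA B hB), (dep_subs hB).trans (hd A hA)⟩
  have key : ∀ (i : ℕ) (h : i < π.length), s.Z f (1 - σ.h t π[i]) := by
    intro i
    induction i using Nat.strong_induction_on with
    | _ i ih =>
      intro h
      have hi : π[i] ∈ π := List.getElem_mem h
      rcases h2 i h with ⟨C, hC, hCi⟩ | ⟨R, hRS, u, G, h3', h4, h5⟩ | hQ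
      · rw [hCi]
        rw [hCi] at hi
        exact hF C hC hi
      · have hc : ∀ A ∈ R.concl.inst u G, s.OkS σ t d f A := by
          intro A hA
          rw [h3', List.mem_singleton] at hA
          rw [hA]
          exact hOk _ hi
        refine rule_okD (T := TV p v t d) s σ ht hf R (hS R hRS) u G
          (fun P hP A hA => hOk _ (List.mem_of_mem_take (h4 P hP A hA))) hc (fun j hj k => hR _ (h5 j hj k)) ?_ ?_ hL ?_ _ ?_
        · unfold TV TT
          refine Nat.mul_le_mul_right _ ?_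
          have := hv R hRS
          omega
        · exact (TV_le (v := v) (d := d)).1
        · intro P hP A hA
          have h6 := h4 P hP A hA
          rw [List.mem_take_iff_getElem] at h6
          obtain ⟨j, hj, rfl⟩ := h6
          exact ih j (by omega) (by omega)
        · rw [h3']
          exact List.mem_singleton.2 rfl
      · exact h3 _ hi hQ
  intro A hA
  obtain ⟨i, hi, rfl⟩ := List.mem_iff_getElem.1 hA
  exact key i hi

end PPh.Sd
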