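import Pool.Agent.H75.PQ.NumT
import Pool.Agent.H94.TE.Main
import Pool.Agent.H94.PP.Final

/-!
helper75 (project MP_28250c_PQ): the Tseitin formulas are exponentially hard for bounded-depth Frege systems with MOD_p which may use
all sound rules with few variables and all instances of the weak pigeonhole principle and of the weak rank principle.
-/

set_option autoImplicit false
open Finset

namespace PPh

open ACpFrege

/-- The final statement: Tseitin formulas of graphs with a large grid minor. -/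
def StatementTMr : Prop :=
  ∀ p : ℕ, p.Prime → ∃ n₀ : ℕ, ∀ n ≥ n₀, ∀ d : ℕ,
    Real.log n ^ (d + 1) ≤ (n : ℝ) ^ (Real.log 2 / (400 * Real.log (2 * p + 4))) →
    ∀ (S : List (Rule p)) (P : ℕ), (∀ R ∈ S, R.Sound) →
      (∀ R ∈ S, (R.vars : ℝ) ≤ (n : ℝ) ^ (Real.log 2 / (400 * Real.log (2 * p + 4)))) →
      (P : ℝ) ≤ (n : ℝ) ^ (Real.log 2 / (400 * Real.log (2 * p + 4))) →
    ∀ (v : ℕ) (G : SimpleGraph (Fin v)) [DecidableRel G.Adj], G.Connected → GridMinor n G →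
      (∀ w, (G.degree w : ℝ) ≤ (n : ℝ) ^ (Real.log 2 / (400 * Real.log (2 * p + 4)))) →
      (∀ q : ℕ, 2 ≤ q → ∀ σ : Fin v → ZMod q, ((p ^ q.factorization p : ℕ) : ZMod q) ∣ ∑ w, σ w → ∑ w, σ w ≠ 0 →
        ∀ π : List (Fm p), RefutesR S d P (tsg G q σ) π →
          (2 : ℝ) ^ ((n : ℝ) ^ (Real.log 2 / (400 * Real.log (2 * p + 4)) / (d + 1))) ≤ psize π) ∧
      (p ≠ 2 → ∀ σ : Fin v → ZMod 2, ∑ w, σ w ≠ 0 →
        ∀ π : List (Fm p), RefutesR S d P (tsgb G σ) π →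
          (2 : ℝ) ^ ((n : ℝ) ^ (Real.log 2 / (400 * Real.log (2 * p + 4)) / (d + 1))) ≤ psize π)

theorem tm_ofR (hM : ∀ (p : ℕ) [Fact p.Prime], OutM p) : StatementTMr := by
  intro p hp
  have : Fact p.Prime := ⟨hp⟩
  obtain ⟨l₁, hl₁⟩ := hM p
  obtain ⟨n₀, hn₀⟩ := tm_numR hp (H := fun w n F L A R del => HasGmW w p n F L A R del)
    (fun w S v hS hv d n F L A R del N t P hs ht hL hvN hCN hR hdelR π hπ =>
      Sd.outGRx p w S v hS hv d n F L A R del N t P hs ht hL hvN hCN hR hdelR π hπ) l₁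
  have hc0 : 0 < ctg p := by
    have hp2 : (2 : ℝ) ≤ p := by exact_mod_cast hp.two_le
    have h1 := Real.log_pos (by linarith : (1 : ℝ) < 2 * p + 4)
    have h2 := Real.log_pos one_lt_two
    unfold ctg
    positivity
  obtain ⟨n₁, hn₁⟩ := Filter.eventually_atTop.mp
    (((tendsto_rpow_atTop hc0).comp tendsto_natCast_atTop_atTop).eventually_ge_atTop (2 : ℝ))
  refine ⟨max n₀ n₁, fun n hn d hd S P hS hvS hP v G _ hG hmin hΔ => ?_⟩
  obtain ⟨l, hl, hln, hF⟩ := hn₀ n (le_trans (le_max_left _ _) hn) d hd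
  have hp2 := hp.two_le
  have hB : 1 ≤ (2 * p + 4) ^ (5 * l) := Nat.one_le_pow _ _ (by omega)
  have h2c : (2 : ℝ) ≤ (n : ℝ) ^ ctg p := hn₁ n (le_trans (le_max_right _ _) hn)
  obtain ⟨Δ, hΔe⟩ : ∃ Δ, Δ = ⌊(n : ℝ) ^ ctg p⌋₊ := ⟨_, rfl⟩
  have hΔ2 : 2 ≤ Δ := by
    rw [hΔe]
    exact Nat.le_floor (by exact_mod_cast h2c)
  have hΔw : (Δ : ℝ) ≤ (n : ℝ) ^ ctg p := by
    rw [hΔe]
    exact Nat.floor_le (by linarith)
  have hdeg : ∀ w, G.degree w ≤ Δ := fun w => by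
    rw [hΔe]
    exact Nat.le_floor (hΔ w)
  have hgm : ∀ L, 4 * L ≤ 2 ^ (l / 2) → HasGm p (((2 * p + 4) ^ (5 * l) + p ^ l) * (2 * p + 4) ^ (5 * l))
      (ofphp ((2 * p + 4) ^ (5 * l) + p ^ l) ((2 * p + 4) ^ (5 * l))) (4 * L) ((2 * p + 4) ^ (15 * l)) (4 * (2 ^ (2 ^ (l / 2) / 2) / 4))
        ((2 * ((2 * p + 4) ^ (5 * l)) ^ 2) ^ (4 * L)) := fun L hL =>
    HasGm.mono (Nat.mul_div_le _ _) (hl₁ l hl ((2 * p + 4) ^ (5 * l)) (4 * L) le_rfl hL)
  have hun : ∀ (q : ℕ) (t : ZMod q), ((p ^ l : ℕ) : ZMod q) ∣ t →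
      ((((2 * p + 4) ^ (5 * l) : ℕ) : ZMod q) - (((2 * p + 4) ^ (5 * l) + p ^ l : ℕ) : ZMod q)) ∣ t := by
    intro q t ht
    have h2 : (((2 * p + 4) ^ (5 * l) : ℕ) : ZMod q) - (((2 * p + 4) ^ (5 * l) + p ^ l : ℕ) : ZMod q) = -((p ^ l : ℕ) : ZMod q) := by
      push_cast
      ring
    rw [h2, neg_dvd]
    exact ht
  refine ⟨fun q hq σ hdvd hσ π hπ => ?_, fun h2 σ hσ π hπ => ?_⟩
  · exact hF Δ _ _ hΔw (fun L hL => tsg_gm G hG hmin hdeg hΔ2 hq (by omega) hB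
      (by omega) (by omega) (hun q _ (TU.pw_dvd hp (by omega) l hdvd)) (hgm L hL)) S P hS hvS hP π hπ
  · have hc : Nat.Coprime p 2 := (Nat.coprime_primes hp Nat.prime_two).2 h2
    have h1 : IsUnit ((p ^ l : ℕ) : ZMod 2) := (ZMod.isUnit_iff_coprime _ _).2 (Nat.Coprime.pow_left l hc)
    exact hF Δ _ _ hΔw (fun L hL => tsgb_gm G hG hmin hdeg (by omega) hB
      (by omega) (by omega) (hun 2 _ h1.dvd) (hgm L hL)) S P hS hvS hP π hπ

/-- The final statement: Tseitin formulas of expanders. -/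
def StatementTEr : Prop :=
  ∀ p : ℕ, p.Prime → ∀ k : ℕ, ∃ v₀ : ℕ, ∀ v ≥ v₀, ∀ d : ℕ,
    Real.log v ^ (d + 1) ≤ (v : ℝ) ^ (Real.log 2 / (2400 * Real.log (2 * p + 4))) →
    ∀ (S : List (Rule p)) (P : ℕ), (∀ R ∈ S, R.Sound) →
      (∀ R ∈ S, (R.vars : ℝ) ≤ (v : ℝ) ^ (Real.log 2 / (2400 * Real.log (2 * p + 4)))) →
      (P : ℝ) ≤ (v : ℝ) ^ (Real.log 2 / (2400 * Real.log (2 * p + 4))) →
    ∀ (G : SimpleGraph (Fin v)) [DecidableRel G.Adj], Exp k G →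
      (∀ w, (G.degree w : ℝ) ≤ (v : ℝ) ^ (Real.log 2 / (2400 * Real.log (2 * p + 4)))) →
      (∀ q : ℕ, 2 ≤ q → ∀ σ : Fin v → ZMod q, ((p ^ q.factorization p : ℕ) : ZMod q) ∣ ∑ w, σ w → ∑ w, σ w ≠ 0 →
        ∀ π : List (Fm p), RefutesR S d P (tsg G q σ) π →
          (2 : ℝ) ^ ((v : ℝ) ^ (Real.log 2 / (2400 * Real.log (2 * p + 4)) / (d + 1))) ≤ psize π) ∧
      (p ≠ 2 → ∀ σ : Fin v → ZMod 2, ∑ w, σ w ≠ 0 →
        ∀ π : List (Fm p), RefutesR S d P (tsgb G σ) π →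
          (2 : ℝ) ^ ((v : ℝ) ^ (Real.log 2 / (2400 * Real.log (2 * p + 4)) / (d + 1))) ≤ psize π)

theorem te_ofR (hM : StatementTMr) : StatementTEr := by
  intro p hp k
  obtain ⟨n₀, hn₀⟩ := hM p hp
  obtain ⟨v₀, hv₀, hnum⟩ := te_num (k + 1) (n₀ + 1)
  refine ⟨v₀, fun v hv d hd S P hS hvS hP G _ hE hΔ => ?_⟩
  obtain ⟨n, h1, h2, h3, h4⟩ := hnum v hv
  have hE' : Exp (k + 1) G := fun A hA => (hE A hA).trans (Nat.mul_le_mul_right _ (Nat.le_succ _))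
  obtain ⟨B, hB⟩ := exp_minor (h := n * n) (Nat.le_add_left 1 k) hE' h4
  have hconn := exp_conn hE' (by omega)
  have hmin := grid_of_clique hB
  have hn1 : (1 : ℝ) ≤ n := by exact_mod_cast (by omega : 1 ≤ n)
  have hv1 : (1 : ℝ) ≤ v := by exact_mod_cast (by omega : 1 ≤ v)
  have hp2 : (2 : ℝ) ≤ p := by exact_mod_cast hp.two_le
  have hc : (0 : ℝ) < Real.log 2 / (400 * Real.log (2 * p + 4)) := by
    have := Real.log_pos (by linarith : (1 : ℝ) < 2 * p + 4)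
    have := Real.log_pos one_lt_two
    positivity
  have hc6 : Real.log 2 / (2400 * Real.log (2 * p + 4)) = (1 / 6) * (Real.log 2 / (400 * Real.log (2 * p + 4))) := by
    rw [show (2400 : ℝ) * Real.log (2 * p + 4) = 6 * (400 * Real.log (2 * p + 4)) by ring]
    rw [div_mul_eq_div_div_swap]
    ring
  have key : ∀ e : ℝ, 0 ≤ e → (v : ℝ) ^ ((1 / 6) * e) ≤ (n : ℝ) ^ e := by
    intro e he
    rw [Real.rpow_mul (by linarith)]
    exact Real.rpow_le_rpow (Real.rpow_nonneg (by linarith) _) h2 he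
  have key' : (v : ℝ) ^ (Real.log 2 / (2400 * Real.log (2 * p + 4))) ≤ (n : ℝ) ^ (Real.log 2 / (400 * Real.log (2 * p + 4))) := by
    rw [hc6]
    exact key _ hc.le
  have hlog : Real.log n ^ (d + 1) ≤ (n : ℝ) ^ (Real.log 2 / (400 * Real.log (2 * p + 4))) := by
    calc Real.log n ^ (d + 1) ≤ Real.log v ^ (d + 1) := by
          refine pow_le_pow_left₀ (Real.log_nonneg hn1) (Real.log_le_log (by linarith) (by exact_mod_cast h3)) _
      _ ≤ _ := hd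
      _ ≤ _ := key'
  obtain ⟨ha, hb⟩ := hn₀ n (by omega) d hlog S P hS (fun R hR => (hvS R hR).trans key') (hP.trans key') v G hconn hmin
    (fun w => (hΔ w).trans key')
  have hfin : (2 : ℝ) ^ ((v : ℝ) ^ (Real.log 2 / (2400 * Real.log (2 * p + 4)) / (d + 1))) ≤
      (2 : ℝ) ^ ((n : ℝ) ^ (Real.log 2 / (400 * Real.log (2 * p + 4)) / (d + 1))) := by
    refine Real.rpow_le_rpow_of_exponent_le one_le_two ?_
    rw [hc6, mul_div_assoc]
    exact key _ (by positivity)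
  exact ⟨fun q hq σ hd hσ π hπ => hfin.trans (ha q hq σ hd hσ π hπ), fun h2 σ hσ π hπ => hfin.trans (hb h2 σ hσ π hπ)⟩

theorem mainTMr : StatementTMr := tm_ofR fun p _ => outM_all p

theorem mainTEr : StatementTEr := te_ofR mainTMr

end PPh
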